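import Pool.Agent.H622R3.SM.Stm

set_option autoImplicit false

/-!
# Meaning of the formulas of the oracle
-/

namespace Pool.Agent.H622R3.SM

open Pool.Agent.NPC Pool.Agent.NPC.ER Pool.Agent.NPC.H612 Pool.Agent.H558R2

namespace TBOTH

theorem holds_and (φ ψ : Fm) (x : ℕ → ℝ) : (Fm.and φ ψ).Holds x ↔ φ.Holds x ∧ ψ.Holds x := Iff.rfl

/-- a consistent and feasible instance from a valuation -/
theorem feas_of (hMF : S_MF) (hFI : S_FI) {m n : ℕ} {h : List Outcome} (hm : 1 ≤ m) (c : ℕ)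
    {x : ℕ → ℝ} (h1 : (consFm m n c h).Holds x) (h2 : (feasFm m n c).Holds x) :
    Cons m n h (inst m n c x) ∧ Feas (inst m n c x) :=
  ⟨hMF m n c h x hm h1, fun j => x (vx (2 :: c :: [(j : ℕ)])), ((hFI m n c x).1.1 h2)⟩

theorem inf_of (hMF : S_MF) (hFI : S_FI) (hF : S_FARKAS) {m n : ℕ} {h : List Outcome}
    (hm : 1 ≤ m) (c : ℕ) {x : ℕ → ℝ} (h1 : (consFm m n c h).Holds x)
    (h2 : (infFm m n c).Holds x) :
    Cons m n h (inst m n c x) ∧ ¬ Feas (inst m n c x) :=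
  ⟨hMF m n c h x hm h1, (hF m n _).2
    ⟨fun i => x (vx (3 :: c :: [(i : ℕ)])), ((hFI m n c x).2.1 h2)⟩⟩

theorem feas_to (hFI : S_FI) {m n : ℕ} (c : ℕ) {x : ℕ → ℝ} {a : Inp m n}
    (ha : inst m n c x = a) (s : Fin n → ℝ) (hs : ∀ i, a.2 i ≤ ∑ j, a.1 i j * s j)
    (hx : ∀ j : Fin n, x (vx (2 :: c :: [(j : ℕ)])) = s j) : (feasFm m n c).Holds x := by
  rw [(hFI m n c x).1]
  intro i
  rw [ha]
  simp only [hx]
  exact hs i

theorem inf_to (hFI : S_FI) {m n : ℕ} (c : ℕ) {x : ℕ → ℝ} {a : Inp m n}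
    (ha : inst m n c x = a) (y : Fin m → ℝ) (hy : (∀ i, 0 ≤ y i) ∧
      (∀ j, ∑ i, y i * a.1 i j = 0) ∧ 0 < ∑ i, y i * a.2 i)
    (hx : ∀ i : Fin m, x (vx (3 :: c :: [(i : ℕ)])) = y i) : (infFm m n c).Holds x := by
  rw [(hFI m n c x).2]
  rw [ha]
  simp only [hx]
  exact hy

end TBOTH

open TBOTH in
theorem t_BOTH : S_MF → S_VAL → S_FI → S_FARKAS → S_BOTH := by
  intro hMF hVAL hFI hF m n h hm
  refine ⟨⟨?_, ?_⟩, ⟨?_, ?_⟩⟩
  · rintro ⟨x, hx⟩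
    obtain ⟨⟨h1, h2⟩, h3, h4⟩ : ((consFm m n 0 h).Holds x ∧ (feasFm m n 0).Holds x) ∧
      (consFm m n 1 h).Holds x ∧ (infFm m n 1).Holds x := hx
    exact ⟨⟨_, feas_of hMF hFI hm 0 h1 h2⟩, ⟨_, inf_of hMF hFI hF hm 1 h3 h4⟩⟩
  · rintro ⟨⟨a0, hc0, s, hs⟩, a1, hc1, hn1⟩
    obtain ⟨y, hy⟩ := (hF m n a1).1 hn1
    obtain ⟨x, hx1, hx2, hx3, hx4⟩ := hVAL m n h (fun c => if c = 0 then a0 else a1)
      (fun _ j => if hj : j < n then s ⟨j, hj⟩ else 0)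
      (fun _ i => if hi : i < m then y ⟨i, hi⟩ else 0) hm
    have e0 : inst m n 0 x = a0 := by rw [hx1 0]; simp
    have e1 : inst m n 1 x = a1 := by rw [hx1 1]; simp
    refine ⟨x, ?_⟩
    show ((consFm m n 0 h).Holds x ∧ (feasFm m n 0).Holds x) ∧
      (consFm m n 1 h).Holds x ∧ (infFm m n 1).Holds x
    refine ⟨⟨hx2 0 (by simpa using hc0), ?_⟩, hx2 1 (by simpa using hc1), ?_⟩
    · exact feas_to hFI 0 e0 s hs (fun j => by rw [hx3]; simp)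
    · exact inf_to hFI 1 e1 y hy (fun i => by rw [hx4]; simp)
  · rintro ⟨x, hx⟩
    obtain ⟨h1, h2⟩ : (consFm m n 0 h).Holds x ∧ (feasFm m n 0).Holds x := hx
    exact ⟨_, feas_of hMF hFI hm 0 h1 h2⟩
  · rintro ⟨a0, hc0, s, hs⟩
    obtain ⟨x, hx1, hx2, hx3, hx4⟩ := hVAL m n h (fun _ => a0)
      (fun _ j => if hj : j < n then s ⟨j, hj⟩ else 0) (fun _ _ => 0) hm
    refine ⟨x, ?_⟩
    show (consFm m n 0 h).Holds x ∧ (feasFm m n 0).Holds x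
    exact ⟨hx2 0 hc0, feas_to hFI 0 (hx1 0) s hs (fun j => by rw [hx3]; simp)⟩

end Pool.Agent.H622R3.SM
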