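import Pool.Agent.H622R3.SM.Stm
import Pool.Agent.H623R2.PS.Quant
import Pool.Agent.ER.Dec

/-!
# Task COL: collapse of the class of quantified existential sentences
-/

set_option autoImplicit false

namespace Pool.Agent.H622R3.SM

open Pool.Agent.NPC Pool.Agent.NPC.ER

namespace TCOL

/-- `evq` and `QTrue` agree. -/
theorem evq_iff : ∀ (qs : List Bool) (ψ : List Bool → Bool),
    Pool.Agent.H623R2.PS.evq qs ψ = true ↔ QTrue qs (fun v => ψ v = true)
  | [], ψ => Iff.rfl
  | true :: qs, ψ => by
      simp only [Pool.Agent.H623R2.PS.evq, QTrue, cond_true, Bool.and_eq_true, Bool.forall_bool]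
      rw [evq_iff qs, evq_iff qs]
  | false :: qs, ψ => by
      simp only [Pool.Agent.H623R2.PS.evq, QTrue, cond_false, Bool.or_eq_true, Bool.exists_bool]
      rw [evq_iff qs, evq_iff qs]

theorem QTrue_congr : ∀ (qs : List Bool) (P Q : List Bool → Prop), (∀ v, P v ↔ Q v) →
    (QTrue qs P ↔ QTrue qs Q)
  | [], P, Q, h => h []
  | true :: qs, P, Q, h => by
      simp only [QTrue]
      exact forall_congr' fun b => QTrue_congr qs _ _ fun v => h (b :: v)
  | false :: qs, P, Q, h => by
      simp only [QTrue]
      exact exists_congr fun b => QTrue_congr qs _ _ fun v => h (b :: v)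

/-- A polynomial-time test of the codes of data. -/
theorem poly_test {α : Type} [TEnc α] {V : List Bool → List Bool} (hV : PolyTime V) :
    Poly (fun a : α => decide (V (bits a) = [true])) := by
  have h1 : PC (fun x : List Bool => x) (fun x : List Bool => x) V :=
    H642R2.TMSim.polyTime_toPC hV
  have h2 : PC (bits : α → List Bool) (fun x : List Bool => x) (fun a : α => V (bits a)) := by
    obtain ⟨c, p, h⟩ := h1
    exact ⟨c, p, fun a => h (bits a)⟩
  have h3 : PC (bits : α → List Bool) (bits : List Bool → List Bool) (fun a : α => V (bits a)) :=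
    PC.comp (g := fun x => x) (f := fun a : α => V (bits a)) PC.rawIn h2
  have h4 : Poly (fun x : List Bool => decide (x = [true])) :=
    NPC.Poly.decide_eq NPC.Poly.id (NPC.Poly.const _)
  exact PC.comp (g := fun x : List Bool => decide (x = [true])) (f := fun a : α => V (bits a)) h4 h3

end TCOL

theorem t_COL (hC : S_COMP') : S_COL := by
  intro h1 h2 L hL
  obtain ⟨qs, F, hqs, hF, hL⟩ := hL
  have hqs' : Poly qs := hC _ _ qs hqs
  have hF' : Poly F := hC _ _ F hF
  obtain ⟨V, hV, hV'⟩ := h2 _ erComplete_ETR.1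
  have hd : Poly (fun φ : Fm => decide (V (bits φ) = [true])) := TCOL.poly_test hV
  have hdiff : ∀ φ : Fm, ETR φ ↔ decide (V (bits φ) = [true]) = true := by
    intro φ
    rw [decide_eq_true_iff, ← hV', bits_mem_lang]
  refine h1 L (Pool.Agent.H623R2.PS.inPSPACE_of_evq (init := fun w : List Bool => w) NPC.Poly.id hqs'
    (φ := fun w v => decide (V (bits (F (w, v))) = [true])) (hd.comp hF') ?_)
  intro w
  rw [hL w, TCOL.evq_iff]
  exact TCOL.QTrue_congr _ _ _ fun v => hdiff _

end Pool.Agent.H622R3.SM
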