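import Pool.Agent.H622R3.SM.Stm
import Pool.Agent.H642R2.TMSim

set_option autoImplicit false

/-!
# Task COMP: `Poly` versus Turing machines
-/

namespace Pool.Agent.H622R3.SM

open Pool.Agent.NPC Pool.Agent.NPC.ER Pool.Agent.NPC.H612 Pool.Agent.H558R2

theorem t_COMP : S_COMP := by
  intro β γ _ _ _ f hf
  have h1 : Poly (fun x : List Bool => (unbits β x).map f) :=
    Poly.optMap (f := fun (_ : List Bool) (a : β) => f a) poly_unbits
      (hf.comp (Poly.snd Poly.id))
  refine ⟨_, polyTime_opt h1, fun a => ?_⟩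
  simp only [unbits_bits, Option.map_some]

theorem t_COMP2 : S_COMP' := by
  rintro β γ _ _ f ⟨g, hg, h⟩
  obtain ⟨c, p, hc⟩ := Pool.Agent.H642R2.TMSim.polyTime_toPC hg
  refine ⟨c, p, fun a => ?_⟩
  have h1 := hc (bits a)
  simp only [id_eq, h] at h1
  exact h1

end Pool.Agent.H622R3.SM
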