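import Pool.Agent.H622R3.SM.Stm
import Pool.Agent.H622R2.CoNP

set_option autoImplicit false

/-!
# Task ELIM: elimination of an oracle in P
-/

namespace Pool.Agent.H622R3.SM

open Pool.Agent.NPC Pool.Agent.NPC.ER Pool.Agent.NPC.H612 Pool.Agent.H558R2

namespace TELIM

/-! ### Execution -/

theorem exec_append (P Q : List Instr) (ρ ρ₁ : Reg → ℝ) (l₁ : List ℝ)
    (h : exec P ρ = some (ρ₁, l₁)) :
    exec (P ++ Q) ρ = (exec Q ρ₁).map fun r => (r.1, l₁ ++ r.2) := by
  induction P generalizing ρ l₁ with
  | nil =>
    simp only [exec, Option.some.injEq, Prod.mk.injEq] at h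
    obtain ⟨rfl, rfl⟩ := h
    simp
  | cons I P ih =>
    simp only [exec, List.cons_append] at h ⊢
    split_ifs at h ⊢ with h1
    cases h2 : exec P (Function.update ρ I.dst (I.op.eval (ρ I.fst) (ρ I.snd))) with
    | none => rw [h2] at h; simp at h
    | some r =>
      rw [h2] at h
      simp only [Option.map_some, Option.some.injEq, Prod.mk.injEq] at h
      obtain ⟨h3, h4⟩ := h
      have h5 := ih (Function.update ρ I.dst (I.op.eval (ρ I.fst) (ρ I.snd))) r.2
        (by rw [h2, ← h3])
      rw [h5, Option.map_map]
      congr 1
      funext q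
      simp [← h4]

open Classical in
theorem run_mono (O : Set (List Bool)) (β : List Outcome → List Instr × Test) :
    ∀ (k : ℕ) (h : List Outcome) (ρ : Reg → ℝ) (x : Bool × List ℝ × ℕ),
      run O β k h ρ = some x → ∀ k', k ≤ k' → run O β k' h ρ = some x := by
  intro k
  induction k with
  | zero => intro h ρ x hx; simp [run] at hx
  | succ k ih =>
    intro h ρ x hx k' hk'
    obtain ⟨k', rfl⟩ : ∃ j, k' = j + 1 := ⟨k' - 1, by omega⟩
    rw [run] at hx ⊢
    cases h1 : exec (β h).1 ρ with
    | none => rw [h1] at hx; simp at hx
    | some r =>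
      rw [h1] at hx
      simp only [Option.bind_some] at hx ⊢
      cases h2 : (β h).2 with
      | answer a => rw [h2] at hx; exact hx
      | sign y =>
        rw [h2] at hx
        simp only at hx ⊢
        cases h3 : run O β k (h ++ [signOut (r.1 y)]) r.1 with
        | none => rw [h3] at hx; simp at hx
        | some z =>
          rw [h3] at hx
          rw [ih _ _ _ h3 k' (by omega)]
          exact hx
      | ask w =>
        rw [h2] at hx
        simp only at hx ⊢
        cases h3 : run O β k (h ++ [some (decide (w ∈ O))]) r.1 with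
        | none => rw [h3] at hx; simp at hx
        | some z =>
          rw [h3] at hx
          rw [ih _ _ _ h3 k' (by omega)]
          exact hx

/-! ### The simulation -/

/-- States: history of the given algorithm, instructions collected since the last sign test,
outcomes of the sign tests which are not used yet. -/
abbrev St : Type := List Outcome × List Instr × List Outcome

/-- One step of the simulation. -/
def step (d : List Bool → Bool) (β : List Outcome → List Instr × Test) (s : St) : St :=
  match (β s.1).2.code with
  | Sum.inl _ => match s.2.2.head? with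
    | none => s
    | some o => (s.1 ++ [o], [], s.2.2.tail)
  | Sum.inr c => match c with
    | Sum.inl w => (s.1 ++ [some (d w)], s.2.1 ++ (β s.1).1, s.2.2)
    | Sum.inr _ => s

/-- The block in the final state of the simulation. -/
def fin (β : List Outcome → List Instr × Test) (s : St) : List Instr × Test :=
  match (β s.1).2.code with
  | Sum.inl r => (s.2.1 ++ (β s.1).1, Test.sign r)
  | Sum.inr c => match c with
    | Sum.inl _ => ([], Test.answer false)
    | Sum.inr a => (s.2.1 ++ (β s.1).1, Test.answer a)

/-- The new controller. -/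
def sim (d : List Bool → Bool) (β : List Outcome → List Instr × Test) (N : ℕ)
    (h : List Outcome) : List Instr × Test :=
  fin β ((step d β)^[N] ([], [], h))

theorem sim_ne_ask (d : List Bool → Bool) (β : List Outcome → List Instr × Test) (N : ℕ)
    (h : List Outcome) (w : List Bool) : (sim d β N h).2 ≠ Test.ask w := by
  unfold sim fin
  split
  · simp
  · split <;> simp

theorem step_sign {d : List Bool → Bool} {β : List Outcome → List Instr × Test} {s : St}
    {r : Reg} (h : (β s.1).2 = Test.sign r) : step d β s = match s.2.2.head? with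
      | none => s
      | some o => (s.1 ++ [o], [], s.2.2.tail) := by
  unfold step
  rw [h]
  rfl

theorem step_ask {d : List Bool → Bool} {β : List Outcome → List Instr × Test} {s : St}
    {w : List Bool} (h : (β s.1).2 = Test.ask w) :
    step d β s = (s.1 ++ [some (d w)], s.2.1 ++ (β s.1).1, s.2.2) := by
  unfold step
  rw [h]
  rfl

theorem step_answer {d : List Bool → Bool} {β : List Outcome → List Instr × Test} {s : St}
    {a : Bool} (h : (β s.1).2 = Test.answer a) : step d β s = s := by
  unfold step
  rw [h]
  rfl

theorem iter_fix {α : Type} (f : α → α) (a : α) (h : f a = a) (n : ℕ) : f^[n] a = a :=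
  Function.iterate_fixed h n

open Classical in
theorem run_sim {d : List Bool → Bool} {β : List Outcome → List Instr × Test}
    {O : Set (List Bool)} (hd : ∀ w, d w = decide (w ∈ O)) {N : ℕ} :
    ∀ (k c : ℕ) (h h' : List Outcome) (acc : List Instr) (ρ₀ ρ : Reg → ℝ) (l₀ : List ℝ)
      (ans : Bool) (nums : List ℝ) (steps : ℕ), c + k ≤ N →
      exec acc ρ₀ = some (ρ, l₀) → run O β k h ρ = some (ans, nums, steps) →
      (∀ t, (step d β)^[c] ([], [], h' ++ t) = (h, acc, t)) → ∀ k', k ≤ k' →
      ∃ steps', run ∅ (sim d β N) k' h' ρ₀ = some (ans, l₀ ++ nums, steps') ∧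
        steps' ≤ l₀.length + steps := by
  intro k
  induction k with
  | zero => intro c h h' acc ρ₀ ρ l₀ ans nums steps _ _ hr; simp [run] at hr
  | succ k ih =>
    intro c h h' acc ρ₀ ρ l₀ ans nums steps hc hacc hr hst k' hk'
    obtain ⟨k', rfl⟩ : ∃ j, k' = j + 1 := ⟨k' - 1, by omega⟩
    rw [run] at hr
    cases h1 : exec (β h).1 ρ with
    | none => rw [h1] at hr; simp at hr
    | some r =>
      rw [h1] at hr
      simp only [Option.bind_some] at hr
      have hexec : exec (acc ++ (β h).1) ρ₀ = some (r.1, l₀ ++ r.2) := by
        rw [exec_append acc _ ρ₀ ρ l₀ hacc, h1]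
        rfl
      have hiter : (step d β)^[N] ([], [], h') = (step d β)^[N - c] (h, acc, []) := by
        have h2 := hst []
        rw [List.append_nil] at h2
        rw [← h2, ← Function.iterate_add_apply]
        congr 1
        omega
      cases h2 : (β h).2 with
      | answer a =>
        rw [h2] at hr
        simp only [Option.some.injEq, Prod.mk.injEq] at hr
        obtain ⟨rfl, rfl, rfl⟩ := hr
        have h3 : sim d β N h' = (acc ++ (β h).1, Test.answer a) := by
          unfold sim
          rw [hiter, iter_fix _ _ (step_answer (s := (h, acc, [])) h2)]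
          unfold fin
          rw [h2]
          rfl
        refine ⟨(l₀ ++ r.2).length, ?_, by simp⟩
        rw [run, h3]
        simp only
        rw [hexec]
        rfl
      | sign x =>
        rw [h2] at hr
        simp only at hr
        cases h3 : run O β k (h ++ [signOut (r.1 x)]) r.1 with
        | none => rw [h3] at hr; simp at hr
        | some z =>
          rw [h3] at hr
          obtain ⟨za, zn, zs⟩ := z
          simp only [Option.map_some, Option.some.injEq, Prod.mk.injEq] at hr
          obtain ⟨rfl, rfl, rfl⟩ := hr
          have h4 : sim d β N h' = (acc ++ (β h).1, Test.sign x) := by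
            unfold sim
            rw [hiter, iter_fix _ _ (step_sign (s := (h, acc, [])) h2)]
            unfold fin
            rw [h2]
            rfl
          obtain ⟨steps', h5, h6⟩ := ih (c + 1) (h ++ [signOut (r.1 x)])
            (h' ++ [signOut (r.1 x)]) [] r.1 r.1 [] za zn zs (by omega) rfl h3 (by
              intro t
              rw [Function.iterate_succ_apply', List.append_assoc, hst,
                step_sign (s := (h, acc, [signOut (r.1 x)] ++ t)) h2]
              rfl) k' (by omega)
          refine ⟨(l₀ ++ r.2).length + 1 + steps', ?_, ?_⟩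
          · rw [run, h4]
            simp only
            rw [hexec]
            simp only [Option.bind_some]
            rw [h5]
            simp
          · simp only [List.length_append, List.length_nil] at h6 ⊢
            omega
      | ask w =>
        rw [h2] at hr
        simp only at hr
        cases h3 : run O β k (h ++ [some (decide (w ∈ O))]) r.1 with
        | none => rw [h3] at hr; simp at hr
        | some z =>
          rw [h3] at hr
          obtain ⟨za, zn, zs⟩ := z
          simp only [Option.map_some, Option.some.injEq, Prod.mk.injEq] at hr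
          obtain ⟨rfl, rfl, rfl⟩ := hr
          obtain ⟨steps', h5, h6⟩ := ih (c + 1) (h ++ [some (decide (w ∈ O))]) h'
            (acc ++ (β h).1) ρ₀ r.1 (l₀ ++ r.2) za zn zs (by omega) hexec h3 (by
              intro t
              rw [Function.iterate_succ_apply', hst, step_ask (s := (h, acc, t)) h2, hd])
              (k' + 1) (by omega)
          refine ⟨steps', ?_, ?_⟩
          · rw [h5]
            simp
          · simp only [List.length_append] at h6 ⊢
            omega

/-! ### Polynomial time -/

theorem sz_outcome_le (o : Outcome) : sz o ≤ 5 := by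
  rcases o with _ | b
  · simp
  · have := sz_bool_le b
    simp only [sz_some]
    omega

theorem poly_code {α : Type} [TEnc α] {t : α → Test} (h : Poly t) : Poly (fun a => (t a).code) := h

theorem poly_sign {α : Type} [TEnc α] {r : α → Reg} (h : Poly r) :
    Poly (fun a => Test.sign (r a)) := by
  have h1 : Poly (fun a => (Sum.inl (r a) : Reg ⊕ (List Bool ⊕ Bool))) := Poly.inl h
  exact h1

theorem poly_answer {α : Type} [TEnc α] {b : α → Bool} (h : Poly b) :
    Poly (fun a => Test.answer (b a)) := by
  have h1 : Poly (fun a => (Sum.inr (Sum.inr (b a)) : Reg ⊕ (List Bool ⊕ Bool))) :=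
    Poly.inr (Poly.inr h)
  exact h1

theorem sz_fst_le (P : List Instr) (t : Test) : sz P ≤ sz (P, t) := by
  rw [sz_pair]; omega

/-- bounds for the states -/
theorem sz_step {d : List Bool → Bool} {β : List Outcome → List Instr × Test} {B : ℕ → ℕ}
    (hB : ∀ h, sz (β h).1 ≤ B (sz h)) (hmono : Monotone B) (h' : List Outcome) :
    ∀ k : ℕ, sz ((step d β)^[k] ([], [], h')).1 ≤ 6 * k + 1 ∧
      sz ((step d β)^[k] ([], [], h')).2.1 ≤ k * B (6 * k + 1) + 1 ∧
      sz ((step d β)^[k] ([], [], h')).2.2 ≤ sz h' := by
  intro k
  induction k with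
  | zero => simp
  | succ k ih =>
    rw [Function.iterate_succ_apply']
    set s := (step d β)^[k] ([], [], h') with hs
    obtain ⟨h1, h2, h3⟩ := ih
    have hBm : B (6 * k + 1) ≤ B (6 * (k + 1) + 1) := hmono (by omega)
    have hB2 : k * B (6 * k + 1) + 1 + B (6 * k + 1) ≤ (k + 1) * B (6 * (k + 1) + 1) + 1 := by
      have := Nat.mul_le_mul_left (k + 1) hBm
      rw [Nat.succ_mul] at this
      omega
    cases h4 : (β s.1).2 with
    | answer a =>
      rw [step_answer h4]
      exact ⟨by omega, by omega, h3⟩
    | ask w =>
      rw [step_ask h4]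
      simp only
      refine ⟨?_, ?_, h3⟩
      · have h5 := sz_append s.1 [some (d w)]
        have h6 := sz_outcome_le (some (d w))
        simp only [sz_list_cons, sz_list_nil] at h5
        omega
      · have h5 := sz_append s.2.1 (β s.1).1
        have h6 := hB s.1
        have h7 : B (sz s.1) ≤ B (6 * k + 1) := hmono h1
        omega
    | sign r =>
      rw [step_sign h4]
      cases h5 : s.2.2.head? with
      | none => exact ⟨by simp only; omega, by simp only; omega, h3⟩
      | some o =>
        simp only
        refine ⟨?_, by simp, ?_⟩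
        · have h6 := sz_append s.1 [o]
          have h7 := sz_outcome_le o
          simp only [sz_list_cons, sz_list_nil] at h6
          omega
        · refine le_trans ?_ h3
          rcases s.2.2 with _ | ⟨a, l⟩
          · simp
          · simp only [List.tail_cons, sz_list_cons]
            omega

theorem poly_sim {α : Alg} (hα : Poly (fun p : HistIn => α p.1.1.length p.1.2.length p.2))
    {d : List Bool → Bool} (hd : Poly d) (q : Polynomial ℕ) :
    Poly (fun p : HistIn => sim d (α p.1.1.length p.1.2.length)
      (q.eval (p.1.1.length + p.1.2.length)) p.2) := by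
  -- the block of the given algorithm in a state
  have hblock : Poly (fun p : HistIn × St => α p.1.1.1.length p.1.1.2.length p.2.1) :=
    Poly.comp (g := fun p : HistIn => α p.1.1.length p.1.2.length p.2)
      (f := fun p : HistIn × St => ((p.1.1, p.2.1) : HistIn)) hα
      (Poly.pair (Poly.fst (Poly.fst Poly.id)) (Poly.fst (Poly.snd Poly.id)))
  have hs1 : Poly (fun p : HistIn × St => p.2.1) := Poly.fst (Poly.snd Poly.id)
  have hs2 : Poly (fun p : HistIn × St => p.2.2.1) := Poly.fst (Poly.snd (Poly.snd Poly.id))
  have hs3 : Poly (fun p : HistIn × St => p.2.2.2) := Poly.snd (Poly.snd (Poly.snd Poly.id))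
  have hstep : Poly (fun p : HistIn × St => step d (α p.1.1.1.length p.1.1.2.length) p.2) := by
    refine Poly.congr (Poly.sumCases
      (g := fun (p : HistIn × St) (_ : Reg) => (match p.2.2.2.head? with
        | none => p.2
        | some o => (p.2.1 ++ [o], [], p.2.2.2.tail) : St))
      (h := fun (p : HistIn × St) (c : List Bool ⊕ Bool) => (match c with
        | Sum.inl w => (p.2.1 ++ [some (d w)], p.2.2.1 ++ (α p.1.1.1.length p.1.1.2.length p.2.1).1,
            p.2.2.2)
        | Sum.inr _ => p.2 : St))
      (poly_code (Poly.snd hblock)) ?_ ?_) fun p => ?_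
    · refine Poly.congr (Poly.optCases (g := fun (p : (HistIn × St) × Reg) => p.1.2)
        (h := fun (p : (HistIn × St) × Reg) (o : Outcome) =>
          ((p.1.2.1 ++ [o], [], p.1.2.2.2.tail) : St)) (Poly.head? (hs3.comp (Poly.fst Poly.id)))
          (Poly.snd (Poly.fst Poly.id)) ?_)
          (fun p => by cases p.1.2.2.2.head? <;> rfl)
      exact Poly.pair (Poly.append (hs1.comp (Poly.fst (Poly.fst Poly.id)))
        (Poly.cons (Poly.snd Poly.id) (NPC.Poly.const [])))
        (Poly.pair (NPC.Poly.const []) (Poly.tail (hs3.comp (Poly.fst (Poly.fst Poly.id)))))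
    · refine Poly.congr (Poly.sumCases (o := fun p : (HistIn × St) × (List Bool ⊕ Bool) => p.2)
        (g := fun (p : (HistIn × St) × (List Bool ⊕ Bool)) (w : List Bool) =>
          ((p.1.2.1 ++ [some (d w)], p.1.2.2.1 ++
            (α p.1.1.1.1.length p.1.1.1.2.length p.1.2.1).1, p.1.2.2.2) : St))
        (h := fun (p : (HistIn × St) × (List Bool ⊕ Bool)) (_ : Bool) => p.1.2)
        (Poly.snd Poly.id) ?_ ?_) (fun p => by cases p.2 <;> rfl)
      · exact Poly.pair (Poly.append (hs1.comp (Poly.fst (Poly.fst Poly.id)))
          (Poly.cons (Poly.some (hd.comp (Poly.snd Poly.id))) (NPC.Poly.const [])))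
          (Poly.pair (Poly.append (hs2.comp (Poly.fst (Poly.fst Poly.id)))
            (Poly.fst (hblock.comp (Poly.fst (Poly.fst Poly.id)))))
            (hs3.comp (Poly.fst (Poly.fst Poly.id))))
      · exact Poly.snd (Poly.fst (Poly.fst Poly.id))
    · unfold step
      cases (α p.1.1.1.length p.1.1.2.length p.2.1).2.code with
      | inl r => rfl
      | inr c => cases c <;> rfl
  have hu : UPoly (fun p : HistIn => q.eval (p.1.1.length + p.1.2.length)) :=
    UPoly.eval (UPoly.add (UPoly.length (Poly.fst (Poly.fst Poly.id)))
      (UPoly.length (Poly.snd (Poly.fst Poly.id)))) q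
  obtain ⟨b, hb⟩ := hα.sz_le
  obtain ⟨c, hc⟩ := Poly.sz_le hu
  have hiter : Poly (fun p : HistIn => (step d (α p.1.1.length p.1.2.length))^[
      q.eval (p.1.1.length + p.1.2.length)] (([], [], p.2) : St)) := by
    refine (Poly.iterLen (l := fun p : HistIn => List.replicate
      (q.eval (p.1.1.length + p.1.2.length)) ()) (s := fun p : HistIn => (([], [], p.2) : St))
      (F := fun p s => step d (α p.1.1.length p.1.2.length) s) hu
      (Poly.pair (NPC.Poly.const []) (Poly.pair (NPC.Poly.const []) (Poly.snd Poly.id))) hstep
      (6 * c + 1 + (c * b.comp (6 * c + 2 + Polynomial.X) + 1) + Polynomial.X + 2)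
      ?_).congr fun p => ?_
    · intro p k hk
      rw [List.length_replicate] at hk
      have h1 := sz_step (d := d) (β := α p.1.1.length p.1.2.length)
        (B := fun x => b.eval (sz p.1 + x + 1)) (fun h => by
          have h2 := hb (p.1, h)
          simp only [sz_pair p.1 h] at h2
          exact (sz_fst_le _ _).trans h2) (fun x y hxy => eval_mono b (by omega)) p.2 k
      obtain ⟨h2, h3, h4⟩ := h1
      have h5 := hc p
      beta_reduce at h5
      have h6 := length_lt_sz (List.replicate (q.eval (p.1.1.length + p.1.2.length)) ())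
      rw [List.length_replicate] at h6
      have hkc : k ≤ c.eval (sz p) := by omega
      have hszp : sz p = sz p.1 + sz p.2 + 1 := by
        rw [← sz_pair]
      set s := (step d (α p.1.1.length p.1.2.length))^[k] ([], [], p.2) with hs
      have h7 : sz s = sz s.1 + (sz s.2.1 + sz s.2.2 + 1) + 1 := by
        rw [← sz_pair, ← sz_pair]
      have h8 : b.eval (sz p.1 + (6 * k + 1) + 1) ≤ b.eval (6 * c.eval (sz p) + 2 + sz p) :=
        eval_mono b (by omega)
      have h9 : k * b.eval (sz p.1 + (6 * k + 1) + 1) ≤
          c.eval (sz p) * b.eval (6 * c.eval (sz p) + 2 + sz p) := Nat.mul_le_mul hkc h8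
      simp only [Polynomial.eval_add, Polynomial.eval_mul, Polynomial.eval_comp, Polynomial.eval_X,
        Polynomial.eval_ofNat, Polynomial.eval_one]
      rw [h7]
      omega
    · beta_reduce
      rw [List.length_replicate]
  have hst : Poly (fun p : HistIn => (p, (step d (α p.1.1.length p.1.2.length))^[
      q.eval (p.1.1.length + p.1.2.length)] (([], [], p.2) : St))) := Poly.pair Poly.id hiter
  have hfin : Poly (fun p : HistIn × St => fin (α p.1.1.1.length p.1.1.2.length) p.2) := by
    refine Poly.congr (Poly.sumCases
      (g := fun (p : HistIn × St) (r : Reg) =>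
        ((p.2.2.1 ++ (α p.1.1.1.length p.1.1.2.length p.2.1).1, Test.sign r) : List Instr × Test))
      (h := fun (p : HistIn × St) (c : List Bool ⊕ Bool) => (match c with
        | Sum.inl _ => ([], Test.answer false)
        | Sum.inr a => (p.2.2.1 ++ (α p.1.1.1.length p.1.1.2.length p.2.1).1, Test.answer a) :
          List Instr × Test))
      (poly_code (Poly.snd hblock)) ?_ ?_) fun p => ?_
    · exact Poly.pair (Poly.append (hs2.comp (Poly.fst Poly.id))
        (Poly.fst (hblock.comp (Poly.fst Poly.id)))) (poly_sign (Poly.snd Poly.id))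
    · refine Poly.congr (Poly.sumCases (o := fun p : (HistIn × St) × (List Bool ⊕ Bool) => p.2)
        (g := fun (_ : (HistIn × St) × (List Bool ⊕ Bool)) (_ : List Bool) =>
          (([], Test.answer false) : List Instr × Test))
        (h := fun (p : (HistIn × St) × (List Bool ⊕ Bool)) (a : Bool) =>
          ((p.1.2.2.1 ++ (α p.1.1.1.1.length p.1.1.1.2.length p.1.2.1).1, Test.answer a) :
            List Instr × Test))
        (Poly.snd Poly.id) (NPC.Poly.const _) ?_) (fun p => by cases p.2 <;> rfl)
      exact Poly.pair (Poly.append (hs2.comp (Poly.fst (Poly.fst Poly.id)))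
        (Poly.fst (hblock.comp (Poly.fst (Poly.fst Poly.id))))) (poly_answer (Poly.snd Poly.id))
    · unfold fin
      cases (α p.1.1.1.length p.1.1.2.length p.2.1).2.code with
      | inl r => rfl
      | inr c => cases c <;> rfl
  exact hfin.comp hst

end TELIM

open TELIM Classical in
theorem t_ELIM (h1 : S_COMP) (h2 : S_COMP') : S_ELIM := by
  intro α O hα hO hS
  obtain ⟨V, hV, hOV⟩ := hO
  obtain ⟨q, hq⟩ := hS
  have hVp : Poly V := H622R2.poly_of_polyTime hV
  set d : List Bool → Bool := fun w => decide (V w = [true]) with hd
  have hdp : Poly d := Poly.decide_eq hVp (NPC.Poly.const _)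
  have hdO : ∀ w, d w = decide (w ∈ O) := fun w => decide_eq_decide.2 (hOV w).symm
  have hαp : Poly (fun p : HistIn => α p.1.1.length p.1.2.length p.2) := h2 _ _ _ hα
  refine ⟨fun m n => sim d (α m n) (q.eval (m + n)), h1 _ _ _ (poly_sim hαp hdp q),
    fun m n h w => sim_ne_ask _ _ _ _ _, q, fun m n hm hn => ?_⟩
  obtain ⟨hA, hB⟩ := hq m n hm hn
  have key : ∀ (A : Matrix (Fin m) (Fin n) ℝ) (b : Fin m → ℝ), ∃ ans nums steps steps',
      run O (α m n) (q.eval (m + n)) [] (start A b) = some (ans, nums, steps) ∧
      run ∅ (sim d (α m n) (q.eval (m + n))) (q.eval (m + n)) [] (start A b) =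
        some (ans, nums, steps') ∧ (ans = true ↔ ∃ x : Fin n → ℝ, b ≤ A.mulVec x) ∧
      steps' ≤ q.eval (m + n) := by
    intro A b
    obtain ⟨ans, nums, steps, h3, h4, h5⟩ := hA A b
    obtain ⟨steps', h6, h7⟩ := run_sim (N := q.eval (m + n)) hdO (q.eval (m + n)) 0 [] [] [] (start A b) (start A b) []
      ans nums steps (by omega) rfl h3 (fun t => rfl) (q.eval (m + n)) le_rfl
    refine ⟨ans, nums, steps, steps', h3, ?_, h4, ?_⟩
    · simpa using h6
    · simp only [List.length_nil] at h7
      omega
  refine ⟨fun A b => ?_, fun A b k ans nums steps hrun => ?_⟩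
  · obtain ⟨ans, nums, steps, steps', -, h4, h5, h6⟩ := key A b
    exact ⟨ans, nums, steps', h4, h5, h6⟩
  · obtain ⟨ans', nums', steps', steps'', h3, h4, -, -⟩ :=
      key (fun i j => ((A i j : ℚ) : ℝ)) (fun i => ((b i : ℚ) : ℝ))
    have h5 := run_mono _ _ _ _ _ _ hrun (max k (q.eval (m + n))) (le_max_left _ _)
    have h6 := run_mono _ _ _ _ _ _ h4 (max k (q.eval (m + n))) (le_max_right _ _)
    rw [h5] at h6
    simp only [Option.some.injEq, Prod.mk.injEq] at h6
    rw [h6.2.1]
    exact hB A b _ _ _ _ h3

end Pool.Agent.H622R3.SM
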