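import Pool.Agent.H622R3.SM.Stm

set_option autoImplicit false

/-!
# Task ENC: every list of columns is described by some bits
-/

namespace Pool.Agent.H622R3.SM

open Pool.Agent.NPC Pool.Agent.NPC.ER Pool.Agent.NPC.H612 Pool.Agent.H558R2

namespace TENC

/-- The bit number `i` of the description of `β`. -/
def bitOf {m : ℕ} (L : ℕ) (β : Fin m → Option (Fin L)) (i : ℕ) : Bool :=
  if hi : i / L < m then decide ((β ⟨i / L, hi⟩).map Fin.val = some (i % L)) else false

theorem bitOf_eq {m L : ℕ} (β : Fin m → Option (Fin L)) (j : Fin m) {k : ℕ} (hk : k < L) :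
    bitOf L β ((j : ℕ) * L + k) = decide ((β j).map Fin.val = some k) := by
  have hL : 0 < L := by omega
  have h1 : ((j : ℕ) * L + k) / L = j := by
    rw [add_comm, Nat.add_mul_div_right _ _ hL, Nat.div_eq_of_lt hk, zero_add]
  have h2 : ((j : ℕ) * L + k) % L = k := by
    rw [add_comm, Nat.add_mul_mod_self_right, Nat.mod_eq_of_lt hk]
  have h3 : ((j : ℕ) * L + k) / L < m := by rw [h1]; exact j.2
  unfold bitOf
  rw [dif_pos h3, h2]
  have h4 : (⟨((j : ℕ) * L + k) / L, h3⟩ : Fin m) = j := Fin.ext h1
  rw [h4]

/-- Reading a bit of the description inside a history. -/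
theorem getD_desc (h t : List Outcome) (g : ℕ → Bool) (N p : ℕ) (hp : p < N) :
    (h ++ (((List.range N).map g).map some ++ t)).getD (h.length + p) none = some (g p) := by
  rw [List.getD_eq_getElem?_getD, List.getElem?_append_right (by omega)]
  rw [List.getElem?_append_left (by simpa using hp)]
  simp [hp]

theorem lt_block {m L j k : ℕ} (hj : j < m) (hk : k < L) : j * L + k < m * L :=
  calc j * L + k < j * L + L := by omega
    _ = (j + 1) * L := by ring
    _ ≤ m * L := Nat.mul_le_mul_right L (by omega)

theorem colOf_eq (m n : ℕ) (β : Fin m → Option (Fin (m + (n + n)))) (h t : List Outcome) (q : ℕ)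
    (hq : h.length = q * (ell m n + 1)) (j : Fin m) :
    colOf m n (h ++ (((List.range (ell m n)).map (bitOf (m + (n + n)) β)).map some ++ t)) q j =
      ((β j).map Fin.val).getD (m + (n + n)) := by
  unfold colOf
  rw [List.head?_filter, ← hq]
  have key : ∀ k, k < m + (n + n) →
      (h ++ (((List.range (ell m n)).map (bitOf (m + (n + n)) β)).map some ++ t)).getD
        (h.length + (j : ℕ) * (m + (n + n)) + k) none = some (decide ((β j).map Fin.val = some k)) := by
    intro k hk
    rw [← bitOf_eq β j hk, add_assoc]
    exact getD_desc h t _ _ _ (lt_block j.2 hk)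
  rcases hb : β j with _ | k0
  · have : (List.range (m + (n + n))).find? (fun k => decide
        ((h ++ (((List.range (ell m n)).map (bitOf (m + (n + n)) β)).map some ++ t)).getD
        (h.length + (j : ℕ) * (m + (n + n)) + k) none = some true)) = none := by
      rw [List.find?_eq_none]
      intro k hk
      rw [List.mem_range] at hk
      rw [key k hk, hb]
      simp
    rw [this]
    rfl
  · have : (List.range (m + (n + n))).find? (fun k => decide
        ((h ++ (((List.range (ell m n)).map (bitOf (m + (n + n)) β)).map some ++ t)).getD
        (h.length + (j : ℕ) * (m + (n + n)) + k) none = some true)) = some (k0 : ℕ) := by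
      rw [List.find?_range_eq_some]
      refine ⟨?_, ?_, ?_⟩
      · rw [key k0 k0.2, hb]
        simp
      · rw [List.mem_range]
        exact k0.2
      · intro i hi
        have := k0.2
        rw [key i (by omega), hb]
        simp
        omega
    rw [this]
    rfl

end TENC

open TENC in
theorem t_ENC : S_ENC := by
  intro m n β
  refine ⟨(List.range (ell m n)).map (bitOf (m + (n + n)) β), by simp, ?_⟩
  intro h t q hq
  funext j
  have hc := colOf_eq m n β h t q hq j
  unfold beta
  rcases hb : β j with _ | k0
  · rw [hb] at hc
    have h1 : ¬ colOf m n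
        (h ++ (((List.range (ell m n)).map (bitOf (m + (n + n)) β)).map some ++ t)) q j <
          m + (n + n) := by
      rw [hc]
      simp
    rw [dif_neg h1]
  · rw [hb] at hc
    have h1 : colOf m n
        (h ++ (((List.range (ell m n)).map (bitOf (m + (n + n)) β)).map some ++ t)) q j =
          (k0 : ℕ) := by
      rw [hc]
      rfl
    have h2 : colOf m n
        (h ++ (((List.range (ell m n)).map (bitOf (m + (n + n)) β)).map some ++ t)) q j <
          m + (n + n) := by
      rw [h1]
      exact k0.2
    rw [dif_pos h2]
    congr 1
    exact Fin.ext h1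

end Pool.Agent.H622R3.SM
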