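import Pool.Agent.H622R3.SM.Stm

set_option autoImplicit false

/-!
# The intended values satisfy the equations of the program
-/

namespace Pool.Agent.H622R3.SM

open Pool.Agent.NPC Pool.Agent.NPC.ER Pool.Agent.NPC.H612 Pool.Agent.H558R2

namespace TEQ

variable {m n : ℕ}

/-- The equation of the instruction `I` holds for the values `V`. -/
def Good (V : Reg → ℝ) (I : Instr) : Prop :=
  V I.dst = I.op.eval (V I.fst) (V I.snd) ∧ (I.op = Op.div → V I.snd ≠ 0)

lemma ent_mk (M : Matrix (Fin m) (Fin m) ℝ) (i j : ℕ) (hi : i < m) (hj : j < m) :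
    ent M i j = M ⟨i, hi⟩ ⟨j, hj⟩ := by
  unfold ent
  rw [dif_pos ⟨hi, hj⟩]

lemma ent_fin (M : Matrix (Fin m) (Fin m) ℝ) (i j : Fin m) : ent M i j = M i j := by
  rw [ent_mk M i j i.2 j.2]

lemma ent_mul (A B : Matrix (Fin m) (Fin m) ℝ) (i j : ℕ) (hi : i < m) (hj : j < m) :
    ∑ l ∈ Finset.range m, ent A i l * ent B l j = (A * B) ⟨i, hi⟩ ⟨j, hj⟩ := by
  rw [Finset.sum_range, Matrix.mul_apply]
  refine Finset.sum_congr rfl fun l _ => ?_
  rw [ent_mk A i l hi l.2, ent_mk B l j l.2 hj]

lemma sum_trace (A B : Matrix (Fin m) (Fin m) ℝ) :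
    ∑ i ∈ Finset.range m, ∑ l ∈ Finset.range m, ent A i l * ent B l i =
      Matrix.trace (A * B) := by
  rw [Finset.sum_range]
  unfold Matrix.trace
  refine Finset.sum_congr rfl fun i _ => ?_
  rw [ent_mul A B i i i.2 i.2]
  rfl

section

variable (h : List Outcome) (q : ℕ) (a : Inp m n)

lemma v2 : vreg m n h q a [2] = 1 := rfl
lemma v3 : vreg m n h q a [3] = 0 := rfl
lemma v0 (i j : ℕ) (hi : i < m) (hj : j < n) :
    vreg m n h q a [0, i, j] = a.1 ⟨i, hi⟩ ⟨j, hj⟩ := by
  have e : vreg m n h q a [0, i, j] =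
    if h : i < m ∧ j < n then a.1 ⟨i, h.1⟩ ⟨j, h.2⟩ else 0 := rfl
  rw [e, dif_pos ⟨hi, hj⟩]
lemma v1 (i : ℕ) (hi : i < m) : vreg m n h q a [1, i] = a.2 ⟨i, hi⟩ := by
  have e : vreg m n h q a [1, i] = if h : i < m then a.2 ⟨i, h⟩ else 0 := rfl
  rw [e, dif_pos hi]
lemma v4 (i j : ℕ) : vreg m n h q a [4, i, j] = ent (EM m n h q a) i j := rfl
lemma v5 (k : ℕ) : vreg m n h q a [5, k] = (k : ℝ) := rfl
lemma v6 (k i j : ℕ) : vreg m n h q a [6, k, i, j] = ent (flN (EM m n h q a) k) i j := rfl
lemma v7 (k i j l : ℕ) : vreg m n h q a [7, k, i, j, l] =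
    ent (EM m n h q a) i l * ent (flN (EM m n h q a) k) l j := rfl
lemma v8 (k i j l : ℕ) : vreg m n h q a [8, k, i, j, l] = ∑ l' ∈ Finset.range l,
    ent (EM m n h q a) i l' * ent (flN (EM m n h q a) k) l' j := rfl
lemma v9 (k i : ℕ) : vreg m n h q a [9, k, i] = ∑ i' ∈ Finset.range i, ∑ l ∈ Finset.range m,
    ent (EM m n h q a) i' l * ent (flN (EM m n h q a) k) l i' := rfl
lemma v10 (k : ℕ) : vreg m n h q a [10, k] =
    (∑ i ∈ Finset.range m, ∑ l ∈ Finset.range m,
      ent (EM m n h q a) i l * ent (flN (EM m n h q a) k) l i) / ((k : ℝ) + 1) := rfl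
lemma v11 : vreg m n h q a [11] = dd (wmat a.1 a.2) (beta m n h q) := rfl

lemma base (r : Reg) (hr : r ∈ baseReg) : vreg m n h q a r = start a.1 a.2 r := by
  have hr' : r.headD 0 < 4 := hr
  unfold vreg
  split <;> first | rfl | (exfalso; simp at hr')

/-! ### Entries of the matrix `E` -/

lemma EM_apply (i j : Fin m) :
    EM m n h q a i j = - wmat a.1 a.2 i (beta m n h q j) := rfl

lemma symm_lo (c : ℕ) (hc : c < m) (hc' : c < m + (n + n)) :
    (colEquiv m n).symm ⟨c, hc'⟩ = Sum.inl ⟨c, hc⟩ := by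
  rw [Equiv.symm_apply_eq]
  apply Fin.ext
  simp [colEquiv]

lemma symm_mid (c : ℕ) (hc : ¬ c < m) (hc1 : c - m < n) (hc' : c < m + (n + n)) :
    (colEquiv m n).symm ⟨c, hc'⟩ = Sum.inr (Sum.inl ⟨c - m, hc1⟩) := by
  rw [Equiv.symm_apply_eq]
  apply Fin.ext
  simp [colEquiv]
  omega

lemma symm_hi (c : ℕ) (hc : ¬ c < m + n) (hc1 : c - m - n < n) (hc' : c < m + (n + n)) :
    (colEquiv m n).symm ⟨c, hc'⟩ = Sum.inr (Sum.inr ⟨c - m - n, hc1⟩) := by
  rw [Equiv.symm_apply_eq]
  apply Fin.ext
  simp [colEquiv]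
  omega

lemma good_entry (i j : ℕ) (hi : i < m) (hj : j < m) :
    Good (vreg m n h q a) (entryInstr m n h q i j) := by
  have hE : ent (EM m n h q a) i j =
      - wmat a.1 a.2 ⟨i, hi⟩ (beta m n h q ⟨j, hj⟩) := by
    rw [ent_mk _ _ _ hi hj, EM_apply]
  have hb : beta m n h q ⟨j, hj⟩ = if hk : colOf m n h q j < m + (n + n) then
      some ⟨colOf m n h q j, hk⟩ else none := rfl
  unfold entryInstr
  by_cases h1 : colOf m n h q j < m
  · have h3 : colOf m n h q j < m + (n + n) := by omega
    rw [if_pos h1]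
    rw [dif_pos h3] at hb
    have hE2 : ent (EM m n h q a) i j = - (if i = colOf m n h q j then 1 else 0) := by
      rw [hE, hb]
      unfold wmat
      simp only
      rw [symm_lo _ h1 h3]
      simp only [colEntry, Fin.mk.injEq]
    by_cases h2 : i = colOf m n h q j
    · rw [if_pos h2]
      refine ⟨?_, by simp⟩
      simp only [Op.eval]
      rw [v4, v3, v2, hE2, if_pos h2]
      norm_num
    · rw [if_neg h2]
      refine ⟨?_, by simp⟩
      simp only [Op.eval]
      rw [v4, v3, hE2, if_neg h2]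
      norm_num
  · rw [if_neg h1]
    by_cases h2 : colOf m n h q j < m + n
    · have h3 : colOf m n h q j < m + (n + n) := by omega
      have h4 : colOf m n h q j - m < n := by omega
      rw [if_pos h2]
      rw [dif_pos h3] at hb
      refine ⟨?_, by simp⟩
      simp only [Op.eval]
      rw [v4, v3, v0 h q a _ _ hi h4, hE, hb]
      unfold wmat
      simp only
      rw [symm_mid _ h1 h4 h3]
      simp only [colEntry]
      ring
    · rw [if_neg h2]
      by_cases h3 : colOf m n h q j < m + (n + n)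
      · have h4 : colOf m n h q j - m - n < n := by omega
        rw [if_pos h3]
        rw [dif_pos h3] at hb
        refine ⟨?_, by simp⟩
        simp only [Op.eval]
        rw [v4, v3, v0 h q a _ _ hi h4, hE, hb]
        unfold wmat
        simp only
        rw [symm_hi _ h2 h4 h3]
        simp only [colEntry]
        ring
      · rw [if_neg h3]
        rw [dif_neg h3] at hb
        refine ⟨?_, by simp⟩
        simp only [Op.eval]
        rw [v4, v3, v1 h q a _ hi, hE, hb]
        unfold wmat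
        simp only
        ring

/-! ### The other instructions -/

lemma good_entryProg : ∀ I ∈ entryProg m n h q, Good (vreg m n h q a) I := by
  intro I hI
  unfold entryProg at hI
  simp only [List.mem_flatMap, List.mem_map, List.mem_range] at hI
  obtain ⟨i, hi, j, hj, rfl⟩ := hI
  exact good_entry h q a i j hi hj

lemma good_initProg : ∀ I ∈ initProg m, Good (vreg m n h q a) I := by
  intro I hI
  unfold initProg at hI
  simp only [List.mem_cons, List.mem_flatMap, List.mem_map, List.mem_range] at hI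
  rcases hI with rfl | ⟨i, hi, j, hj, rfl⟩
  · refine ⟨?_, by simp⟩
    simp only [Op.eval]
    rw [v5, v3]
    simp
  · refine ⟨?_, by simp⟩
    simp only [Op.eval]
    rw [v6, v3, ent_mk _ _ _ hi hj]
    have e : flN (EM m n h q a) 0 = 1 := rfl
    rw [e, Matrix.one_apply]
    by_cases hij : i = j
    · subst hij
      rw [if_pos rfl, if_pos rfl, v2]
      norm_num
    · rw [if_neg hij, if_neg (by simpa using hij), v3]
      norm_num

lemma good_prodProg (k : ℕ) : ∀ I ∈ prodProg m k, Good (vreg m n h q a) I := by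
  intro I hI
  unfold prodProg at hI
  simp only [List.mem_cons, List.mem_flatMap, List.mem_range, List.not_mem_nil, or_false] at hI
  obtain ⟨i, hi, j, hj, rfl | ⟨l, hl, rfl | rfl⟩⟩ := hI
  · refine ⟨?_, by simp⟩
    simp only [Op.eval]
    rw [v8, v3]
    simp
  · refine ⟨?_, by simp⟩
    simp only [Op.eval]
    rw [v7, v4, v6]
  · refine ⟨?_, by simp⟩
    simp only [Op.eval]
    rw [v8, v8, v7, Finset.sum_range_succ]

lemma good_traceProg (k : ℕ) : ∀ I ∈ traceProg m k, Good (vreg m n h q a) I := by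
  intro I hI
  unfold traceProg at hI
  simp only [List.mem_cons, List.mem_append, List.mem_map, List.mem_range, List.not_mem_nil,
    or_false, List.cons_append] at hI
  rcases hI with rfl | ⟨i, hi, rfl⟩ | rfl | rfl
  · refine ⟨?_, by simp⟩
    simp only [Op.eval]
    rw [v9, v3]
    simp
  · refine ⟨?_, by simp⟩
    simp only [Op.eval]
    rw [v9, v9, v8, Finset.sum_range_succ]
  · refine ⟨?_, by simp⟩
    simp only [Op.eval]
    rw [v5, v5, v2]
    push_cast
    ring
  · refine ⟨?_, fun _ => ?_⟩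
    · simp only [Op.eval]
      rw [v10, v9, v5]
      push_cast
      rfl
    · simp only
      rw [v5]
      positivity

lemma good_nextProg (k : ℕ) : ∀ I ∈ nextProg m k, Good (vreg m n h q a) I := by
  intro I hI
  unfold nextProg at hI
  simp only [List.mem_flatMap, List.mem_map, List.mem_range] at hI
  obtain ⟨i, hi, j, hj, rfl⟩ := hI
  refine ⟨?_, by simp⟩
  simp only [Op.eval]
  rw [v6, v8, ent_mk _ _ _ hi hj, ent_mul _ _ i j hi hj]
  have e : flN (EM m n h q a) (k + 1) = EM m n h q a * flN (EM m n h q a) k -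
      (Matrix.trace (EM m n h q a * flN (EM m n h q a) k) / ((k : ℝ) + 1)) • 1 := rfl
  rw [e, Matrix.sub_apply, Matrix.smul_apply, smul_eq_mul, Matrix.one_apply]
  by_cases hij : i = j
  · subst hij
    rw [if_pos rfl, if_pos rfl, v10, sum_trace]
    ring
  · rw [if_neg hij, if_neg (by simpa using hij), v3]
    ring

lemma good_last (hm : 1 ≤ m) :
    Good (vreg m n h q a) ⟨Op.sub, [11], [3], [10, m - 1]⟩ := by
  refine ⟨?_, by simp⟩
  simp only [Op.eval]
  rw [v11, v3, v10, sum_trace]
  have h1 := det_eq_flN (- EM m n h q a) hm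
  rw [neg_neg] at h1
  have h2 : (- EM m n h q a) = Matrix.of fun i j => wmat a.1 a.2 i (beta m n h q j) := by
    ext i j
    rw [Matrix.neg_apply, EM_apply, neg_neg]
    rfl
  unfold dd
  rw [← h2, ← h1, zero_sub]
  congr 2
  have h3 : (((m - 1 : ℕ) : ℝ) + 1) = ((m - 1 + 1 : ℕ) : ℝ) := by push_cast; ring
  rw [h3]
  congr 1
  omega

lemma good_minorProg (hm : 1 ≤ m) : ∀ I ∈ minorProg m n h q, Good (vreg m n h q a) I := by
  intro I hI
  unfold minorProg at hI
  simp only [List.mem_append, List.mem_flatMap, List.mem_range, List.mem_singleton] at hI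
  rcases hI with hI | hI | ⟨k, hk, hI | hI | hI⟩ | rfl
  · exact good_entryProg h q a I hI
  · exact good_initProg h q a I hI
  · exact good_prodProg h q a k I hI
  · exact good_traceProg h q a k I hI
  · exact good_nextProg h q a k I hI
  · exact good_last h q a hm

end

end TEQ

/-- The intended values satisfy all equations of the program. -/
theorem t_EQ : S_EQ := fun _ _ h q a hm =>
  ⟨fun r hr => TEQ.base h q a r hr, fun I hI => TEQ.good_minorProg h q a hm I hI⟩

end Pool.Agent.H622R3.SM
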