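import Pool.Agent.H622R3.SM.Stm

set_option autoImplicit false

/-!
# Execution of a well ordered program
-/

namespace Pool.Agent.H622R3.SM

open Pool.Agent.NPC Pool.Agent.NPC.ER Pool.Agent.NPC.H612 Pool.Agent.H558R2

theorem t_EXEC : S_EXEC := by
  intro S P V
  induction P generalizing S with
  | nil =>
    intro ρ _ hS _
    exact ⟨ρ, rfl, hS, fun I hI => absurd hI List.not_mem_nil⟩
  | cons I P ih =>
    intro ρ hO hS hV
    obtain ⟨h1, h2, h3, h4⟩ := hO
    obtain ⟨hI, hdiv⟩ := hV I List.mem_cons_self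
    have hval : I.op.eval (ρ I.fst) (ρ I.snd) = V I.dst := by
      rw [hS _ h1, hS _ h2, hI]
    have hS' : ∀ r ∈ insert I.dst S, Function.update ρ I.dst (V I.dst) r = V r := by
      intro r hr
      rcases Set.mem_insert_iff.1 hr with rfl | hr
      · rw [Function.update_self]
      · have hne : r ≠ I.dst := fun h => h3 (h ▸ hr)
        rw [Function.update_of_ne hne]
        exact hS r hr
    obtain ⟨ρ', e1, e2, e3⟩ := ih (insert I.dst S) (Function.update ρ I.dst (V I.dst)) h4 hS'
      (fun J hJ => hV J (List.mem_cons_of_mem _ hJ))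
    refine ⟨ρ', ?_, fun r hr => e2 r (Set.mem_insert_of_mem _ hr), ?_⟩
    · have hno : ¬ (I.op = Op.div ∧ ρ I.snd = 0) := by
        rintro ⟨ha, hb⟩
        rw [hS _ h2] at hb
        exact hdiv ha hb
      rw [exec, if_neg hno, hval, e1]
      rfl
    · intro J hJ
      rcases List.mem_cons.1 hJ with rfl | hJ
      · exact e2 _ (Set.mem_insert _ _)
      · exact e3 J hJ

end Pool.Agent.H622R3.SM
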