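import Pool.Agent.H622R3.SM.Stm
import Pool.Agent.H575R2.Farkas

set_option autoImplicit false

namespace Pool.Agent.H622R3.SM

open Pool.Agent.H558R2

namespace TFARKAS

/-- the linear form `(x, s) ↦ s b_i - (A x)_i`, and `- s` for the last index -/
noncomputable def L {m n : ℕ} (a : Inp m n) (i : Fin (m + 1)) : ((Fin n → ℝ) × ℝ) →ₗ[ℝ] ℝ :=
  Fin.lastCases (-LinearMap.snd ℝ _ _) (fun i => (a.2 i) • LinearMap.snd ℝ _ _ -
    (∑ c, a.1 i c • LinearMap.proj c).comp (LinearMap.fst ℝ _ _)) i

theorem L_last {m n : ℕ} (a : Inp m n) (x : (Fin n → ℝ) × ℝ) : L a (Fin.last m) x = -x.2 := by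
  simp [L]

theorem L_cast {m n : ℕ} (a : Inp m n) (i : Fin m) (x : (Fin n → ℝ) × ℝ) :
    L a i.castSucc x = a.2 i * x.2 - ∑ c, a.1 i c * x.1 c := by
  simp [L]

end TFARKAS

open TFARKAS

theorem t_FARKAS : S_FARKAS := by
  intro m n a
  constructor
  · intro hnf
    obtain ⟨w, hw, hf⟩ := H575R2.farkas_lin (m + 1) (L a) (LinearMap.snd ℝ _ _) (by
      intro x hx
      by_contra hs
      push Not at hs
      have hs' : (0 : ℝ) < x.2 := hs
      apply hnf
      refine ⟨fun c => x.1 c / x.2, fun i => ?_⟩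
      have h1 := hx i.castSucc
      rw [L_cast] at h1
      have h2 : ∑ c, a.1 i c * (x.1 c / x.2) = (∑ c, a.1 i c * x.1 c) / x.2 := by
        rw [Finset.sum_div]
        exact Finset.sum_congr rfl fun c _ => by ring
      rw [h2, le_div_iff₀ hs']
      linarith)
    refine ⟨fun i => w i.castSucc, fun i => hw _, fun j => ?_, ?_⟩
    · have h := hf (Pi.single j 1, 0)
      rw [Fin.sum_univ_castSucc] at h
      simp only [L_cast, L_last, LinearMap.snd_apply, Pi.single_apply] at h
      simp at h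
      exact h
    · have h := hf (0, 1)
      rw [Fin.sum_univ_castSucc] at h
      simp only [L_cast, L_last, LinearMap.snd_apply] at h
      simp at h
      have := hw (Fin.last m)
      linarith
  · rintro ⟨y, hy, hA, hb⟩ ⟨x, hx⟩
    have h1 : ∑ i, y i * a.2 i ≤ ∑ i, y i * ∑ c, a.1 i c * x c :=
      Finset.sum_le_sum fun i _ => mul_le_mul_of_nonneg_left (hx i) (hy i)
    have h2 : ∑ i, y i * ∑ c, a.1 i c * x c = ∑ c, x c * ∑ i, y i * a.1 i c := by
      simp_rw [Finset.mul_sum]
      rw [Finset.sum_comm]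
      exact Finset.sum_congr rfl fun c _ => Finset.sum_congr rfl fun i _ => by ring
    rw [h2] at h1
    simp [hA] at h1
    linarith

end Pool.Agent.H622R3.SM
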