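import Pool.Agent.H622R3.SM.Stm

set_option autoImplicit false

/-!
# FI: meaning of `feasFm` and `infFm`
-/

namespace Pool.Agent.H622R3.SM

open Pool.Agent.NPC Pool.Agent.NPC.ER Pool.Agent.NPC.H612 Pool.Agent.H558R2

namespace TFI

theorem conj_range (x : ℕ → ℝ) (m : ℕ) (f : ℕ → Fm) :
    (conj ((List.range m).map f)).Holds x ↔ ∀ i : Fin m, (f i).Holds x := by
  rw [holds_conj]
  constructor
  · intro h i
    exact h _ (List.mem_map.2 ⟨i, List.mem_range.2 i.2, rfl⟩)
  · intro h φ hφ
    obtain ⟨i, hi, rfl⟩ := List.mem_map.1 hφ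
    exact h ⟨i, List.mem_range.1 hi⟩

theorem sum_range (x : ℕ → ℝ) (n : ℕ) (f : ℕ → Tm) :
    (sumT ((List.range n).map f)).eval x = ∑ j : Fin n, (f j).eval x := by
  rw [eval_sumT, ← Finset.sum_range (fun j => (f j).eval x)]
  induction n with
  | zero => simp
  | succ n ih =>
    rw [Finset.sum_range_succ, ← ih, List.range_succ]
    simp

end TFI

theorem t_FI : S_FI := by
  intro m n c x
  constructor
  · unfold feasFm
    rw [TFI.conj_range]
    refine forall_congr' fun i => ?_
    show x (vx (0 :: c :: [1, (i : ℕ)])) ≤ (sumT _).eval x ↔ _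
    rw [TFI.sum_range]
    exact Iff.rfl
  · unfold infFm
    show ((conj _).Holds x ∧ ((conj _).Holds x ∧ (0 : ℝ) < (sumT _).eval x)) ↔ _
    rw [TFI.conj_range, TFI.conj_range, TFI.sum_range]
    refine and_congr Iff.rfl (and_congr ?_ Iff.rfl)
    refine forall_congr' fun j => ?_
    show (sumT _).eval x = (0 : ℝ) ↔ _
    rw [TFI.sum_range]
    exact Iff.rfl

end Pool.Agent.H622R3.SM
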