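import Pool.Agent.H622R3.SM.Stm

set_option autoImplicit false

namespace Pool.Agent.H622R3.SM

open Pool.Agent.NPC Pool.Agent.NPC.ER Pool.Agent.NPC.H612 Pool.Agent.H558R2

namespace TLEN

theorem len_fm {α β : Type} (l : List α) (f : α → List β) (c : ℕ)
    (h : ∀ a ∈ l, (f a).length = c) : (l.flatMap f).length = l.length * c := by
  induction l with
  | nil => simp
  | cons a l ih =>
    rw [List.flatMap_cons, List.length_append, h a (by simp), ih (fun b hb => h b (by simp [hb])),
      List.length_cons]
    ring

theorem len_fr {β : Type} (m : ℕ) (f : ℕ → List β) (c : ℕ) (h : ∀ a, (f a).length = c) :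
    ((List.range m).flatMap f).length = m * c := by
  rw [len_fm _ _ c (fun a _ => h a), List.length_range]

end TLEN

open TLEN in
theorem t_LEN : S_LEN := by
  intro m n h q hm
  have h1 : (entryProg m n h q).length = m * m := by
    unfold entryProg
    exact len_fr m _ m (fun i => by rw [List.length_map, List.length_range])
  have h2 : (initProg m).length = m * m + 1 := by
    unfold initProg
    rw [List.length_cons, len_fr m _ m (fun i => by rw [List.length_map, List.length_range])]
  have h3 : ∀ k, (prodProg m k).length = m * (m * (m * 2 + 1)) := by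
    intro k
    unfold prodProg
    refine len_fr m _ _ (fun i => len_fr m _ _ fun j => ?_)
    rw [List.length_cons, len_fr m _ 2 (fun l => rfl)]
  have h4 : ∀ k, (traceProg m k).length = m + 3 := by
    intro k
    unfold traceProg
    simp only [List.length_append, List.length_cons, List.length_map, List.length_range,
      List.length_nil]
  have h5 : ∀ k, (nextProg m k).length = m * m := by
    intro k
    unfold nextProg
    exact len_fr m _ m (fun i => by rw [List.length_map, List.length_range])
  unfold minorProg
  rw [List.length_append, List.length_append, List.length_append, h1, h2,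
    len_fr m _ (m * (m * (m * 2 + 1)) + (m + 3 + m * m)) (fun k => by
      rw [List.length_append, List.length_append, h3, h4, h5])]
  simp only [List.length_cons, List.length_nil]
  have a1 : m ≤ m ^ 4 := by
    calc m = m ^ 1 := (pow_one m).symm
      _ ≤ m ^ 4 := Nat.pow_le_pow_right hm (by norm_num)
  have a2 : m ^ 2 ≤ m ^ 4 := Nat.pow_le_pow_right hm (by norm_num)
  have a3 : m ^ 3 ≤ m ^ 4 := Nat.pow_le_pow_right hm (by norm_num)
  have a4 : 1 ≤ m ^ 4 := Nat.one_le_pow _ _ hm
  have e : m * m + (m * m + 1 + (m * (m * (m * (m * 2 + 1)) + (m + 3 + m * m)) + (0 + 1))) =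
      2 * m ^ 4 + 2 * m ^ 3 + 3 * m ^ 2 + 3 * m + 2 := by ring
  rw [e]
  omega

end Pool.Agent.H622R3.SM
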