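import Pool.Agent.H622R3.SM.Stm

set_option autoImplicit false

/-!
# Task MF: soundness of the consistency formula
-/

namespace Pool.Agent.H622R3.SM

open Pool.Agent.NPC Pool.Agent.NPC.ER Pool.Agent.NPC.H612 Pool.Agent.H558R2

namespace TMF

theorem instr_sound (c q : ℕ) (x : ℕ → ℝ) (I : Instr) (h : (instrFm c q I).Holds x) :
    InstrEq (fun r => (regT c q r).eval x) I := by
  obtain ⟨op, d, f, s⟩ := I
  cases op
  · simpa [instrFm, InstrEq, opCode, Fm.Holds, Tm.eval] using h
  · simp [instrFm, opCode, Fm.Holds, Tm.eval] at h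
    simp only [InstrEq]
    rw [h]; ring
  · simpa [instrFm, InstrEq, opCode, Fm.Holds, Tm.eval] using h
  · simpa [instrFm, InstrEq, opCode, Fm.Holds, Tm.eval] using h

theorem sign_sound (x : ℕ → ℝ) (t : Tm) (s : Outcome) (h : (signFm t s).Holds x) :
    signOut (t.eval x) = s := by
  rcases s with _ | _ | _
  · simp [signFm, Fm.Holds, Tm.eval] at h
    simp [signOut, h]
  · simp [signFm, Fm.Holds, Tm.eval] at h
    simp [signOut, h, not_lt.2 h.le]
  · simp [signFm, Fm.Holds, Tm.eval] at h
    simp [signOut, h]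

end TMF

theorem t_MF : S_UNI → S_MF := by
  intro hU m n c h x hm hc q hq
  have hq' : (minorFm m n c h q).Holds x := by
    rw [consFm, holds_conj] at hc
    exact hc _ (List.mem_map.2 ⟨q, List.mem_range.2 hq, rfl⟩)
  obtain ⟨h1, h2⟩ := hq'
  rw [holds_conj] at h1
  have h3 := TMF.sign_sound x _ _ h2
  have h4 := hU m n h q (inst m n c x) (fun r => (regT c q r).eval x) hm
    (by intro i j hi hj; simp [regT, inst, Tm.eval]) (by intro i hi; simp [regT, inst, Tm.eval])
    (by simp [regT, Tm.eval]) (by simp [regT, Tm.eval])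
    (fun I hI => TMF.instr_sound c q x I (h1 _ (List.mem_map.2 ⟨I, hI, rfl⟩)))
  rw [← h4]
  exact h3

end Pool.Agent.H622R3.SM
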