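import Pool.Agent.H622R3.SM.Stm

set_option autoImplicit false

/-!
# All numbers computed by the algorithm are small
-/

namespace Pool.Agent.H622R3.SM

open Pool.Agent.NPC Pool.Agent.NPC.ER Pool.Agent.NPC.H612 Pool.Agent.H558R2

namespace TNUMS

theorem run_ask (O : Set (List Bool)) (α : List Outcome → List Instr × Test) (k : ℕ)
    (h : List Outcome) (ρ : Reg → ℝ) (w : List Bool) (hα : α h = ([], Test.ask w))
    (ans : Bool) (nums : List ℝ) (steps : ℕ)
    (hr : run O α (k + 1) h ρ = some (ans, nums, steps)) :
    ∃ h' steps', run O α k h' ρ = some (ans, nums, steps') := by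
  classical
  rw [run, hα] at hr
  simp only [exec, Option.bind_some] at hr
  rw [Option.map_eq_some_iff] at hr
  obtain ⟨⟨a1, n1, s1⟩, h1, h2⟩ := hr
  simp only [List.nil_append, Prod.mk.injEq] at h2
  obtain ⟨rfl, rfl, -⟩ := h2
  exact ⟨_, s1, h1⟩

theorem run_answer (O : Set (List Bool)) (α : List Outcome → List Instr × Test) (k : ℕ)
    (h : List Outcome) (ρ : Reg → ℝ) (a : Bool) (hα : α h = ([], Test.answer a))
    (ans : Bool) (nums : List ℝ) (steps : ℕ)
    (hr : run O α (k + 1) h ρ = some (ans, nums, steps)) : nums = [] := by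
  classical
  rw [run, hα] at hr
  simp only [exec, Option.bind_some, Option.some.injEq, Prod.mk.injEq] at hr
  exact hr.2.1.symm

theorem run_sign (O : Set (List Bool)) (α : List Outcome → List Instr × Test) (k : ℕ)
    (h : List Outcome) (ρ ρ' : Reg → ℝ) (P : List Instr) (l : List ℝ) (x : Reg)
    (hα : α h = (P, Test.sign x)) (hP : exec P ρ = some (ρ', l))
    (ans : Bool) (nums : List ℝ) (steps : ℕ)
    (hr : run O α (k + 1) h ρ = some (ans, nums, steps)) :
    ∃ h' nums' steps', run O α k h' ρ' = some (ans, nums', steps') ∧ nums = l ++ nums' := by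
  classical
  rw [run, hα] at hr
  simp only [hP, Option.bind_some] at hr
  rw [Option.map_eq_some_iff] at hr
  obtain ⟨⟨a1, n1, s1⟩, h1, h2⟩ := hr
  simp only [Prod.mk.injEq] at h2
  obtain ⟨rfl, rfl, -⟩ := h2
  exact ⟨_, n1, s1, h1, rfl⟩

end TNUMS

open TNUMS in
theorem t_NUMS (hM : S_MINOR) (hS : S_SMALL) : S_NUMS := by
  intro O m n A b k ans nums steps hm hrun
  have key : ∀ (k : ℕ) (h : List Outcome) (ρ : Reg → ℝ) (ans : Bool) (nums : List ℝ) (steps : ℕ),
      (∀ r ∈ baseReg, ρ r =
        start (fun i j => ((A i j : ℚ) : ℝ)) (fun i => ((b i : ℚ) : ℝ)) r) →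
      run O (smale m n) k h ρ = some (ans, nums, steps) →
      ∀ v ∈ nums, ∃ q : ℚ, (q : ℝ) = v ∧ bitLength q ≤ 30 * inputLength A b ^ 2 := by
    intro k
    induction k with
    | zero =>
      intro h ρ ans nums steps _ hr
      simp [run] at hr
    | succ k ih =>
      intro h ρ ans nums steps hρ hr
      by_cases h1 : h.length < tot m n
      · by_cases h2 : h.length % (ell m n + 1) < ell m n
        · obtain ⟨h', s', h3⟩ := run_ask O (smale m n) k h ρ (question m n h)
            (by simp [smale, h1, h2]) ans nums steps hr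
          exact ih h' ρ ans nums s' hρ h3
        · obtain ⟨ρ', hex, hb, -⟩ := hM m n h (h.length / (ell m n + 1))
            (fun i j => ((A i j : ℚ) : ℝ), fun i => ((b i : ℚ) : ℝ)) ρ hm hρ
          obtain ⟨h', n', s', h3, h4⟩ := run_sign O (smale m n) k h ρ ρ'
            (minorProg m n h (h.length / (ell m n + 1))) _ [11]
            (by simp [smale, h1, h2]) hex ans nums steps hr
          intro v hv
          rw [h4, List.mem_append] at hv
          rcases hv with hv | hv
          · rw [List.mem_map] at hv
            obtain ⟨I, hI, rfl⟩ := hv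
            exact hS m n h (h.length / (ell m n + 1)) A b hm I hI
          · exact ih h' ρ' ans n' s' hb h3 v hv
      · by_cases h2 : h.length = tot m n
        · obtain ⟨h', s', h3⟩ := run_ask O (smale m n) k h ρ (question m n h)
            (by simp [smale, h2]) ans nums steps hr
          exact ih h' ρ ans nums s' hρ h3
        · have h5 := run_answer O (smale m n) k h ρ _
            (by rw [smale, if_neg h1, if_neg h2]) ans nums steps hr
          intro v hv
          rw [h5] at hv
          simp at hv
  exact key k [] _ ans nums steps (fun r _ => rfl) hrun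

end Pool.Agent.H622R3.SM
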