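import Pool.Agent.H622R3.SM.Stm

set_option autoImplicit false

/-!
# ORA: the answers of the oracle
-/

namespace Pool.Agent.H622R3.SM

open Pool.Agent.NPC Pool.Agent.NPC.ER Pool.Agent.NPC.H612 Pool.Agent.H558R2

namespace TORA

theorem qsO_question (m n : ℕ) (h : List Outcome) : qsO (question m n h) = quants m n h := by
  unfold qsO question
  rw [unbits_bits]
  simp only [List.length_replicate]

theorem fO_question (m n : ℕ) (h : List Outcome) (v : List Bool) :
    fO (question m n h, v) = matrixFm m n h v := by
  unfold fO question
  simp only
  rw [unbits_bits]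
  simp only [List.length_replicate]

theorem mem_oracle (m n : ℕ) (h : List Outcome) :
    question m n h ∈ oracle ↔ QTrue (quants m n h) (fun v => ETR (matrixFm m n h v)) := by
  change QTrue (qsO (question m n h)) (fun v => ETR (fO (question m n h, v))) ↔ _
  rw [qsO_question]
  simp only [fO_question]

end TORA

theorem t_ORA (hB : S_BOTH) (hQ : S_Q) : S_ORA := by
  intro m n h hm
  constructor
  · intro hlt
    rw [TORA.mem_oracle]
    have e : (fun v => ETR (matrixFm m n h v)) = fun v => ETR (bothFm m n (full m n h v)) := by
      funext v
      unfold matrixFm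
      rw [if_pos hlt]
    rw [e]
    exact hQ m n h hm hlt
  · intro heq
    rw [TORA.mem_oracle]
    have e : (fun v => ETR (matrixFm m n h v)) = fun _ => ETR (oneFm m n h) := by
      funext v
      unfold matrixFm
      rw [if_neg (by omega)]
    have e2 : quants m n h = [] := by
      unfold quants
      rw [show tot m n - (h.length + 1) = 0 by omega]
      rfl
    rw [e, e2]
    exact (hB m n h hm).2

end Pool.Agent.H622R3.SM
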