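import Pool.Agent.H622R3.SM.Stm

set_option autoImplicit false
set_option linter.unusedSimpArgs false

/-!
# ORD: the program for a minor is well ordered (helper77)
-/

namespace Pool.Agent.H622R3.SM

open Pool.Agent.NPC Pool.Agent.NPC.ER Pool.Agent.NPC.H612 Pool.Agent.H558R2

namespace TORD

/-- the time when a register is written -/
def key : Reg → List ℕ
  | [4, i, j] => [0, i, j]
  | [5, 0] => [1]
  | [5, k + 1] => [3, k, 2]
  | [6, 0, i, j] => [2, i, j]
  | [6, k + 1, i, j] => [3, k, 4, i, j]
  | [7, k, i, j, l] => [3, k, 0, i, j, l + 1, 0]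
  | [8, k, i, j, 0] => [3, k, 0, i, j, 0]
  | [8, k, i, j, l + 1] => [3, k, 0, i, j, l + 1, 1]
  | [9, k, i] => [3, k, 1, i]
  | [10, k] => [3, k, 3]
  | [11] => [4]
  | _ => []

theorem ord_of_sorted (P : List Instr) : ∀ (S : Set Reg),
    P.Pairwise (fun I J => key I.dst < key J.dst) → (∀ I ∈ P, I.dst ∉ S) →
    (∀ I ∈ P, ∀ r, (r = I.fst ∨ r = I.snd) → r ∈ S ∨ ∃ J ∈ P, J.dst = r ∧ key r < key I.dst) →
    Ord S P := by
  induction P with
  | nil => exact fun _ _ _ _ => trivial
  | cons I P ih =>
    intro S h1 h2 h3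
    rw [List.pairwise_cons] at h1
    have hop : ∀ r, (r = I.fst ∨ r = I.snd) → r ∈ S := by
      intro r hr
      rcases h3 I List.mem_cons_self r hr with h | ⟨J, hJ, hJr, hlt⟩
      · exact h
      · exfalso
        rcases List.mem_cons.1 hJ with rfl | hJ
        · rw [hJr] at hlt
          exact lt_irrefl _ hlt
        · have := h1.1 J hJ
          rw [hJr] at this
          exact lt_irrefl _ (this.trans hlt)
    refine ⟨hop _ (Or.inl rfl), hop _ (Or.inr rfl), h2 I List.mem_cons_self,
      ih _ h1.2 (fun J hJ => ?_) (fun J hJ r hr => ?_)⟩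
    · rintro (h | h)
      · have := h1.1 J hJ
        rw [h] at this
        exact lt_irrefl _ this
      · exact h2 J (List.mem_cons_of_mem _ hJ) h
    · rcases h3 J (List.mem_cons_of_mem _ hJ) r hr with h | ⟨J', hJ', hJr, hlt⟩
      · exact Or.inl (Or.inr h)
      · rcases List.mem_cons.1 hJ' with rfl | hJ'
        · exact Or.inl (Or.inl hJr.symm)
        · exact Or.inr ⟨J', hJ', hJr, hlt⟩

/-! ### keys -/

theorem key4 (i j : ℕ) : key [4, i, j] = [0, i, j] := rfl
theorem key50 : key [5, 0] = [1] := rfl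
theorem key5 (k : ℕ) : key [5, k + 1] = [3, k, 2] := rfl
theorem key60 (i j : ℕ) : key [6, 0, i, j] = [2, i, j] := rfl
theorem key6 (k i j : ℕ) : key [6, k + 1, i, j] = [3, k, 4, i, j] := rfl
theorem key7 (k i j l : ℕ) : key [7, k, i, j, l] = [3, k, 0, i, j, l + 1, 0] := rfl
theorem key80 (k i j : ℕ) : key [8, k, i, j, 0] = [3, k, 0, i, j, 0] := rfl
theorem key8 (k i j l : ℕ) : key [8, k, i, j, l + 1] = [3, k, 0, i, j, l + 1, 1] := rfl
theorem key9 (k i : ℕ) : key [9, k, i] = [3, k, 1, i] := rfl
theorem key10 (k : ℕ) : key [10, k] = [3, k, 3] := rfl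
theorem key11 : key [11] = [4] := rfl

theorem entry_dst (m n : ℕ) (h : List Outcome) (q i j : ℕ) :
    (entryInstr m n h q i j).dst = [4, i, j] := by
  unfold entryInstr
  split_ifs <;> rfl

/-- comparison of the times -/
def LT (I J : Instr) : Prop := key I.dst < key J.dst

theorem pwF (m : ℕ) (f : ℕ → List Instr) (h1 : ∀ a < m, (f a).Pairwise LT)
    (h2 : ∀ a b, a < b → b < m → ∀ x ∈ f a, ∀ y ∈ f b, LT x y) :
    ((List.range m).flatMap f).Pairwise LT := by
  rw [List.pairwise_flatMap]
  refine ⟨fun a ha => h1 a (List.mem_range.1 ha), ?_⟩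
  exact List.Pairwise.imp_of_mem (fun {a b} _ hb hab => h2 a b hab (List.mem_range.1 hb))
    List.pairwise_lt_range

theorem pwM (m : ℕ) (f : ℕ → Instr) (h2 : ∀ a b, a < b → b < m → LT (f a) (f b)) :
    ((List.range m).map f).Pairwise LT := by
  rw [List.pairwise_map]
  exact List.Pairwise.imp_of_mem (fun {a b} _ hb hab => h2 a b hab (List.mem_range.1 hb))
    List.pairwise_lt_range

theorem mem_entry {m n : ℕ} {h : List Outcome} {q : ℕ} {I : Instr}
    (hI : I ∈ entryProg m n h q) : ∃ i j, i < m ∧ j < m ∧ I = entryInstr m n h q i j := by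
  simp only [entryProg, List.mem_flatMap, List.mem_map, List.mem_range] at hI
  obtain ⟨i, hi, j, hj, rfl⟩ := hI
  exact ⟨i, j, hi, hj, rfl⟩

theorem pw_entry (m n : ℕ) (h : List Outcome) (q : ℕ) : (entryProg m n h q).Pairwise LT := by
  refine pwF m _ (fun i hi => pwM m _ fun a b hab hb => ?_) fun i i' hii hi' x hx y hy => ?_
  · (simp only [LT, entry_dst, key4, key50, key5, key60, key6, key7, key80, key8, key9, key10, key11]; simp [List.cons_lt_cons_iff] <;> omega)
  · simp only [List.mem_map, List.mem_range] at hx hy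
    obtain ⟨j, hj, rfl⟩ := hx
    obtain ⟨j', hj', rfl⟩ := hy
    (simp only [LT, entry_dst, key4, key50, key5, key60, key6, key7, key80, key8, key9, key10, key11]; simp [List.cons_lt_cons_iff] <;> omega)

theorem mem_init {m : ℕ} {I : Instr} (hI : I ∈ initProg m) :
    I = ⟨Op.add, [5, 0], [3], [3]⟩ ∨ ∃ i j, i < m ∧ j < m ∧
      I = ⟨Op.add, [6, 0, i, j], if i = j then [2] else [3], [3]⟩ := by
  simp only [initProg, List.mem_cons, List.mem_flatMap, List.mem_map, List.mem_range] at hI
  rcases hI with rfl | ⟨i, hi, j, hj, rfl⟩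
  · exact Or.inl rfl
  · exact Or.inr ⟨i, j, hi, hj, rfl⟩

theorem pw_init (m : ℕ) : (initProg m).Pairwise LT := by
  unfold initProg
  rw [List.pairwise_cons]
  refine ⟨fun x hx => ?_, pwF m _ (fun i hi => pwM m _ fun a b hab hb => ?_)
    fun i i' hii hi' x hx y hy => ?_⟩
  · simp only [List.mem_flatMap, List.mem_map, List.mem_range] at hx
    obtain ⟨i, hi, j, hj, rfl⟩ := hx
    (simp only [LT, entry_dst, key4, key50, key5, key60, key6, key7, key80, key8, key9, key10, key11]; simp [List.cons_lt_cons_iff] <;> omega)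
  · (simp only [LT, entry_dst, key4, key50, key5, key60, key6, key7, key80, key8, key9, key10, key11]; simp [List.cons_lt_cons_iff] <;> omega)
  · simp only [List.mem_map, List.mem_range] at hx hy
    obtain ⟨j, hj, rfl⟩ := hx
    obtain ⟨j', hj', rfl⟩ := hy
    (simp only [LT, entry_dst, key4, key50, key5, key60, key6, key7, key80, key8, key9, key10, key11]; simp [List.cons_lt_cons_iff] <;> omega)

theorem mem_prod {m k : ℕ} {I : Instr} (hI : I ∈ prodProg m k) : ∃ i j, i < m ∧ j < m ∧
    (I = ⟨Op.add, [8, k, i, j, 0], [3], [3]⟩ ∨ ∃ l, l < m ∧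
      (I = ⟨Op.mul, [7, k, i, j, l], [4, i, l], [6, k, l, j]⟩ ∨
        I = ⟨Op.add, [8, k, i, j, l + 1], [8, k, i, j, l], [7, k, i, j, l]⟩)) := by
  simp only [prodProg, List.mem_cons, List.mem_flatMap, List.mem_range, List.not_mem_nil,
    or_false] at hI
  obtain ⟨i, hi, j, hj, h⟩ := hI
  exact ⟨i, j, hi, hj, h⟩

theorem mem_trace {m k : ℕ} {I : Instr} (hI : I ∈ traceProg m k) :
    I = ⟨Op.add, [9, k, 0], [3], [3]⟩ ∨
    (∃ i, i < m ∧ I = ⟨Op.add, [9, k, i + 1], [9, k, i], [8, k, i, i, m]⟩) ∨
    I = ⟨Op.add, [5, k + 1], [5, k], [2]⟩ ∨ I = ⟨Op.div, [10, k], [9, k, m], [5, k + 1]⟩ := by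
  simp only [traceProg, List.mem_cons, List.mem_append, List.mem_map, List.mem_range,
    List.not_mem_nil, or_false] at hI
  rcases hI with (h | ⟨i, hi, rfl⟩) | h
  · exact Or.inl h
  · exact Or.inr (Or.inl ⟨i, hi, rfl⟩)
  · exact Or.inr (Or.inr h)

theorem mem_next {m k : ℕ} {I : Instr} (hI : I ∈ nextProg m k) : ∃ i j, i < m ∧ j < m ∧
    I = ⟨Op.sub, [6, k + 1, i, j], [8, k, i, j, m], if i = j then [10, k] else [3]⟩ := by
  simp only [nextProg, List.mem_flatMap, List.mem_map, List.mem_range] at hI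
  obtain ⟨i, hi, j, hj, rfl⟩ := hI
  exact ⟨i, j, hi, hj, rfl⟩

theorem pw_next (m k : ℕ) : (nextProg m k).Pairwise LT := by
  refine pwF m _ (fun i hi => pwM m _ fun a b hab hb => ?_) fun i i' hii hi' x hx y hy => ?_
  · (simp only [LT, entry_dst, key4, key50, key5, key60, key6, key7, key80, key8, key9, key10, key11]; simp [List.cons_lt_cons_iff] <;> omega)
  · simp only [List.mem_map, List.mem_range] at hx hy
    obtain ⟨j, hj, rfl⟩ := hx
    obtain ⟨j', hj', rfl⟩ := hy
    (simp only [LT, entry_dst, key4, key50, key5, key60, key6, key7, key80, key8, key9, key10, key11]; simp [List.cons_lt_cons_iff] <;> omega)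

theorem pw_trace (m k : ℕ) : (traceProg m k).Pairwise LT := by
  unfold traceProg
  rw [List.pairwise_append, List.pairwise_cons]
  refine ⟨⟨fun x hx => ?_, pwM m _ fun a b hab hb => ?_⟩, ?_, fun x hx y hy => ?_⟩
  · simp only [List.mem_map, List.mem_range] at hx
    obtain ⟨i, hi, rfl⟩ := hx
    (simp only [LT, entry_dst, key4, key50, key5, key60, key6, key7, key80, key8, key9, key10, key11]; simp [List.cons_lt_cons_iff] <;> omega)
  · (simp only [LT, entry_dst, key4, key50, key5, key60, key6, key7, key80, key8, key9, key10, key11]; simp [List.cons_lt_cons_iff] <;> omega)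
  · simp only [List.pairwise_cons, List.mem_cons, List.not_mem_nil, or_false, forall_eq,
      List.Pairwise.nil, and_true, implies_true, IsEmpty.forall_iff]
    (simp only [LT, entry_dst, key4, key50, key5, key60, key6, key7, key80, key8, key9, key10, key11]; simp [List.cons_lt_cons_iff] <;> omega)
  · simp only [List.mem_cons, List.mem_map, List.mem_range, List.not_mem_nil, or_false] at hx hy
    rcases hx with rfl | ⟨i, hi, rfl⟩ <;> rcases hy with rfl | rfl <;> (simp only [LT, entry_dst, key4, key50, key5, key60, key6, key7, key80, key8, key9, key10, key11]; simp [List.cons_lt_cons_iff] <;> omega)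

theorem pw_prod (m k : ℕ) : (prodProg m k).Pairwise LT := by
  refine pwF m _ (fun i hi => pwF m _ (fun j hj => ?_) fun j j' hjj hj' x hx y hy => ?_)
    fun i i' hii hi' x hx y hy => ?_
  · rw [List.pairwise_cons]
    refine ⟨fun x hx => ?_, pwF m _ (fun l hl => ?_) fun l l' hll hl' x hx y hy => ?_⟩
    · simp only [List.mem_flatMap, List.mem_cons, List.mem_range, List.not_mem_nil,
        or_false] at hx
      obtain ⟨l, hl, rfl | rfl⟩ := hx <;> (simp only [LT, entry_dst, key4, key50, key5, key60, key6, key7, key80, key8, key9, key10, key11]; simp [List.cons_lt_cons_iff] <;> omega)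
    · simp only [List.pairwise_cons, List.mem_cons, List.not_mem_nil, or_false, forall_eq,
        List.Pairwise.nil, and_true, implies_true, IsEmpty.forall_iff]
      (simp only [LT, entry_dst, key4, key50, key5, key60, key6, key7, key80, key8, key9, key10, key11]; simp [List.cons_lt_cons_iff] <;> omega)
    · simp only [List.mem_cons, List.not_mem_nil, or_false] at hx hy
      rcases hx with rfl | rfl <;> rcases hy with rfl | rfl <;> (simp only [LT, entry_dst, key4, key50, key5, key60, key6, key7, key80, key8, key9, key10, key11]; simp [List.cons_lt_cons_iff] <;> omega)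
  · simp only [List.mem_flatMap, List.mem_cons, List.mem_range, List.not_mem_nil,
      or_false] at hx hy
    rcases hx with rfl | ⟨l, hl, rfl | rfl⟩ <;> rcases hy with rfl | ⟨l', hl', rfl | rfl⟩ <;> (simp only [LT, entry_dst, key4, key50, key5, key60, key6, key7, key80, key8, key9, key10, key11]; simp [List.cons_lt_cons_iff] <;> omega)
  · simp only [List.mem_flatMap, List.mem_cons, List.mem_range, List.not_mem_nil,
      or_false] at hx hy
    obtain ⟨j, hj, rfl | ⟨l, hl, rfl | rfl⟩⟩ := hx <;>
    obtain ⟨j', hj', rfl | ⟨l', hl', rfl | rfl⟩⟩ := hy <;> (simp only [LT, entry_dst, key4, key50, key5, key60, key6, key7, key80, key8, key9, key10, key11]; simp [List.cons_lt_cons_iff] <;> omega)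

/-- one round -/
def rnd (m k : ℕ) : List Instr := prodProg m k ++ (traceProg m k ++ nextProg m k)

theorem pw_rnd (m k : ℕ) : (rnd m k).Pairwise LT := by
  unfold rnd
  rw [List.pairwise_append, List.pairwise_append]
  refine ⟨pw_prod m k, ⟨pw_trace m k, pw_next m k, fun x hx y hy => ?_⟩, fun x hx y hy => ?_⟩
  · obtain ⟨i', j', hi', hj', rfl⟩ := mem_next hy
    rcases mem_trace hx with rfl | ⟨i, hi, rfl⟩ | rfl | rfl <;> (simp only [LT, entry_dst, key4, key50, key5, key60, key6, key7, key80, key8, key9, key10, key11]; simp [List.cons_lt_cons_iff] <;> omega)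
  · obtain ⟨i, j, hi, hj, rfl | ⟨l, hl, rfl | rfl⟩⟩ := mem_prod hx <;>
    rcases List.mem_append.1 hy with hy | hy
    all_goals first
      | (obtain ⟨i', j', hi', hj', rfl⟩ := mem_next hy; (simp only [LT, entry_dst, key4, key50, key5, key60, key6, key7, key80, key8, key9, key10, key11]; simp [List.cons_lt_cons_iff] <;> omega))
      | (rcases mem_trace hy with rfl | ⟨i', hi', rfl⟩ | rfl | rfl <;> (simp only [LT, entry_dst, key4, key50, key5, key60, key6, key7, key80, key8, key9, key10, key11]; simp [List.cons_lt_cons_iff] <;> omega))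

/-- the times of a round -/
theorem key_rnd {m k : ℕ} {I : Instr} (hI : I ∈ rnd m k) :
    ∃ l : List ℕ, key I.dst = 3 :: k :: l := by
  unfold rnd at hI
  rcases List.mem_append.1 hI with hI | hI
  · obtain ⟨i, j, hi, hj, rfl | ⟨l, hl, rfl | rfl⟩⟩ := mem_prod hI
    · exact ⟨_, key80 _ _ _⟩
    · exact ⟨_, key7 _ _ _ _⟩
    · exact ⟨_, key8 _ _ _ _⟩
  · rcases List.mem_append.1 hI with hI | hI
    · rcases mem_trace hI with rfl | ⟨i, hi, rfl⟩ | rfl | rfl
      · exact ⟨_, key9 _ _⟩
      · exact ⟨_, key9 _ _⟩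
      · exact ⟨_, key5 _⟩
      · exact ⟨_, key10 _⟩
    · obtain ⟨i, j, hi, hj, rfl⟩ := mem_next hI
      exact ⟨_, key6 _ _ _⟩

theorem minor_eq (m n : ℕ) (h : List Outcome) (q : ℕ) : minorProg m n h q =
    entryProg m n h q ++ (initProg m ++ ((List.range m).flatMap (rnd m) ++
      [(⟨Op.sub, [11], [3], [10, m - 1]⟩ : Instr)])) := rfl

theorem pw_minor (m n : ℕ) (h : List Outcome) (q : ℕ) : (minorProg m n h q).Pairwise LT := by
  rw [minor_eq, List.pairwise_append, List.pairwise_append, List.pairwise_append]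
  have hr : ∀ y ∈ (List.range m).flatMap (rnd m) ++
      [(⟨Op.sub, [11], [3], [10, m - 1]⟩ : Instr)], ∃ a l, 3 ≤ a ∧ key y.dst = a :: l := by
    intro y hy
    rcases List.mem_append.1 hy with hy | hy
    · simp only [List.mem_flatMap, List.mem_range] at hy
      obtain ⟨k, hk, hy⟩ := hy
      obtain ⟨l, hl⟩ := key_rnd hy
      exact ⟨3, _, le_rfl, hl⟩
    · rw [List.mem_singleton] at hy
      subst hy
      exact ⟨4, [], by norm_num, key11⟩
  refine ⟨pw_entry m n h q, ⟨pw_init m, ⟨pwF m _ (fun k hk => pw_rnd m k) ?_, ?_, ?_⟩, ?_⟩, ?_⟩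
  · intro k k' hkk hk' x hx y hy
    obtain ⟨l, hl⟩ := key_rnd hx
    obtain ⟨l', hl'⟩ := key_rnd hy
    unfold LT
    rw [hl, hl']
    simp [List.cons_lt_cons_iff]
    omega
  · exact List.pairwise_singleton _ _
  · intro x hx y hy
    simp only [List.mem_flatMap, List.mem_range] at hx
    obtain ⟨k, hk, hx⟩ := hx
    obtain ⟨l, hl⟩ := key_rnd hx
    rw [List.mem_singleton] at hy
    subst hy
    unfold LT
    rw [hl, key11]
    simp [List.cons_lt_cons_iff]
  · intro x hx y hy
    obtain ⟨a, l, ha, hl⟩ := hr y hy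
    unfold LT
    rw [hl]
    rcases mem_init hx with rfl | ⟨i, j, hi, hj, rfl⟩
    · rw [key50]
      simp [List.cons_lt_cons_iff]
      omega
    · rw [key60]
      simp [List.cons_lt_cons_iff]
      omega
  · intro x hx y hy
    obtain ⟨i, j, hi, hj, rfl⟩ := mem_entry hx
    rcases List.mem_append.1 hy with hy | hy
    · rcases mem_init hy with rfl | ⟨i', j', hi', hj', rfl⟩ <;> (simp only [LT, entry_dst, key4, key50, key5, key60, key6, key7, key80, key8, key9, key10, key11]; simp [List.cons_lt_cons_iff] <;> omega)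
    · obtain ⟨a, l, ha, hl⟩ := hr y hy
      unfold LT
      rw [hl, entry_dst, key4]
      simp [List.cons_lt_cons_iff]
      omega

/-! ### the targets -/

/-- `r` is written -/
def Tg (m n : ℕ) (h : List Outcome) (q : ℕ) (r : Reg) : Prop :=
  ∃ J ∈ minorProg m n h q, J.dst = r

theorem tg_rnd {m : ℕ} (n : ℕ) (h : List Outcome) (q : ℕ) {k : ℕ} (hk : k < m) {J : Instr}
    (hJ : J ∈ rnd m k) : Tg m n h q J.dst := by
  refine ⟨J, ?_, rfl⟩
  rw [minor_eq]
  refine List.mem_append_right _ (List.mem_append_right _ (List.mem_append_left _ ?_))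
  exact List.mem_flatMap.2 ⟨k, List.mem_range.2 hk, hJ⟩

theorem t4 (m n : ℕ) (h : List Outcome) (q i j : ℕ) (hi : i < m) (hj : j < m) :
    Tg m n h q [4, i, j] := by
  refine ⟨entryInstr m n h q i j, ?_, entry_dst _ _ _ _ _ _⟩
  rw [minor_eq]
  refine List.mem_append_left _ ?_
  exact List.mem_flatMap.2 ⟨i, List.mem_range.2 hi, List.mem_map.2 ⟨j, List.mem_range.2 hj, rfl⟩⟩

theorem t7 (m n : ℕ) (h : List Outcome) (q k i j l : ℕ) (hk : k < m) (hi : i < m) (hj : j < m)
    (hl : l < m) : Tg m n h q [7, k, i, j, l] := by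
  refine tg_rnd n h q hk (J := ⟨Op.mul, [7, k, i, j, l], [4, i, l], [6, k, l, j]⟩)
    (List.mem_append_left _ ?_)
  refine List.mem_flatMap.2 ⟨i, List.mem_range.2 hi, List.mem_flatMap.2
    ⟨j, List.mem_range.2 hj, List.mem_cons_of_mem _ (List.mem_flatMap.2
      ⟨l, List.mem_range.2 hl, ?_⟩)⟩⟩
  simp

theorem t8 (m n : ℕ) (h : List Outcome) (q k i j l : ℕ) (hk : k < m) (hi : i < m) (hj : j < m)
    (hl : l ≤ m) : Tg m n h q [8, k, i, j, l] := by
  rcases l with _ | l
  · refine tg_rnd n h q hk (J := ⟨Op.add, [8, k, i, j, 0], [3], [3]⟩)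
      (List.mem_append_left _ ?_)
    exact List.mem_flatMap.2 ⟨i, List.mem_range.2 hi, List.mem_flatMap.2
      ⟨j, List.mem_range.2 hj, List.mem_cons_self⟩⟩
  · refine tg_rnd n h q hk (J := ⟨Op.add, [8, k, i, j, l + 1], [8, k, i, j, l], [7, k, i, j, l]⟩)
      (List.mem_append_left _ ?_)
    refine List.mem_flatMap.2 ⟨i, List.mem_range.2 hi, List.mem_flatMap.2
      ⟨j, List.mem_range.2 hj, List.mem_cons_of_mem _ (List.mem_flatMap.2
        ⟨l, List.mem_range.2 hl, ?_⟩)⟩⟩
    simp

theorem t9 (m n : ℕ) (h : List Outcome) (q k i : ℕ) (hk : k < m) (hi : i ≤ m) :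
    Tg m n h q [9, k, i] := by
  rcases i with _ | i
  · refine tg_rnd n h q hk (J := ⟨Op.add, [9, k, 0], [3], [3]⟩)
      (List.mem_append_right _ (List.mem_append_left _ ?_))
    simp [traceProg]
  · refine tg_rnd n h q hk (J := ⟨Op.add, [9, k, i + 1], [9, k, i], [8, k, i, i, m]⟩)
      (List.mem_append_right _ (List.mem_append_left _ ?_))
    unfold traceProg
    refine List.mem_append_left _ (List.mem_cons_of_mem _ (List.mem_map.2
      ⟨i, List.mem_range.2 hi, rfl⟩))

theorem t10 (m n : ℕ) (h : List Outcome) (q k : ℕ) (hk : k < m) : Tg m n h q [10, k] := by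
  refine tg_rnd n h q hk (J := ⟨Op.div, [10, k], [9, k, m], [5, k + 1]⟩)
      (List.mem_append_right _ (List.mem_append_left _ ?_))
  simp [traceProg]

theorem t5 (m n : ℕ) (h : List Outcome) (q k : ℕ) (hk : k ≤ m) : Tg m n h q [5, k] := by
  rcases k with _ | k
  · refine ⟨⟨Op.add, [5, 0], [3], [3]⟩, ?_, rfl⟩
    rw [minor_eq]
    refine List.mem_append_right _ (List.mem_append_left _ List.mem_cons_self)
  · refine tg_rnd n h q hk (J := ⟨Op.add, [5, k + 1], [5, k], [2]⟩)
      (List.mem_append_right _ (List.mem_append_left _ ?_))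
    simp [traceProg]

theorem t6 (m n : ℕ) (h : List Outcome) (q k i j : ℕ) (hk : k ≤ m) (hi : i < m) (hj : j < m) :
    Tg m n h q [6, k, i, j] := by
  rcases k with _ | k
  · refine ⟨⟨Op.add, [6, 0, i, j], if i = j then [2] else [3], [3]⟩, ?_, rfl⟩
    rw [minor_eq]
    refine List.mem_append_right _ (List.mem_append_left _ (List.mem_cons_of_mem _ ?_))
    exact List.mem_flatMap.2 ⟨i, List.mem_range.2 hi, List.mem_map.2
      ⟨j, List.mem_range.2 hj, rfl⟩⟩
  · refine tg_rnd n h q hk
      (J := ⟨Op.sub, [6, k + 1, i, j], [8, k, i, j, m], if i = j then [10, k] else [3]⟩)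
      (List.mem_append_right _ (List.mem_append_right _ ?_))
    exact List.mem_flatMap.2 ⟨i, List.mem_range.2 hi, List.mem_map.2
      ⟨j, List.mem_range.2 hj, rfl⟩⟩

/-- the members of the program -/
theorem mem_minor {m n : ℕ} {h : List Outcome} {q : ℕ} {I : Instr} (hI : I ∈ minorProg m n h q) :
    I ∈ entryProg m n h q ∨ I ∈ initProg m ∨ (∃ k, k < m ∧ I ∈ rnd m k) ∨
      I = ⟨Op.sub, [11], [3], [10, m - 1]⟩ := by
  rw [minor_eq] at hI
  rcases List.mem_append.1 hI with hI | hI
  · exact Or.inl hI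
  rcases List.mem_append.1 hI with hI | hI
  · exact Or.inr (Or.inl hI)
  rcases List.mem_append.1 hI with hI | hI
  · simp only [List.mem_flatMap, List.mem_range] at hI
    exact Or.inr (Or.inr (Or.inl hI))
  · exact Or.inr (Or.inr (Or.inr (List.mem_singleton.1 hI)))

theorem key_ne {m n : ℕ} {h : List Outcome} {q : ℕ} {I : Instr} (hI : I ∈ minorProg m n h q) :
    I.dst ∉ baseReg := by
  unfold baseReg
  rw [Set.mem_ofPred_eq, not_lt]
  rcases mem_minor hI with hI | hI | ⟨k, hk, hI⟩ | rfl
  · obtain ⟨i, j, hi, hj, rfl⟩ := mem_entry hI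
    rw [entry_dst]
    exact le_rfl
  · rcases mem_init hI with rfl | ⟨i, j, hi, hj, rfl⟩
    · exact (by norm_num : 4 ≤ 5)
    · exact (by norm_num : 4 ≤ 6)
  · rcases List.mem_append.1 hI with hI | hI
    · obtain ⟨i, j, hi, hj, rfl | ⟨l, hl, rfl | rfl⟩⟩ := mem_prod hI
      · exact (by norm_num : 4 ≤ 8)
      · exact (by norm_num : 4 ≤ 7)
      · exact (by norm_num : 4 ≤ 8)
    · rcases List.mem_append.1 hI with hI | hI
      · rcases mem_trace hI with rfl | ⟨i, hi, rfl⟩ | rfl | rfl
        · exact (by norm_num : 4 ≤ 9)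
        · exact (by norm_num : 4 ≤ 9)
        · exact (by norm_num : 4 ≤ 5)
        · exact (by norm_num : 4 ≤ 10)
      · obtain ⟨i, j, hi, hj, rfl⟩ := mem_next hI
        exact (by norm_num : 4 ≤ 6)
  · exact (by norm_num : 4 ≤ 11)

theorem base2 : ([2] : Reg) ∈ baseReg := by
  show (2 : ℕ) < 4
  norm_num

theorem base3 : ([3] : Reg) ∈ baseReg := by
  show (3 : ℕ) < 4
  norm_num

theorem base0 (i j : ℕ) : ([0, i, j] : Reg) ∈ baseReg := by
  show (0 : ℕ) < 4
  norm_num

theorem base1 (i : ℕ) : ([1, i] : Reg) ∈ baseReg := by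
  show (1 : ℕ) < 4
  norm_num

theorem entry_ops (m n : ℕ) (h : List Outcome) (q i j : ℕ) :
    (entryInstr m n h q i j).fst ∈ baseReg ∧ (entryInstr m n h q i j).snd ∈ baseReg := by
  unfold entryInstr
  split_ifs
  · exact ⟨base3, base2⟩
  · exact ⟨base3, base3⟩
  · exact ⟨base0 _ _, base3⟩
  · exact ⟨base3, base0 _ _⟩
  · exact ⟨base1 _, base3⟩

/-- the operands are in the base or written before -/
theorem ops {m n : ℕ} {h : List Outcome} {q : ℕ} (hm : 1 ≤ m) {I : Instr}
    (hI : I ∈ minorProg m n h q) (r : Reg) (hr : r = I.fst ∨ r = I.snd) :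
    r ∈ baseReg ∨ (Tg m n h q r ∧ key r < key I.dst) := by
  rcases mem_minor hI with hI | hI | ⟨k, hk, hI⟩ | rfl
  · obtain ⟨i, j, hi, hj, rfl⟩ := mem_entry hI
    have := entry_ops m n h q i j
    rcases hr with rfl | rfl
    · exact Or.inl this.1
    · exact Or.inl this.2
  · rcases mem_init hI with rfl | ⟨i, j, hi, hj, rfl⟩
    · rcases hr with rfl | rfl
      · exact Or.inl base3
      · exact Or.inl base3
    · rcases hr with rfl | rfl
      · left
        dsimp only
        split_ifs
        · exact base2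
        · exact base3
      · exact Or.inl base3
  · rcases List.mem_append.1 hI with hI | hI
    · obtain ⟨i, j, hi, hj, rfl | ⟨l, hl, rfl | rfl⟩⟩ := mem_prod hI
      · rcases hr with rfl | rfl
        · exact Or.inl base3
        · exact Or.inl base3
      · rcases hr with rfl | rfl
        · exact Or.inr ⟨t4 m n h q i l hi hl, by (simp only [key4, key50, key5, key60, key6, key7, key80, key8, key9, key10, key11]; simp [List.cons_lt_cons_iff] <;> omega)⟩
        · refine Or.inr ⟨t6 m n h q k l j hk.le hl hj, ?_⟩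
          rcases k with _ | k
          · (simp only [key4, key50, key5, key60, key6, key7, key80, key8, key9, key10, key11]; simp [List.cons_lt_cons_iff] <;> omega)
          · (simp only [key4, key50, key5, key60, key6, key7, key80, key8, key9, key10, key11]; simp [List.cons_lt_cons_iff] <;> omega)
      · rcases hr with rfl | rfl
        · refine Or.inr ⟨t8 m n h q k i j l hk hi hj hl.le, ?_⟩
          rcases l with _ | l
          · (simp only [key4, key50, key5, key60, key6, key7, key80, key8, key9, key10, key11]; simp [List.cons_lt_cons_iff] <;> omega)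
          · (simp only [key4, key50, key5, key60, key6, key7, key80, key8, key9, key10, key11]; simp [List.cons_lt_cons_iff] <;> omega)
        · exact Or.inr ⟨t7 m n h q k i j l hk hi hj hl, by (simp only [key4, key50, key5, key60, key6, key7, key80, key8, key9, key10, key11]; simp [List.cons_lt_cons_iff] <;> omega)⟩
    · rcases List.mem_append.1 hI with hI | hI
      · rcases mem_trace hI with rfl | ⟨i, hi, rfl⟩ | rfl | rfl
        · rcases hr with rfl | rfl
          · exact Or.inl base3
          · exact Or.inl base3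
        · rcases hr with rfl | rfl
          · exact Or.inr ⟨t9 m n h q k i hk hi.le, by (simp only [key4, key50, key5, key60, key6, key7, key80, key8, key9, key10, key11]; simp [List.cons_lt_cons_iff] <;> omega)⟩
          · refine Or.inr ⟨t8 m n h q k i i m hk hi hi le_rfl, ?_⟩
            obtain ⟨m', rfl⟩ : ∃ m', m = m' + 1 := ⟨m - 1, by omega⟩
            (simp only [key4, key50, key5, key60, key6, key7, key80, key8, key9, key10, key11]; simp [List.cons_lt_cons_iff] <;> omega)
        · rcases hr with rfl | rfl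
          · refine Or.inr ⟨t5 m n h q k hk.le, ?_⟩
            rcases k with _ | k
            · (simp only [key4, key50, key5, key60, key6, key7, key80, key8, key9, key10, key11]; simp [List.cons_lt_cons_iff] <;> omega)
            · (simp only [key4, key50, key5, key60, key6, key7, key80, key8, key9, key10, key11]; simp [List.cons_lt_cons_iff] <;> omega)
          · exact Or.inl base2
        · rcases hr with rfl | rfl
          · exact Or.inr ⟨t9 m n h q k m hk le_rfl, by (simp only [key4, key50, key5, key60, key6, key7, key80, key8, key9, key10, key11]; simp [List.cons_lt_cons_iff] <;> omega)⟩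
          · exact Or.inr ⟨t5 m n h q (k + 1) hk, by (simp only [key4, key50, key5, key60, key6, key7, key80, key8, key9, key10, key11]; simp [List.cons_lt_cons_iff] <;> omega)⟩
      · obtain ⟨i, j, hi, hj, rfl⟩ := mem_next hI
        rcases hr with rfl | rfl
        · refine Or.inr ⟨t8 m n h q k i j m hk hi hj le_rfl, ?_⟩
          obtain ⟨m', rfl⟩ : ∃ m', m = m' + 1 := ⟨m - 1, by omega⟩
          (simp only [key4, key50, key5, key60, key6, key7, key80, key8, key9, key10, key11]; simp [List.cons_lt_cons_iff] <;> omega)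
        · dsimp only
          split_ifs
          · exact Or.inr ⟨t10 m n h q k hk, by (simp only [key4, key50, key5, key60, key6, key7, key80, key8, key9, key10, key11]; simp [List.cons_lt_cons_iff] <;> omega)⟩
          · exact Or.inl base3
  · rcases hr with rfl | rfl
    · exact Or.inl base3
    · exact Or.inr ⟨t10 m n h q (m - 1) (by omega), by (simp only [key4, key50, key5, key60, key6, key7, key80, key8, key9, key10, key11]; simp [List.cons_lt_cons_iff] <;> omega)⟩

end TORD

/-- ORD -/
theorem t_ORD : S_ORD := by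
  intro m n h q hm
  refine TORD.ord_of_sorted _ _ (TORD.pw_minor m n h q) (fun I hI => TORD.key_ne hI)
    (fun I hI r hr => ?_)
  rcases TORD.ops hm hI r hr with h1 | ⟨⟨J, hJ, hJr⟩, h2⟩
  · exact Or.inl h1
  · exact Or.inr ⟨J, hJ, hJr, h2⟩

end Pool.Agent.H622R3.SM
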