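import Pool.Agent.H622R3.SM.Stm

set_option autoImplicit false

/-!
# Task PC: the algorithm is computed in polynomial time
-/

namespace Pool.Agent.H622R3.SM

open Pool.Agent.NPC Pool.Agent.NPC.ER Pool.Agent.NPC.H612 Pool.Agent.H558R2

namespace TPC

variable {α : Type} [TEnc α]

theorem poly_bits {β : Type} [TEnc β] {g : α → β} (hg : Poly g) :
    Poly (fun a => bits (g a)) := by
  have h1 : PC (bits : α → List Bool) (fun x : List Bool => x) (fun a => bits (g a)) := by
    obtain ⟨c, p, h⟩ := hg
    exact ⟨c, p, h⟩
  exact PC.comp (g := fun x => x) (f := fun a => bits (g a)) PC.rawIn h1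

theorem poly_sign {r : α → Reg} (h : Poly r) : Poly (fun a => Test.sign (r a)) := by
  have h1 : Poly (fun a => (Sum.inl (r a) : Reg ⊕ (List Bool ⊕ Bool))) := Poly.inl h
  exact h1

theorem poly_ask {r : α → List Bool} (h : Poly r) : Poly (fun a => Test.ask (r a)) := by
  have h1 : Poly (fun a => (Sum.inr (Sum.inl (r a)) : Reg ⊕ (List Bool ⊕ Bool))) :=
    Poly.inr (Poly.inl h)
  exact h1

theorem poly_answer {r : α → Bool} (h : Poly r) : Poly (fun a => Test.answer (r a)) := by
  have h1 : Poly (fun a => (Sum.inr (Sum.inr (r a)) : Reg ⊕ (List Bool ⊕ Bool))) :=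
    Poly.inr (Poly.inr h)
  exact h1

theorem list_unit (l : List Unit) : List.replicate l.length () = l := by
  induction l with
  | nil => rfl
  | cons a l ih => rw [List.length_cons, List.replicate_succ, ih]

theorem question_eq (p : HistIn) : question p.1.1.length p.1.2.length p.2 = bits p := by
  unfold question
  rw [list_unit, list_unit]

theorem poly_question : Poly (fun p : HistIn => question p.1.1.length p.1.2.length p.2) :=
  (poly_bits Poly.id).congr fun p => (question_eq p).symm

end TPC

open TPC in
theorem t_PC (hU : S_UP) (hM : S_PM) : S_PC := by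
  have hell : Poly (fun p : HistIn => ell p.1.1.length p.1.2.length) := hU.1.toPoly
  have htot : Poly (fun p : HistIn => tot p.1.1.length p.1.2.length) := hU.2.2.toPoly
  have hlen : Poly (fun p : HistIn => p.2.length) := by fun_prop
  have hnil : Poly (fun _ : HistIn => ([] : List Instr)) := NPC.Poly.const _
  have hmod : Poly (fun p : HistIn => p.2.length % (ell p.1.1.length p.1.2.length + 1)) :=
    Poly.mod hlen (Poly.add hell (NPC.Poly.const 1))
  have hdiv : Poly (fun p : HistIn => p.2.length / (ell p.1.1.length p.1.2.length + 1)) :=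
    Poly.div hlen (Poly.add hell (NPC.Poly.const 1))
  have hq : Poly (fun p : HistIn => (([] : List Instr),
      Test.ask (question p.1.1.length p.1.2.length p.2))) :=
    Poly.pair hnil (poly_ask poly_question)
  have hprog : Poly (fun p : HistIn => (minorProg p.1.1.length p.1.2.length p.2
      (p.2.length / (ell p.1.1.length p.1.2.length + 1)), Test.sign [11])) := by
    have h2 : Poly (fun p : HistIn => (p, p.2.length / (ell p.1.1.length p.1.2.length + 1))) :=
      NPC.Poly.pair NPC.Poly.id hdiv
    have h3 := NPC.Poly.comp hM h2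
    exact NPC.Poly.pair h3 (poly_sign (NPC.Poly.const [11]))
  have hans : Poly (fun p : HistIn => (([] : List Instr),
      Test.answer (decide ((p.2.reverse.head?).getD none = some true)))) := by
    refine Poly.pair hnil (poly_answer ?_)
    fun_prop
  unfold S_PC smale
  refine Poly.ite (Poly.decide_lt hlen htot) ?_ (Poly.ite (Poly.decide_eq hlen htot) hq hans)
  exact Poly.ite (Poly.decide_lt hmod hell) hq hprog

end Pool.Agent.H622R3.SM
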