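import Pool.Agent.H622R3.SM.Stm

set_option autoImplicit false

/-!
# Task PF: the formulas of the oracle are computed in polynomial time
-/

namespace Pool.Agent.H622R3.SM

open Pool.Agent.NPC Pool.Agent.NPC.ER Pool.Agent.NPC.H612 Pool.Agent.H558R2

namespace TPF

variable {α : Type} [TEnc α]

theorem poly_bits {β : Type} [TEnc β] {g : α → β} (hg : Poly g) :
    Poly (fun a => bits (g a)) := by
  have h1 : PC (bits : α → List Bool) (fun x : List Bool => x) (fun a => bits (g a)) := by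
    obtain ⟨c, p, h⟩ := hg
    exact ⟨c, p, h⟩
  exact PC.comp (g := fun x => x) (f := fun a => bits (g a)) PC.rawIn h1

theorem poly_vx {r : α → List ℕ} (h : Poly r) : Poly (fun a => vx (r a)) :=
  Poly.valBits (NPC.Poly.append (poly_bits h) (NPC.Poly.const [true]))

theorem poly_varx {r : α → List ℕ} (h : Poly r) : Poly (fun a => Tm.var (vx (r a))) :=
  poly_tvar (poly_vx h)

theorem poly_headD {r : α → List ℕ} (h : Poly r) : Poly (fun a => (r a).headD 0) :=
  (NPC.Poly.optGetD (NPC.Poly.head? h) (NPC.Poly.const 0)).congr fun a => by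
    cases r a <;> rfl

theorem poly_regT {c q : α → ℕ} {r : α → Reg} (hc : Poly c) (hq : Poly q) (hr : Poly r) :
    Poly (fun a => regT (c a) (q a) (r a)) := by
  unfold regT
  refine NPC.Poly.ite (NPC.Poly.decide_eq hr (NPC.Poly.const _)) (NPC.Poly.const _) ?_
  refine NPC.Poly.ite (NPC.Poly.decide_eq hr (NPC.Poly.const _)) (NPC.Poly.const _) ?_
  refine NPC.Poly.ite (NPC.Poly.decide_lt (poly_headD hr) (NPC.Poly.const 2)) ?_ ?_
  · exact poly_varx (NPC.Poly.cons (NPC.Poly.const 0) (NPC.Poly.cons hc hr))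
  · exact poly_varx (NPC.Poly.cons (NPC.Poly.const 1)
      (NPC.Poly.cons hc (NPC.Poly.cons hq hr)))

theorem poly_code {I : α → Instr} (h : Poly I) : Poly (fun a => (I a).code) := h

theorem poly_instrFm {c q : α → ℕ} {I : α → Instr} (hc : Poly c) (hq : Poly q) (hI : Poly I) :
    Poly (fun a => instrFm (c a) (q a) (I a)) := by
  have h0 : Poly (fun a => opCode (I a).op) := NPC.Poly.fst (poly_code hI)
  have h1 : Poly (fun a => (I a).dst) := NPC.Poly.fst (NPC.Poly.snd (poly_code hI))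
  have h2 : Poly (fun a => (I a).fst) :=
    NPC.Poly.fst (NPC.Poly.snd (NPC.Poly.snd (poly_code hI)))
  have h3 : Poly (fun a => (I a).snd) :=
    NPC.Poly.snd (NPC.Poly.snd (NPC.Poly.snd (poly_code hI)))
  have g1 := poly_regT hc hq h1
  have g2 := poly_regT hc hq h2
  have g3 := poly_regT hc hq h3
  unfold instrFm
  refine NPC.Poly.ite (NPC.Poly.decide_eq h0 (NPC.Poly.const 0)) (poly_feq g1 (poly_tadd g2 g3)) ?_
  refine NPC.Poly.ite (NPC.Poly.decide_eq h0 (NPC.Poly.const 1))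
    (poly_feq g1 (poly_tadd g2 (poly_tneg g3))) ?_
  exact NPC.Poly.ite (NPC.Poly.decide_eq h0 (NPC.Poly.const 2)) (poly_feq g1 (poly_tmul g2 g3))
    (poly_feq (poly_tmul g1 g3) g2)

theorem poly_signFm {t : α → Tm} {s : α → Outcome} (ht : Poly t) (hs : Poly s) :
    Poly (fun a => signFm (t a) (s a)) := by
  unfold signFm
  refine NPC.Poly.ite (NPC.Poly.decide_eq hs (NPC.Poly.const _))
    (poly_flt (NPC.Poly.const Tm.zero) ht) ?_
  exact NPC.Poly.ite (NPC.Poly.decide_eq hs (NPC.Poly.const _))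
    (poly_flt ht (NPC.Poly.const Tm.zero)) (poly_feq ht (NPC.Poly.const Tm.zero))

theorem poly_minorFm (hU : S_UP) (hM : S_PM) (c : ℕ) :
    Poly (fun p : HistIn × ℕ => minorFm p.1.1.1.length p.1.1.2.length c p.1.2 p.2) := by
  have hell : Poly (fun p : HistIn × ℕ => ell p.1.1.1.length p.1.1.2.length) :=
    NPC.Poly.comp (f := fun p : HistIn × ℕ => p.1) hU.1.toPoly (NPC.Poly.fst NPC.Poly.id)
  have hq : Poly (fun p : HistIn × ℕ => p.2) := NPC.Poly.snd NPC.Poly.id
  have hh : Poly (fun p : HistIn × ℕ => p.1.2) := NPC.Poly.snd (NPC.Poly.fst NPC.Poly.id)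
  have hrec : Poly (fun p : HistIn × ℕ => recd p.1.1.1.length p.1.1.2.length p.1.2 p.2) := by
    have hidx : Poly (fun p : HistIn × ℕ => p.2 * (ell p.1.1.1.length p.1.1.2.length + 1) +
        ell p.1.1.1.length p.1.1.2.length) :=
      NPC.Poly.add (NPC.Poly.mul hq (NPC.Poly.add hell (NPC.Poly.const 1))) hell
    exact NPC.Poly.getD hh hidx (NPC.Poly.const none)
  have hprog : Poly (fun p : HistIn × ℕ =>
      (minorProg p.1.1.1.length p.1.1.2.length p.1.2 p.2).map (instrFm c p.2)) :=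
    NPC.Poly.map (F := fun (p : HistIn × ℕ) I => instrFm c p.2 I) hM
      (poly_instrFm (NPC.Poly.const c) (NPC.Poly.snd (NPC.Poly.fst NPC.Poly.id))
        (NPC.Poly.snd NPC.Poly.id))
  exact poly_fand (poly_conj hprog) (poly_signFm (poly_regT (NPC.Poly.const c) hq
    (NPC.Poly.const _)) hrec)

theorem poly_consFm (hU : S_UP) (hM : S_PM) (c : ℕ) :
    Poly (fun p : HistIn => consFm p.1.1.length p.1.2.length c p.2) := by
  have h1 : Poly (fun p : HistIn => (List.range (dep p.1.1.length p.1.2.length)).map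
      (minorFm p.1.1.length p.1.2.length c p.2)) :=
    NPC.Poly.map (F := fun (p : HistIn) q => minorFm p.1.1.length p.1.2.length c p.2 q)
      hU.2.1.range (poly_minorFm hU hM c)
  exact poly_conj h1

section

theorem poly_rm : Poly (fun p : HistIn => List.range p.1.1.length) :=
  (UPoly.length (NPC.Poly.fst (NPC.Poly.fst NPC.Poly.id))).range

theorem poly_rn : Poly (fun p : HistIn => List.range p.1.2.length) :=
  (UPoly.length (NPC.Poly.snd (NPC.Poly.fst NPC.Poly.id))).range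

/-- one element lists and so on -/
theorem poly_l1 (a b : ℕ) {x : α → ℕ} (hx : Poly x) : Poly (fun p => a :: b :: [x p]) :=
  NPC.Poly.cons (NPC.Poly.const a) (NPC.Poly.cons (NPC.Poly.const b)
    (NPC.Poly.cons hx (NPC.Poly.const [])))

theorem poly_l2 (a b d : ℕ) {x : α → ℕ} (hx : Poly x) : Poly (fun p => a :: b :: [d, x p]) :=
  NPC.Poly.cons (NPC.Poly.const a) (poly_l1 b d hx)

theorem poly_l3 (a b d : ℕ) {x y : α → ℕ} (hx : Poly x) (hy : Poly y) :
    Poly (fun p => a :: b :: [d, x p, y p]) :=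
  NPC.Poly.cons (NPC.Poly.const a) (NPC.Poly.cons (NPC.Poly.const b)
    (NPC.Poly.cons (NPC.Poly.const d) (NPC.Poly.cons hx (NPC.Poly.cons hy (NPC.Poly.const [])))))

theorem poly_feasFm (c : ℕ) :
    Poly (fun p : HistIn => feasFm p.1.1.length p.1.2.length c) := by
  unfold feasFm
  refine poly_conj (NPC.Poly.map (F := fun (p : HistIn) i =>
    Fm.le (Tm.var (vx (0 :: c :: [1, i]))) (sumT ((List.range p.1.2.length).map fun j =>
      Tm.mul (Tm.var (vx (0 :: c :: [0, i, j]))) (Tm.var (vx (2 :: c :: [j])))))) poly_rm ?_)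
  refine poly_fle (poly_varx (poly_l2 0 c 1 (NPC.Poly.snd NPC.Poly.id))) (poly_sumT ?_)
  refine NPC.Poly.map (F := fun (p : HistIn × ℕ) j =>
    Tm.mul (Tm.var (vx (0 :: c :: [0, p.2, j]))) (Tm.var (vx (2 :: c :: [j]))))
    (NPC.Poly.comp (f := fun p : HistIn × ℕ => p.1) poly_rn (NPC.Poly.fst NPC.Poly.id)) ?_
  exact poly_tmul (poly_varx (poly_l3 0 c 0 (NPC.Poly.snd (NPC.Poly.fst NPC.Poly.id))
    (NPC.Poly.snd NPC.Poly.id))) (poly_varx (poly_l1 2 c (NPC.Poly.snd NPC.Poly.id)))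

theorem poly_infFm (c : ℕ) :
    Poly (fun p : HistIn => infFm p.1.1.length p.1.2.length c) := by
  unfold infFm
  refine poly_fand ?_ (poly_fand ?_ ?_)
  · refine poly_conj (NPC.Poly.map (F := fun (_ : HistIn) i =>
      Fm.le Tm.zero (Tm.var (vx (3 :: c :: [i])))) poly_rm ?_)
    exact poly_fle (NPC.Poly.const Tm.zero) (poly_varx (poly_l1 3 c (NPC.Poly.snd NPC.Poly.id)))
  · refine poly_conj (NPC.Poly.map (F := fun (p : HistIn) j =>
      Fm.eq (sumT ((List.range p.1.1.length).map fun i =>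
        Tm.mul (Tm.var (vx (3 :: c :: [i]))) (Tm.var (vx (0 :: c :: [0, i, j]))))) Tm.zero)
      poly_rn ?_)
    refine poly_feq (poly_sumT ?_) (NPC.Poly.const Tm.zero)
    refine NPC.Poly.map (F := fun (p : HistIn × ℕ) i =>
      Tm.mul (Tm.var (vx (3 :: c :: [i]))) (Tm.var (vx (0 :: c :: [0, i, p.2]))))
      (NPC.Poly.comp (f := fun p : HistIn × ℕ => p.1) poly_rm (NPC.Poly.fst NPC.Poly.id)) ?_
    exact poly_tmul (poly_varx (poly_l1 3 c (NPC.Poly.snd NPC.Poly.id)))
      (poly_varx (poly_l3 0 c 0 (NPC.Poly.snd NPC.Poly.id)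
        (NPC.Poly.snd (NPC.Poly.fst NPC.Poly.id))))
  · refine poly_flt (NPC.Poly.const Tm.zero) (poly_sumT ?_)
    refine NPC.Poly.map (F := fun (_ : HistIn) i =>
      Tm.mul (Tm.var (vx (3 :: c :: [i]))) (Tm.var (vx (0 :: c :: [1, i])))) poly_rm ?_
    exact poly_tmul (poly_varx (poly_l1 3 c (NPC.Poly.snd NPC.Poly.id)))
      (poly_varx (poly_l2 0 c 1 (NPC.Poly.snd NPC.Poly.id)))

end

end TPF

open TPF in
theorem t_PF (hU : S_UP) (hM : S_PM) : S_PF := by
  constructor
  · unfold bothFm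
    exact poly_fand (poly_fand (poly_consFm hU hM 0) (poly_feasFm 0))
      (poly_fand (poly_consFm hU hM 1) (poly_infFm 1))
  · unfold oneFm
    exact poly_fand (poly_consFm hU hM 0) (poly_feasFm 0)

end Pool.Agent.H622R3.SM
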