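import Pool.Agent.H622R3.SM.Stm

set_option autoImplicit false

/-! The program of a minor is computed in polynomial time (helper509). -/

namespace Pool.Agent.H622R3.SM

open Pool.Agent.NPC Pool.Agent.NPC.ER Pool.Agent.NPC.H612 Pool.Agent.H558R2

namespace TPM

variable {α : Type} [TEnc α]

theorem pInstr (o : Op) {f g k : α → Reg} (hf : Poly f) (hg : Poly g) (hk : Poly k) :
    Poly (fun a => Instr.mk o (f a) (g a) (k a)) :=
  Pool.Agent.NPC.Poly.of_toT (Pool.Agent.NPC.Poly.toT' (Pool.Agent.NPC.Poly.pair
    (Pool.Agent.NPC.Poly.const (opCode o))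
    (Pool.Agent.NPC.Poly.pair hf (Pool.Agent.NPC.Poly.pair hg hk))))

attribute [local fun_prop] pInstr Poly.range_length

theorem pCol {U V : α → List Unit} {h : α → List Outcome} {q j : α → ℕ} (hU : Poly U)
    (hV : Poly V) (hh : Poly h) (hq : Poly q) (hj : Poly j) :
    Poly (fun a => colOf (U a).length (V a).length (h a) (q a) (j a)) := by
  unfold colOf ell
  refine Poly.optGetD (Poly.head? (Poly.filter ?_ ?_)) (by fun_prop)
  · have h1 : Poly (fun a => List.range (U a ++ (V a ++ V a)).length) := by fun_prop
    exact h1.congr fun a => by simp only [List.length_append]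
  · fun_prop

theorem pEntry {U V : α → List Unit} {h : α → List Outcome} {q i j : α → ℕ} (hU : Poly U)
    (hV : Poly V) (hh : Poly h) (hq : Poly q) (hi : Poly i) (hj : Poly j) :
    Poly (fun a => entryInstr (U a).length (V a).length (h a) (q a) (i a) (j a)) := by
  have hc := pCol hU hV hh hq hj
  unfold entryInstr
  obtain ⟨c, hcd⟩ : ∃ c : α → ℕ, c = fun a => colOf (U a).length (V a).length (h a) (q a) (j a) :=
    ⟨_, rfl⟩
  rw [← hcd] at hc
  have e : ∀ a, colOf (U a).length (V a).length (h a) (q a) (j a) = c a := fun a => by rw [hcd]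
  simp only [e]
  fun_prop

theorem pEntryProg {U V : α → List Unit} {h : α → List Outcome} {q : α → ℕ} (hU : Poly U)
    (hV : Poly V) (hh : Poly h) (hq : Poly q) :
    Poly (fun a => entryProg (U a).length (V a).length (h a) (q a)) := by
  unfold entryProg
  refine Poly.flatMap (Poly.range_length hU)
    (Pool.Agent.NPC.Poly.map
      (Pool.Agent.NPC.Poly.range_length (l := fun x : α × ℕ => U x.1) (by fun_prop)) ?_)
  exact pEntry (U := fun y : (α × ℕ) × ℕ => U y.1.1) (V := fun y => V y.1.1)
    (h := fun y => h y.1.1) (q := fun y => q y.1.1) (i := fun y => y.1.2) (j := fun y => y.2)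
    (by fun_prop) (by fun_prop) (by fun_prop) (by fun_prop) (by fun_prop) (by fun_prop)

theorem pInitProg {U : α → List Unit} (hU : Poly U) :
    Poly (fun a => initProg (U a).length) := by
  unfold initProg
  fun_prop

theorem pProdProg {U : α → List Unit} {k : α → ℕ} (hU : Poly U) (hk : Poly k) :
    Poly (fun a => prodProg (U a).length (k a)) := by
  unfold prodProg
  fun_prop

theorem pTraceProg {U : α → List Unit} {k : α → ℕ} (hU : Poly U) (hk : Poly k) :
    Poly (fun a => traceProg (U a).length (k a)) := by
  unfold traceProg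
  fun_prop

theorem pNextProg {U : α → List Unit} {k : α → ℕ} (hU : Poly U) (hk : Poly k) :
    Poly (fun a => nextProg (U a).length (k a)) := by
  unfold nextProg
  fun_prop

theorem pMinorProg {U V : α → List Unit} {h : α → List Outcome} {q : α → ℕ} (hU : Poly U)
    (hV : Poly V) (hh : Poly h) (hq : Poly q) :
    Poly (fun a => minorProg (U a).length (V a).length (h a) (q a)) := by
  unfold minorProg
  refine Poly.append (pEntryProg hU hV hh hq) (Poly.append (pInitProg hU)
    (Poly.append (Poly.flatMap (Poly.range_length hU) ?_) ?_))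
  rotate_left
  · fun_prop
  refine Poly.append (pProdProg (U := fun x : α × ℕ => U x.1) (k := fun x => x.2)
    (by fun_prop) (by fun_prop)) (Poly.append (pTraceProg (U := fun x : α × ℕ => U x.1)
    (k := fun x => x.2) (by fun_prop) (by fun_prop)) (pNextProg (U := fun x : α × ℕ => U x.1)
    (k := fun x => x.2) (by fun_prop) (by fun_prop)))

end TPM

theorem t_PM : S_UP → S_PM := by
  intro _
  exact TPM.pMinorProg (U := fun p : HistIn × ℕ => p.1.1.1) (V := fun p => p.1.1.2)
    (h := fun p => p.1.2) (q := fun p => p.2) (by fun_prop) (by fun_prop) (by fun_prop)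
    (by fun_prop)

end Pool.Agent.H622R3.SM
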