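import Pool.Agent.H622R3.SM.Stm

/-! Task POL (helper166): polynomial bound of the sizes. -/

set_option autoImplicit false

namespace Pool.Agent.H622R3.SM

open Pool.Agent.H558R2

namespace TPOL

theorem pexp_le (m n x : ℕ) (hm : m ≤ x) (hn : n ≤ x) :
    pexp m n ≤ ((x + (x + x) + 1) * x + x + 3) * (x * x + x) := by
  unfold pexp
  gcongr

theorem dep_le (m n x : ℕ) (hm : m ≤ x) (hn : n ≤ x) :
    dep m n ≤ (2 * x + 2 * x + 3) * ((2 * x + 2 * x + 3) *
      (((x + (x + x) + 1) * x + x + 3) * (x * x + x) + 1)) := by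
  unfold dep
  have := pexp_le m n x hm hn
  gcongr

theorem ell_le (m n x : ℕ) (hm : m ≤ x) (hn : n ≤ x) : ell m n ≤ x * (x + (x + x)) := by
  unfold ell
  gcongr

theorem tot_le (m n x : ℕ) (hm : m ≤ x) (hn : n ≤ x) :
    tot m n ≤ (2 * x + 2 * x + 3) * ((2 * x + 2 * x + 3) *
      (((x + (x + x) + 1) * x + x + 3) * (x * x + x) + 1)) * (x * (x + (x + x)) + 1) := by
  unfold tot
  have h1 := dep_le m n x hm hn
  have h2 := ell_le m n x hm hn
  gcongr

open Polynomial in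
/-- the polynomial bounding `tot` -/
noncomputable def TX : Polynomial ℕ :=
  (2 * X + 2 * X + 3) * ((2 * X + 2 * X + 3) *
      (((X + (X + X) + 1) * X + X + 3) * (X * X + X) + 1)) * (X * (X + (X + X)) + 1)

theorem eval_TX (x : ℕ) : TX.eval x = (2 * x + 2 * x + 3) * ((2 * x + 2 * x + 3) *
      (((x + (x + x) + 1) * x + x + 3) * (x * x + x) + 1)) * (x * (x + (x + x)) + 1) := by
  unfold TX
  simp

end TPOL

theorem t_POL : S_POL := by
  refine ⟨TPOL.TX * (12 * Polynomial.X ^ 4 + 1) + 2, ?_⟩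
  intro m n _ _
  have h := TPOL.tot_le m n (m + n) (by omega) (by omega)
  rw [← TPOL.eval_TX] at h
  have e : (TPOL.TX * (12 * Polynomial.X ^ 4 + 1) + 2).eval (m + n) =
      TPOL.TX.eval (m + n) * (12 * (m + n) ^ 4 + 1) + 2 := by
    simp
  rw [e]
  have h2 : m ^ 4 ≤ (m + n) ^ 4 := Nat.pow_le_pow_left (by omega) 4
  constructor
  · have : TPOL.TX.eval (m + n) * 1 ≤ TPOL.TX.eval (m + n) * (12 * (m + n) ^ 4 + 1) :=
      Nat.mul_le_mul_left _ (by omega)
    omega
  · gcongr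

end Pool.Agent.H622R3.SM
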