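import Pool.Agent.H622R3.SM.Stm

set_option autoImplicit false

/-!
# Task PQ: quantifiers and matrix of the oracle are computed in polynomial time
-/

namespace Pool.Agent.H622R3.SM

open Pool.Agent.NPC Pool.Agent.NPC.ER Pool.Agent.NPC.H612 Pool.Agent.H558R2

namespace TPQ

variable {α : Type} [TEnc α]

theorem upoly_sub {m n : α → ℕ} (hm : UPoly m) (hn : Poly n) : UPoly (fun a => m a - n a) :=
  UPoly.of_le (NPC.Poly.sub hm.toPoly hn) hm fun _ => Nat.sub_le _ _

theorem u_rest (hU : S_UP) :
    UPoly (fun p : HistIn => tot p.1.1.length p.1.2.length - (p.2.length + 1)) :=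
  upoly_sub hU.2.2 (NPC.Poly.add (NPC.Poly.length (NPC.Poly.snd NPC.Poly.id)) (NPC.Poly.const 1))

/-- the test whether the position `h.length + 1 + i` is a bit of a description -/
theorem poly_isbit (hU : S_UP) : Poly (fun p : HistIn × ℕ =>
    decide ((p.1.2.length + 1 + p.2) % (ell p.1.1.1.length p.1.1.2.length + 1) <
      ell p.1.1.1.length p.1.1.2.length)) := by
  have hell : Poly (fun p : HistIn × ℕ => ell p.1.1.1.length p.1.1.2.length) :=
    NPC.Poly.comp (f := fun p : HistIn × ℕ => p.1) hU.1.toPoly (NPC.Poly.fst NPC.Poly.id)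
  have hlen : Poly (fun p : HistIn × ℕ => p.1.2.length) :=
    NPC.Poly.length (NPC.Poly.snd (NPC.Poly.fst NPC.Poly.id))
  exact NPC.Poly.decide_lt (NPC.Poly.mod (NPC.Poly.add (NPC.Poly.add hlen (NPC.Poly.const 1))
    (NPC.Poly.snd NPC.Poly.id)) (NPC.Poly.add hell (NPC.Poly.const 1))) hell

theorem poly_quants (hU : S_UP) :
    Poly (fun p : HistIn => quants p.1.1.length p.1.2.length p.2) := by
  unfold quants
  exact NPC.Poly.flatMap (F := fun (p : HistIn) i =>
    [decide ((p.2.length + 1 + i) % (ell p.1.1.length p.1.2.length + 1) <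
      ell p.1.1.length p.1.2.length),
      decide ((p.2.length + 1 + i) % (ell p.1.1.length p.1.2.length + 1) <
      ell p.1.1.length p.1.2.length)]) (u_rest hU).range
    (NPC.Poly.cons (poly_isbit hU) (NPC.Poly.cons (poly_isbit hU) (NPC.Poly.const [])))

theorem poly_outc {a b b' : α → Bool} (ha : Poly a) (hb : Poly b) (hb' : Poly b') :
    Poly (fun x => outc (a x) (b x) (b' x)) := by
  unfold outc
  exact NPC.Poly.ite (NPC.Poly.decide_bool ha) (NPC.Poly.some hb')
    (NPC.Poly.ite (NPC.Poly.decide_bool hb) (NPC.Poly.some hb') (NPC.Poly.const none))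

theorem poly_full (hU : S_UP) :
    Poly (fun p : HistIn × List Bool => full p.1.1.1.length p.1.1.2.length p.1.2 p.2) := by
  unfold full
  have hh : Poly (fun p : HistIn × List Bool => p.1.2) := NPC.Poly.snd (NPC.Poly.fst NPC.Poly.id)
  refine NPC.Poly.append (NPC.Poly.append hh (NPC.Poly.const [some false])) ?_
  have hr : Poly (fun p : HistIn × List Bool =>
      List.range (tot p.1.1.1.length p.1.1.2.length - (p.1.2.length + 1))) :=
    NPC.Poly.comp (f := fun p : HistIn × List Bool => p.1) (u_rest hU).range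
      (NPC.Poly.fst NPC.Poly.id)
  refine NPC.Poly.map (F := fun (p : HistIn × List Bool) i =>
      outc (decide ((p.1.2.length + 1 + i) % (ell p.1.1.1.length p.1.1.2.length + 1) <
        ell p.1.1.1.length p.1.1.2.length)) (p.2.getD (2 * i) false)
      (p.2.getD (2 * i + 1) false)) hr ?_
  have hv : Poly (fun x : (HistIn × List Bool) × ℕ => x.1.2) :=
    NPC.Poly.snd (NPC.Poly.fst NPC.Poly.id)
  have hi : Poly (fun x : (HistIn × List Bool) × ℕ => x.2) := NPC.Poly.snd NPC.Poly.id
  have h2i : Poly (fun x : (HistIn × List Bool) × ℕ => 2 * x.2) :=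
    NPC.Poly.mul (NPC.Poly.const 2) hi
  refine poly_outc ?_ (NPC.Poly.getD hv h2i (NPC.Poly.const false))
    (NPC.Poly.getD hv (NPC.Poly.add h2i (NPC.Poly.const 1)) (NPC.Poly.const false))
  exact NPC.Poly.comp (f := fun x : (HistIn × List Bool) × ℕ => (x.1.1, x.2)) (poly_isbit hU)
    (NPC.Poly.pair (NPC.Poly.fst (NPC.Poly.fst NPC.Poly.id)) hi)

theorem poly_matrixFm (hU : S_UP) (hF : S_PF) : Poly (fun p : HistIn × List Bool =>
    matrixFm p.1.1.1.length p.1.1.2.length p.1.2 p.2) := by
  unfold matrixFm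
  have hlen : Poly (fun p : HistIn × List Bool => p.1.2.length) :=
    NPC.Poly.length (NPC.Poly.snd (NPC.Poly.fst NPC.Poly.id))
  have htot : Poly (fun p : HistIn × List Bool => tot p.1.1.1.length p.1.1.2.length) :=
    NPC.Poly.comp (f := fun p : HistIn × List Bool => p.1) hU.2.2.toPoly
      (NPC.Poly.fst NPC.Poly.id)
  refine NPC.Poly.ite (NPC.Poly.decide_lt hlen htot) ?_ ?_
  · have h1 : Poly (fun p : HistIn × List Bool =>
        ((p.1.1, full p.1.1.1.length p.1.1.2.length p.1.2 p.2) : HistIn)) :=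
      NPC.Poly.pair (NPC.Poly.fst (NPC.Poly.fst NPC.Poly.id)) (poly_full hU)
    have h2 := NPC.Poly.comp hF.1 h1
    exact h2
  · have h1 : Poly (fun p : HistIn × List Bool => p.1) := NPC.Poly.fst NPC.Poly.id
    have h2 := NPC.Poly.comp hF.2 h1
    exact h2

end TPQ

open TPQ in
theorem t_PQ (hU : S_UP) (hF : S_PF) : S_PQ := by
  constructor
  · refine (NPC.Poly.optElim (g := fun _ => ([] : List Bool))
      (h := fun (_ : List Bool) (p : HistIn) => quants p.1.1.length p.1.2.length p.2)
      (poly_unbits (α := HistIn)) (NPC.Poly.const [])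
      (NPC.Poly.comp (f := fun x : List Bool × HistIn => x.2) (poly_quants hU)
        (NPC.Poly.snd NPC.Poly.id))).congr fun w => ?_
    unfold qsO
    cases unbits HistIn w <;> rfl
  · have h1 : Poly (fun p : List Bool × List Bool => unbits HistIn p.1) :=
      NPC.Poly.comp (f := fun p : List Bool × List Bool => p.1) (poly_unbits (α := HistIn))
        (NPC.Poly.fst NPC.Poly.id)
    refine (NPC.Poly.optElim (g := fun _ => Fm.lt Tm.zero Tm.zero)
      (h := fun (p : List Bool × List Bool) (q : HistIn) =>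
        matrixFm q.1.1.length q.1.2.length q.2 p.2) h1 (NPC.Poly.const _)
      (NPC.Poly.comp (f := fun x : (List Bool × List Bool) × HistIn => (x.2, x.1.2))
        (poly_matrixFm hU hF)
        (NPC.Poly.pair (NPC.Poly.snd NPC.Poly.id)
          (NPC.Poly.snd (NPC.Poly.fst NPC.Poly.id))))).congr fun p => ?_
    unfold fO
    cases unbits HistIn p.1 <;> rfl

end Pool.Agent.H622R3.SM
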