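import Pool.Agent.H622R3.SM.Stm

set_option autoImplicit false

/-!
# Quantifiers and game
-/

namespace Pool.Agent.H622R3.SM

open Pool.Agent.NPC Pool.Agent.NPC.ER Pool.Agent.NPC.H612 Pool.Agent.H558R2

namespace TQ

/-- Type of the position number `i` after the history `g`. -/
def d (l : ℕ) (g : List Outcome) (i : ℕ) : Bool := decide ((g.length + i) % (l + 1) < l)

/-- The outcomes described by `v`. -/
def F (l : ℕ) (g : List Outcome) (k : ℕ) (v : List Bool) : List Outcome :=
  (List.range k).map fun i => outc (d l g i) (v.getD (2 * i) false) (v.getD (2 * i + 1) false)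

theorem d_succ (l : ℕ) (g : List Outcome) (s : Outcome) (i : ℕ) :
    d l (g ++ [s]) i = d l g (i + 1) := by
  unfold d
  rw [List.length_append, List.length_singleton]
  have e : g.length + 1 + i = g.length + (i + 1) := by ring
  rw [e]

theorem F_succ (l : ℕ) (g : List Outcome) (s : Outcome) (k : ℕ) (b b' : Bool) (v : List Bool) :
    F l g (k + 1) (b :: b' :: v) = outc (d l g 0) b b' :: F l (g ++ [s]) k v := by
  unfold F
  rw [List.range_succ_eq_map, List.map_cons, List.map_map]
  refine congrArg₂ _ rfl ?_
  apply List.map_congr_left
  intro i _
  rw [d_succ]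
  rfl

theorem q_succ (l : ℕ) (g : List Outcome) (s : Outcome) (k : ℕ) :
    ((List.range (k + 1)).flatMap fun i => [d l g i, d l g i]) =
      d l g 0 :: d l g 0 :: ((List.range k).flatMap fun i => [d l (g ++ [s]) i, d l (g ++ [s]) i]) := by
  rw [List.range_succ_eq_map, List.flatMap_cons, List.flatMap_map]
  simp only [d_succ]
  rfl

theorem gen (m n : ℕ) (k : ℕ) : ∀ g : List Outcome,
    QTrue ((List.range k).flatMap fun i => [d (ell m n) g i, d (ell m n) g i])
      (fun v => Both m n (g ++ F (ell m n) g k v)) ↔ ¬ Win m n k g := by
  induction k with
  | zero =>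
    intro g
    have e : (g ++ F (ell m n) g 0 []) = g := by simp [F]
    change Both m n (g ++ F (ell m n) g 0 []) ↔ ¬ ¬ Both m n g
    rw [e, not_not]
  | succ k ih =>
    intro g
    rw [q_succ _ _ none]
    have hq : ((List.range k).flatMap fun i => [d (ell m n) (g ++ [none]) i, d (ell m n) (g ++ [none]) i]) =
        ((List.range k).flatMap fun i => [d (ell m n) g (i + 1), d (ell m n) g (i + 1)]) := by
      simp only [d_succ]
    have step : ∀ b b' : Bool,
        (QTrue ((List.range k).flatMap fun i =>
            [d (ell m n) (g ++ [none]) i, d (ell m n) (g ++ [none]) i])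
          (fun v => Both m n (g ++ F (ell m n) g (k + 1) (b :: b' :: v))) ↔
        ¬ Win m n k (g ++ [outc (d (ell m n) g 0) b b'])) := by
      intro b b'
      rw [← ih (g ++ [outc (d (ell m n) g 0) b b'])]
      have e1 : ((List.range k).flatMap fun i => [d (ell m n) (g ++ [none]) i,
          d (ell m n) (g ++ [none]) i]) = ((List.range k).flatMap fun i =>
            [d (ell m n) (g ++ [outc (d (ell m n) g 0) b b']) i,
              d (ell m n) (g ++ [outc (d (ell m n) g 0) b b']) i]) := by
        simp only [d_succ]
      rw [e1]
      have e2 : (fun v => Both m n (g ++ F (ell m n) g (k + 1) (b :: b' :: v))) =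
          (fun v => Both m n ((g ++ [outc (d (ell m n) g 0) b b']) ++
            F (ell m n) (g ++ [outc (d (ell m n) g 0) b b']) k v)) := by
        funext v
        rw [F_succ _ _ (outc (d (ell m n) g 0) b b'), List.append_assoc, List.singleton_append]
      rw [e2]
    by_cases hd : g.length % (ell m n + 1) < ell m n
    · have hd' : d (ell m n) g 0 = true := by
        unfold d
        rw [Nat.add_zero]
        exact decide_eq_true hd
      rw [hd'] at step ⊢
      change (∀ b b' : Bool, QTrue _ _) ↔ _
      rw [Win, if_pos hd, not_exists]
      constructor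
      · intro h b'
        have := (step true b').1 (h true b')
        simpa [outc] using this
      · intro h b b'
        refine (step b b').2 ?_
        simpa [outc] using h b'
    · have hd' : d (ell m n) g 0 = false := by
        unfold d
        rw [Nat.add_zero]
        exact decide_eq_false hd
      rw [hd'] at step ⊢
      change (∃ b b' : Bool, QTrue _ _) ↔ _
      rw [Win, if_neg hd, not_forall]
      constructor
      · rintro ⟨b, b', h⟩
        exact ⟨_, (step b b').1 h⟩
      · rintro ⟨s, h⟩
        rcases s with _ | s
        · exact ⟨false, false, (step false false).2 (by simpa [outc] using h)⟩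
        · exact ⟨true, s, (step true s).2 (by simpa [outc] using h)⟩

end TQ

/-- Q: the quantifiers of the oracle describe the game. -/
theorem t_Q : S_BOTH → S_Q := by
  intro hB m n h hm _
  have hP : (fun v => ETR (bothFm m n (full m n h v))) =
      (fun v => Both m n ((h ++ [some false]) ++
        TQ.F (ell m n) (h ++ [some false]) (tot m n - (h.length + 1)) v)) := by
    funext v
    rw [(hB m n (full m n h v) hm).1]
    unfold full TQ.F TQ.d
    simp only [List.length_append, List.length_singleton]
  have hq : quants m n h = ((List.range (tot m n - (h.length + 1))).flatMap fun i =>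
      [TQ.d (ell m n) (h ++ [some false]) i, TQ.d (ell m n) (h ++ [some false]) i]) := by
    unfold quants TQ.d
    simp only [List.length_append, List.length_singleton]
  rw [hP, hq]
  exact TQ.gen m n _ _

end Pool.Agent.H622R3.SM
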