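import Pool.Agent.H622R3.SM.Stm

set_option autoImplicit false

/-!
# The run of the algorithm (helper265)
-/

namespace Pool.Agent.H622R3.SM

open Pool.Agent.NPC Pool.Agent.NPC.ER Pool.Agent.NPC.H612 Pool.Agent.H558R2

namespace TRUN

/-- The recorded signs of the minors determined so far are those of the input `a`. -/
def PCons (m n : ℕ) (h : List Outcome) (a : Inp m n) : Prop :=
  ∀ q, (q + 1) * (ell m n + 1) ≤ h.length →
    signOut (dd (wmat a.1 a.2) (beta m n h q)) = recd m n h q

theorem run_ask (O : Set (List Bool)) (α : List Outcome → List Instr × Test) (k : ℕ)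
    (h : List Outcome) (ρ : Reg → ℝ) (w : List Bool) (hα : α h = ([], Test.ask w))
    (b : Bool) (hb : b = true ↔ w ∈ O)
    (ans : Bool) (nums : List ℝ) (steps : ℕ)
    (hr : run O α k (h ++ [some b]) ρ = some (ans, nums, steps)) :
    run O α (k + 1) h ρ = some (ans, nums, 1 + steps) := by
  classical
  have hb' : b = decide (w ∈ O) := by
    rw [Bool.eq_iff_iff, hb]; simp
  subst hb'
  simp only [run, hα, exec, Option.bind_some]
  rw [hr]
  simp

theorem run_sign (O : Set (List Bool)) (α : List Outcome → List Instr × Test) (k : ℕ)
    (h : List Outcome) (ρ ρ' : Reg → ℝ) (P : List Instr) (l : List ℝ) (x : Reg)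
    (hα : α h = (P, Test.sign x)) (hP : exec P ρ = some (ρ', l))
    (ans : Bool) (nums : List ℝ) (steps : ℕ)
    (hr : run O α k (h ++ [signOut (ρ' x)]) ρ' = some (ans, nums, steps)) :
    run O α (k + 1) h ρ = some (ans, l ++ nums, l.length + 1 + steps) := by
  simp only [run, hα, hP, Option.bind_some]
  rw [hr]
  simp

theorem run_answer (O : Set (List Bool)) (α : List Outcome → List Instr × Test) (k : ℕ)
    (h : List Outcome) (ρ : Reg → ℝ) (b : Bool) (hα : α h = ([], Test.answer b)) :
    run O α (k + 1) h ρ = some (b, [], 0) := by
  simp only [run, hα, exec, Option.bind_some]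
  simp

theorem main (hO : S_ORA) (hM : S_MINOR) (hL : S_LEN) (hS : S_STAB) (m n : ℕ) (a : Inp m n)
    (hm : 1 ≤ m) : ∀ (r : ℕ) (h : List Outcome) (k : ℕ) (ρ : Reg → ℝ), h.length + r = tot m n →
      r + 2 ≤ k → Win m n r h → PCons m n h a → (∀ x ∈ baseReg, ρ x = start a.1 a.2 x) →
      ∃ ans nums steps, run oracle (smale m n) k h ρ = some (ans, nums, steps) ∧
        (ans = true ↔ Feas a) ∧ steps ≤ r * (12 * m ^ 4 + 1) + 2 := by
  intro r
  induction r with
  | zero =>
    intro h k ρ hlen hk hwin hpc _
    obtain ⟨k, rfl⟩ : ∃ k', k = k' + 1 + 1 := ⟨k - 2, by omega⟩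
    have hlen' : h.length = tot m n := by omega
    have hcons : Cons m n h a := by
      intro q hq
      apply hpc
      rw [hlen', tot]
      exact Nat.mul_le_mul_right _ hq
    have hα1 : smale m n h = ([], Test.ask (question m n h)) := by
      unfold smale
      rw [if_neg (by omega), if_pos hlen']
    classical
    have hα2 : smale m n (h ++ [some (decide (question m n h ∈ oracle))]) =
        ([], Test.answer (decide (question m n h ∈ oracle))) := by
      unfold smale
      rw [if_neg (by simp; omega), if_neg (by simp; omega)]
      simp
    refine ⟨decide (question m n h ∈ oracle), [], 1 + 0, ?_, ?_, by omega⟩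
    · apply run_ask _ _ _ _ _ _ hα1 (decide (question m n h ∈ oracle)) (by simp)
      exact run_answer _ _ _ _ _ _ hα2
    · rw [decide_eq_true_iff, (hO m n h hm).2 hlen']
      constructor
      · rintro ⟨a', ha', hf'⟩
        by_contra hf
        exact hwin ⟨⟨a', ha', hf'⟩, ⟨a, hcons, hf⟩⟩
      · intro hf
        exact ⟨a, hcons, hf⟩
  | succ r ih =>
    intro h k ρ hlen hk hwin hpc hρ
    obtain ⟨k, rfl⟩ : ∃ k', k = k' + 1 := ⟨k - 1, by omega⟩
    have hlt : h.length < tot m n := by omega
    by_cases hmod : h.length % (ell m n + 1) < ell m n
    · -- a question to the oracle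
      have hα : smale m n h = ([], Test.ask (question m n h)) := by
        unfold smale
        rw [if_pos hlt, if_pos hmod]
      have hr : tot m n - (h.length + 1) = r := by omega
      have hor := (hO m n h hm).1 hlt
      rw [hr] at hor
      have hwin' : ∃ b : Bool, Win m n r (h ++ [some b]) := by
        simpa only [Win, if_pos hmod] using hwin
      classical
      have hw : Win m n r (h ++ [some (decide (question m n h ∈ oracle))]) := by
        by_cases hq : question m n h ∈ oracle
        · rw [decide_eq_true hq]
          have hnf := hor.1 hq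
          obtain ⟨b, hb⟩ := hwin'
          cases b with
          | true => exact hb
          | false => exact absurd hb hnf
        · rw [decide_eq_false hq]
          by_contra hc
          exact hq (hor.2 hc)
      have hpc' : PCons m n (h ++ [some (decide (question m n h ∈ oracle))]) a := by
        intro q hq
        have hq' : (q + 1) * (ell m n + 1) ≤ h.length := by
          by_contra hc
          have he : (q + 1) * (ell m n + 1) = h.length + 1 := by
            simp only [List.length_append, List.length_cons, List.length_nil] at hq
            omega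
          have : h.length = ell m n + (ell m n + 1) * q := by
            have : (q + 1) * (ell m n + 1) = (ell m n + 1) * q + (ell m n + 1) := by ring
            omega
          rw [this, Nat.add_mul_mod_self_left, Nat.mod_eq_of_lt (by omega)] at hmod
          omega
        have h1 : q * (ell m n + 1) + ell m n ≤ h.length := by
          have : (q + 1) * (ell m n + 1) = q * (ell m n + 1) + (ell m n + 1) := by ring
          omega
        rw [((hS m n h _ q).1 h1).1, (hS m n h _ q).2 hq']
        exact hpc q hq'
      obtain ⟨ans, nums, steps, hrun, hans, hst⟩ :=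
        ih (h ++ [some (decide (question m n h ∈ oracle))]) k ρ (by simp; omega) (by omega) hw hpc' hρ
      refine ⟨ans, nums, 1 + steps, ?_, hans, ?_⟩
      · exact run_ask _ _ _ _ _ _ hα _ (by simp) _ _ _ hrun
      · have : (r + 1) * (12 * m ^ 4 + 1) = r * (12 * m ^ 4 + 1) + (12 * m ^ 4 + 1) := by ring
        omega
    · -- the sign of a minor
      have hα : smale m n h =
          (minorProg m n h (h.length / (ell m n + 1)), Test.sign [11]) := by
        unfold smale
        rw [if_pos hlt, if_neg hmod]
      obtain ⟨q, hqdef⟩ : ∃ q, q = h.length / (ell m n + 1) := ⟨_, rfl⟩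
      rw [← hqdef] at hα
      have hmod' : h.length % (ell m n + 1) = ell m n := by
        have := Nat.mod_lt h.length (Nat.succ_pos (ell m n))
        simp only [Nat.succ_eq_add_one] at this
        omega
      have hlenq : h.length = q * (ell m n + 1) + ell m n := by
        have := Nat.div_add_mod h.length (ell m n + 1)
        rw [hmod', ← hqdef] at this
        rw [← this]; ring
      obtain ⟨ρ', hex, hbase, h11⟩ := hM m n h q a ρ hm hρ
      have hwin' : ∀ s : Outcome, Win m n r (h ++ [s]) := by
        simpa only [Win, if_neg hmod] using hwin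
      have hpc' : PCons m n (h ++ [signOut (ρ' [11])]) a := by
        intro q' hq'
        simp only [List.length_append, List.length_cons, List.length_nil] at hq'
        have hle : q' ≤ q := by
          by_contra hc
          have : (q + 1 + 1) * (ell m n + 1) ≤ (q' + 1) * (ell m n + 1) :=
            Nat.mul_le_mul_right _ (by omega)
          have e : (q + 1 + 1) * (ell m n + 1) = q * (ell m n + 1) + 2 * (ell m n + 1) := by ring
          omega
        rcases Nat.lt_or_eq_of_le hle with hlt' | rfl
        · have hq'' : (q' + 1) * (ell m n + 1) ≤ h.length := by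
            have : (q' + 1) * (ell m n + 1) ≤ q * (ell m n + 1) := Nat.mul_le_mul_right _ hlt'
            omega
          have h1 : q' * (ell m n + 1) + ell m n ≤ h.length := by
            have : (q' + 1) * (ell m n + 1) = q' * (ell m n + 1) + (ell m n + 1) := by ring
            omega
          rw [((hS m n h _ q').1 h1).1, (hS m n h _ q').2 hq'']
          exact hpc q' hq''
        · rw [((hS m n h _ q').1 (le_of_eq hlenq.symm)).1, ← h11]
          unfold recd
          rw [← hlenq]
          simp
      obtain ⟨ans, nums, steps, hrun, hans, hst⟩ :=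
        ih (h ++ [signOut (ρ' [11])]) k ρ' (by simp; omega) (by omega) (hwin' _) hpc' hbase
      refine ⟨ans, _, _, run_sign _ _ _ _ _ _ _ _ _ hα hex _ _ _ hrun, hans, ?_⟩
      have hl := hL m n h q hm
      have : (r + 1) * (12 * m ^ 4 + 1) = r * (12 * m ^ 4 + 1) + (12 * m ^ 4 + 1) := by ring
      simp only [List.length_map]
      omega

end TRUN

theorem t_RUN : S_ORA → S_MINOR → S_LEN → S_STAB → S_WIN → S_RUN := by
  intro hO hM hL hS hW m n a k hm hk
  apply TRUN.main hO hM hL hS m n a hm (tot m n) [] k _ (by simp) hk (hW m n hm)
  · intro q hq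
    simp at hq
  · intro x _
    rfl

end Pool.Agent.H622R3.SM
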