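import Pool.Agent.H622R3.SM.Stm

set_option autoImplicit false

/-!
# Task SMALL: the numbers are small
-/

namespace Pool.Agent.H622R3.SM

open Pool.Agent.NPC Pool.Agent.NPC.ER Pool.Agent.NPC.H612 Pool.Agent.H558R2

namespace TSMALL

variable {m n : ℕ}

/-- The instance given by a valuation. -/
def toInp (x : Idx m n → ℝ) : Inp m n :=
  (fun i j => x (Sum.inl (i, j)), fun i => x (Sum.inr i))

theorem val_toInp (x : Idx m n → ℝ) : val (toInp x) = x := by
  ext k
  rcases k with p | i <;> rfl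

theorem EM_toInp (h : List Outcome) (q : ℕ) (x : Idx m n → ℝ) :
    EM m n h q (toInp x) = Bm (beta m n h q) x := by
  unfold EM
  rw [val_toInp]

theorem ent_lt {m : ℕ} (M : Matrix (Fin m) (Fin m) ℝ) {i j : ℕ} (hi : i < m) (hj : j < m) :
    ent M i j = M ⟨i, hi⟩ ⟨j, hj⟩ := by
  unfold ent
  rw [dif_pos ⟨hi, hj⟩]

section Bounds

variable {D H : ℕ} {X : Idx m n → ℤ} (hD : 1 ≤ D) (hDH : D ≤ H) (hX : ∀ i, |X i| ≤ H)
  (h : List Outcome) (q : ℕ)

include hD hDH hX

theorem b4 {i j : ℕ} (hi : i < m) (hj : j < m) :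
    IB (ent (EM m n h q (toInp fun i => (X i : ℝ) / D)) i j) D H := by
  rw [EM_toInp, ent_lt _ hi hj]
  exact ib_Ef (beta m n h q) hD hDH hX _ _

theorem b6 (hm : 1 ≤ m) {k : ℕ} (hk : k ≤ m) {i j : ℕ} (hi : i < m) (hj : j < m) :
    IB (ent (flN (EM m n h q (toInp fun i => (X i : ℝ) / D)) k) i j) (k.factorial * D ^ k)
      ((2 * m ^ 3 * H) ^ k) := by
  rw [EM_toInp, ent_lt _ hi hj]
  exact ib_Nf (beta m n h q) hD hDH hX hm k hk _ _

theorem b7 (hm : 1 ≤ m) {k : ℕ} (hk : k ≤ m) {i j l : ℕ} (hi : i < m) (hj : j < m) (hl : l < m) :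
    IB (ent (EM m n h q (toInp fun i => (X i : ℝ) / D)) i l *
      ent (flN (EM m n h q (toInp fun i => (X i : ℝ) / D)) k) l j)
      (k.factorial * D ^ (k + 1)) (H * (2 * m ^ 3 * H) ^ k) := by
  have h1 := (b4 hD hDH hX h q hi hl).mul (b6 hD hDH hX h q hm hk hl hj)
  have e : D * (k.factorial * D ^ k) = k.factorial * D ^ (k + 1) := by ring
  rwa [e] at h1

theorem b8 (hm : 1 ≤ m) {k : ℕ} (hk : k ≤ m) {i j l : ℕ} (hi : i < m) (hj : j < m) (hl : l ≤ m) :
    IB (∑ l' ∈ Finset.range l, ent (EM m n h q (toInp fun i => (X i : ℝ) / D)) i l' *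
      ent (flN (EM m n h q (toInp fun i => (X i : ℝ) / D)) k) l' j)
      (k.factorial * D ^ (k + 1)) (m * (H * (2 * m ^ 3 * H) ^ k)) := by
  refine (IB.sum (Finset.range l) fun l' hl' => b7 hD hDH hX h q hm hk hi hj
    (lt_of_lt_of_le (Finset.mem_range.1 hl') hl)).mono ?_
  rw [Finset.card_range]
  exact Nat.mul_le_mul_right _ hl

theorem b9 (hm : 1 ≤ m) {k : ℕ} (hk : k ≤ m) {i : ℕ} (hi : i ≤ m) :
    IB (∑ i' ∈ Finset.range i, ∑ l' ∈ Finset.range m,
      ent (EM m n h q (toInp fun i => (X i : ℝ) / D)) i' l' *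
      ent (flN (EM m n h q (toInp fun i => (X i : ℝ) / D)) k) l' i')
      (k.factorial * D ^ (k + 1)) (m * (m * (H * (2 * m ^ 3 * H) ^ k))) := by
  refine (IB.sum (Finset.range i) fun i' hi' => b8 hD hDH hX h q hm hk
    (lt_of_lt_of_le (Finset.mem_range.1 hi') hi) (lt_of_lt_of_le (Finset.mem_range.1 hi') hi)
    le_rfl).mono ?_
  rw [Finset.card_range]
  exact Nat.mul_le_mul_right _ hi

theorem b10 (hm : 1 ≤ m) {k : ℕ} (hk : k ≤ m) :
    IB ((∑ i' ∈ Finset.range m, ∑ l' ∈ Finset.range m,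
      ent (EM m n h q (toInp fun i => (X i : ℝ) / D)) i' l' *
      ent (flN (EM m n h q (toInp fun i => (X i : ℝ) / D)) k) l' i') / ((k : ℝ) + 1))
      ((k + 1).factorial * D ^ (k + 1)) (m * (m * (H * (2 * m ^ 3 * H) ^ k))) := by
  have h1 := (b9 hD hDH hX h q hm hk (le_refl m)).div (k + 1) (by omega)
  have e : k.factorial * D ^ (k + 1) * (k + 1) = (k + 1).factorial * D ^ (k + 1) := by
    rw [Nat.factorial_succ]; ring
  rw [e] at h1
  push_cast at h1
  exact h1

end Bounds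

/-- A function with a bound of the standard form is small. -/
theorem small_of (hm : 1 ≤ m) (f : Fn (Idx m n)) (c e k : ℕ) (hc : c ≤ m) (he : e ≤ m)
    (hk : k + 1 ≤ m)
    (hf : ∀ (D H : ℕ) (X : Idx m n → ℤ), 1 ≤ D → D ≤ H → (∀ i, |X i| ≤ H) →
      IB (f (fun i => (X i : ℝ) / D)) (c.factorial * D ^ e)
        (m * (m * (H * (2 * m ^ 3 * H) ^ k)))) : SmallVal f := by
  intro D H X hD hDH hX
  have hb := big_E hD hDH hm c e hc he
  exact ⟨_, hb.1, hb.2, (hf D H X hD hDH hX).mono (big_B hD hDH hm k hk)⟩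

theorem le_mm (hm : 1 ≤ m) (a : ℕ) : a ≤ m * (m * a) := by
  calc a = 1 * (1 * a) := by ring
    _ ≤ m * (m * a) := Nat.mul_le_mul hm (Nat.mul_le_mul_right _ hm)

theorem le_m (hm : 1 ≤ m) (a : ℕ) : a ≤ m * a := by
  calc a = 1 * a := by ring
    _ ≤ m * a := Nat.mul_le_mul_right _ hm

variable (h : List Outcome) (q : ℕ)

theorem s4 (hm : 1 ≤ m) {i j : ℕ} (hi : i < m) (hj : j < m) :
    SmallVal (fun x : Idx m n → ℝ => vreg m n h q (toInp x) [4, i, j]) := by
  refine small_of hm _ 0 1 0 (by omega) hm hm fun D H X hD hDH hX => ?_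
  have h1 := (b4 hD hDH hX h q hi hj).mono (le_mm hm H)
  simpa [vreg] using h1

theorem s5 (hm : 1 ≤ m) {k : ℕ} (hk : k ≤ m) :
    SmallVal (fun x : Idx m n → ℝ => vreg m n h q (toInp x) [5, k]) := by
  have h1 := small_cf (m := m) (n := n) hm k hk
  exact h1

theorem s6 (hm : 1 ≤ m) {k : ℕ} (hk : k ≤ m) {i j : ℕ} (hi : i < m) (hj : j < m) :
    SmallVal (fun x : Idx m n → ℝ => vreg m n h q (toInp x) [6, k, i, j]) := by
  intro D H X hD hDH hX
  have hb := big_E hD hDH hm k k hk hk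
  refine ⟨_, hb.1, hb.2, (b6 hD hDH hX h q hm hk hi hj).mono ?_⟩
  unfold big
  apply Nat.pow_le_pow_right _ (by omega)
  have : 1 ≤ m ^ 3 := Nat.one_le_pow _ _ hm
  exact Nat.mul_pos (by omega) (hD.trans hDH)

theorem s7 (hm : 1 ≤ m) {k : ℕ} (hk : k < m) {i j l : ℕ} (hi : i < m) (hj : j < m)
    (hl : l < m) :
    SmallVal (fun x : Idx m n → ℝ => vreg m n h q (toInp x) [7, k, i, j, l]) :=
  small_of hm _ k (k + 1) k hk.le hk hk fun _ _ _ hD hDH hX =>
    (b7 hD hDH hX h q hm hk.le hi hj hl).mono (le_mm hm _)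

theorem s8 (hm : 1 ≤ m) {k : ℕ} (hk : k < m) {i j l : ℕ} (hi : i < m) (hj : j < m)
    (hl : l ≤ m) :
    SmallVal (fun x : Idx m n → ℝ => vreg m n h q (toInp x) [8, k, i, j, l]) :=
  small_of hm _ k (k + 1) k hk.le hk hk fun _ _ _ hD hDH hX =>
    (b8 hD hDH hX h q hm hk.le hi hj hl).mono (le_m hm _)

theorem s9 (hm : 1 ≤ m) {k : ℕ} (hk : k < m) {i : ℕ} (hi : i ≤ m) :
    SmallVal (fun x : Idx m n → ℝ => vreg m n h q (toInp x) [9, k, i]) :=
  small_of hm _ k (k + 1) k hk.le hk hk fun _ _ _ hD hDH hX =>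
    b9 hD hDH hX h q hm hk.le hi

theorem s10 (hm : 1 ≤ m) {k : ℕ} (hk : k < m) :
    SmallVal (fun x : Idx m n → ℝ => vreg m n h q (toInp x) [10, k]) :=
  small_of hm _ (k + 1) (k + 1) k hk hk hk fun _ _ _ hD hDH hX =>
    b10 hD hDH hX h q hm hk.le

theorem s11 (hm : 1 ≤ m) :
    SmallVal (fun x : Idx m n → ℝ => vreg m n h q (toInp x) [11]) := by
  refine small_of hm _ (m - 1 + 1) (m - 1 + 1) (m - 1) (by omega) (by omega) (by omega)
    fun D H X hD hDH hX => ?_
  have hN := ib_Nf (beta m n h q) hD hDH hX hm (m - 1) (by omega)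
  have h1 := (IB.zero ((m - 1 + 1).factorial * D ^ (m - 1 + 1)) 0).sub
    (ib_Qf (beta m n h q) hD hDH hX (m - 1) hN)
  rw [zero_add, ← Df_eq (beta m n h q) hm] at h1
  exact h1

theorem small_all (hm : 1 ≤ m) : ∀ I ∈ minorProg m n h q,
    SmallVal (fun x : Idx m n → ℝ => vreg m n h q (toInp x) I.dst) := by
  intro I hI
  unfold minorProg at hI
  rw [List.mem_append, List.mem_append, List.mem_append] at hI
  rcases hI with hI | hI | hI | hI
  · -- entries
    unfold entryProg at hI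
    simp only [List.mem_flatMap, List.mem_map, List.mem_range] at hI
    obtain ⟨i, hi, j, hj, rfl⟩ := hI
    have e : (entryInstr m n h q i j).dst = [4, i, j] := by
      unfold entryInstr
      split_ifs <;> rfl
    rw [e]
    exact s4 h q hm hi hj
  · -- initial matrix
    unfold initProg at hI
    simp only [List.mem_cons, List.mem_flatMap, List.mem_map, List.mem_range] at hI
    rcases hI with rfl | ⟨i, hi, j, hj, rfl⟩
    · exact s5 h q hm (Nat.zero_le m)
    · exact s6 h q hm (Nat.zero_le m) hi hj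
  · -- rounds
    simp only [List.mem_flatMap, List.mem_append, List.mem_range] at hI
    obtain ⟨k, hk, hI | hI | hI⟩ := hI
    · unfold prodProg at hI
      simp only [List.mem_cons, List.mem_flatMap, List.mem_range, List.not_mem_nil,
        or_false] at hI
      obtain ⟨i, hi, j, hj, rfl | ⟨l, hl, rfl | rfl⟩⟩ := hI
      · exact s8 h q hm hk hi hj (Nat.zero_le m)
      · exact s7 h q hm hk hi hj hl
      · exact s8 h q hm hk hi hj hl
    · unfold traceProg at hI
      simp only [List.cons_append, List.mem_cons, List.mem_append, List.mem_map, List.mem_range,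
        List.not_mem_nil, or_false] at hI
      rcases hI with rfl | ⟨i, hi, rfl⟩ | rfl | rfl
      · exact s9 h q hm hk (Nat.zero_le m)
      · exact s9 h q hm hk hi
      · exact s5 h q hm hk
      · exact s10 h q hm hk
    · unfold nextProg at hI
      simp only [List.mem_flatMap, List.mem_map, List.mem_range] at hI
      obtain ⟨i, hi, j, hj, rfl⟩ := hI
      exact s6 h q hm hk hi hj
  · rw [List.mem_singleton] at hI
    subst hI
    exact s11 h q hm

end TSMALL

open TSMALL in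
theorem t_SMALL : S_SMALL := by
  intro m n h q A b hm I hI
  exact small_bitLength hm _ (small_all h q hm I hI) A b

end Pool.Agent.H622R3.SM
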