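import Pool.Agent.H622R3.SM.Stm

set_option autoImplicit false

/-!
# The description of a minor depends only on the first part of the history
-/

namespace Pool.Agent.H622R3.SM

namespace TSTAB

theorem getD_app (h t : List Outcome) (i : ℕ) (hi : i < h.length) :
    (h ++ t).getD i none = h.getD i none := by
  rw [List.getD_eq_getElem?_getD, List.getD_eq_getElem?_getD, List.getElem?_append_left hi]

theorem colOf_app (m n : ℕ) (h t : List Outcome) (q j : ℕ) (hj : j < m)
    (hq : q * (ell m n + 1) + ell m n ≤ h.length) :
    colOf m n (h ++ t) q j = colOf m n h q j := by
  unfold colOf
  congr 2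
  apply List.filter_congr
  intro k hk
  rw [List.mem_range] at hk
  have h1 : j * (m + (n + n)) + k < ell m n := by
    unfold ell
    have h2 : (j + 1) * (m + (n + n)) ≤ m * (m + (n + n)) := Nat.mul_le_mul_right _ hj
    have h3 : (j + 1) * (m + (n + n)) = j * (m + (n + n)) + (m + (n + n)) := by ring
    omega
  rw [getD_app h t _ (by omega)]

end TSTAB

open TSTAB in
theorem t_STAB : S_STAB := by
  intro m n h t q
  constructor
  · intro hq
    constructor
    · funext j
      unfold beta
      simp only [colOf_app m n h t q j j.2 hq]
    · unfold minorProg
      congr 1
      unfold entryProg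
      have hc : ∀ i, (List.range m).map (fun j => entryInstr m n (h ++ t) q i j) =
          (List.range m).map (fun j => entryInstr m n h q i j) := by
        intro i
        apply List.map_congr_left
        intro j hj
        rw [List.mem_range] at hj
        unfold entryInstr
        rw [colOf_app m n h t q j hj hq]
      simp only [hc]
  · intro hq
    unfold recd
    apply getD_app
    have : (q + 1) * (ell m n + 1) = q * (ell m n + 1) + (ell m n + 1) := by ring
    omega

end Pool.Agent.H622R3.SM
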