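import Pool.Agent.H622R3.SM.Stm

set_option autoImplicit false

/-!
# Task UP: the sizes are polynomial in unary
-/

namespace Pool.Agent.H622R3.SM

open Pool.Agent.NPC Pool.Agent.NPC.ER Pool.Agent.NPC.H612 Pool.Agent.H558R2

namespace TUP

theorem u_m : UPoly (fun p : HistIn => p.1.1.length) :=
  UPoly.length (Poly.fst (Poly.fst Poly.id))

theorem u_n : UPoly (fun p : HistIn => p.1.2.length) :=
  UPoly.length (Poly.snd (Poly.fst Poly.id))

theorem u_ell : UPoly (fun p : HistIn => ell p.1.1.length p.1.2.length) := by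
  unfold ell
  exact UPoly.mul u_m (UPoly.add u_m (UPoly.add u_n u_n))

theorem u_pexp : UPoly (fun p : HistIn => pexp p.1.1.length p.1.2.length) := by
  unfold pexp
  exact UPoly.mul (UPoly.add (UPoly.add (UPoly.mul (UPoly.add (UPoly.add u_m (UPoly.add u_n u_n))
    (UPoly.const 1)) u_m) u_m) (UPoly.const 3)) (UPoly.add (UPoly.mul u_m u_n) u_m)

theorem u_dep : UPoly (fun p : HistIn => dep p.1.1.length p.1.2.length) := by
  unfold dep
  have h : UPoly (fun p : HistIn => 2 * p.1.1.length + 2 * p.1.2.length + 3) :=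
    UPoly.add (UPoly.add (UPoly.mul (UPoly.const 2) u_m) (UPoly.mul (UPoly.const 2) u_n))
      (UPoly.const 3)
  exact UPoly.mul h (UPoly.mul h (UPoly.add u_pexp (UPoly.const 1)))

theorem u_tot : UPoly (fun p : HistIn => tot p.1.1.length p.1.2.length) := by
  unfold tot
  exact UPoly.mul u_dep (UPoly.add u_ell (UPoly.const 1))

end TUP

theorem t_UP : S_UP := ⟨TUP.u_ell, TUP.u_dep, TUP.u_tot⟩

end Pool.Agent.H622R3.SM
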