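import Pool.Agent.H622R3.SM.Stm

set_option autoImplicit false

/-!
# Construction of a valuation
-/

namespace Pool.Agent.H622R3.SM

open Pool.Agent.NPC Pool.Agent.NPC.ER Pool.Agent.NPC.H612 Pool.Agent.H558R2

namespace TVAL

/-- The values of the names. -/
noncomputable def value (m n : ℕ) (h : List Outcome) (a : ℕ → Inp m n) (u v : ℕ → ℕ → ℝ) :
    List ℕ → ℝ
  | 0 :: c :: r => start (a c).1 (a c).2 r
  | 1 :: c :: q :: r => vreg m n h q (a c) r
  | [2, c, j] => u c j
  | [3, c, i] => v c i
  | _ => 0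

theorem regT_eval {m n : ℕ} {h : List Outcome} {a : ℕ → Inp m n} {u v : ℕ → ℕ → ℝ} {x : ℕ → ℝ}
    (hx : ∀ r, x (vx r) = value m n h a u v r) (c q : ℕ)
    (hbase : ∀ r ∈ baseReg, vreg m n h q (a c) r = start (a c).1 (a c).2 r) (r : Reg) :
    (regT c q r).eval x = vreg m n h q (a c) r := by
  unfold regT
  split_ifs with h1 h2 h3
  · have h4 : r ∈ baseReg := by
      rw [h1]
      show (2 : ℕ) < 4
      norm_num
    rw [hbase r h4, h1]
    rfl
  · have h4 : r ∈ baseReg := by
      rw [h2]
      show (3 : ℕ) < 4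
      norm_num
    rw [hbase r h4, h2]
    rfl
  · have h4 : r ∈ baseReg := by
      show r.headD 0 < 4
      omega
    rw [hbase r h4]
    exact hx _
  · exact hx _

theorem sign_holds (x : ℕ → ℝ) (t : Tm) (w : ℝ) (ht : t.eval x = w) :
    (signFm t (signOut w)).Holds x := by
  rcases lt_trichotomy w 0 with hw | hw | hw
  · have h1 : signOut w = some false := by
      unfold signOut
      rw [if_neg (not_lt.mpr hw.le), if_pos hw]
    rw [h1]
    show t.eval x < 0
    rw [ht]
    exact hw
  · have h1 : signOut w = none := by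
      unfold signOut
      rw [hw, if_neg (lt_irrefl 0), if_neg (lt_irrefl 0)]
    rw [h1]
    show t.eval x = 0
    rw [ht]
    exact hw
  · have h1 : signOut w = some true := by
      unfold signOut
      rw [if_pos hw]
    rw [h1]
    show 0 < t.eval x
    rw [ht]
    exact hw

theorem instr_holds (x : ℕ → ℝ) (c q : ℕ) (V : Reg → ℝ) (hV : ∀ r, (regT c q r).eval x = V r)
    (I : Instr) (h1 : V I.dst = I.op.eval (V I.fst) (V I.snd))
    (h2 : I.op = Op.div → V I.snd ≠ 0) : (instrFm c q I).Holds x := by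
  obtain ⟨op, d, f, s⟩ := I
  cases op
  · show (regT c q d).eval x = (regT c q f).eval x + (regT c q s).eval x
    rw [hV, hV, hV]
    exact h1
  · show (regT c q d).eval x = (regT c q f).eval x + -(regT c q s).eval x
    rw [hV, hV, hV, ← sub_eq_add_neg]
    exact h1
  · show (regT c q d).eval x = (regT c q f).eval x * (regT c q s).eval x
    rw [hV, hV, hV]
    exact h1
  · show (regT c q d).eval x * (regT c q s).eval x = (regT c q f).eval x
    rw [hV, hV, hV]
    have h3 : V d = V f / V s := h1
    rw [h3]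
    exact div_mul_cancel₀ _ (h2 rfl)

end TVAL

open TVAL in
theorem t_VAL : S_VX → S_EQ → S_VAL := by
  intro hVX hEQ m n h a u v hm
  have hx : ∀ r, (Function.extend vx (value m n h a u v) 0) (vx r) = value m n h a u v r :=
    fun r => Function.Injective.extend_apply hVX _ _ r
  refine ⟨Function.extend vx (value m n h a u v) 0, ?_, ?_, ?_, ?_⟩
  · intro c
    unfold inst
    apply Prod.ext
    · funext i j
      show (Function.extend vx (value m n h a u v) 0) (vx (0 :: c :: [0, (i : ℕ), (j : ℕ)])) =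
        (a c).1 i j
      rw [hx]
      show start (a c).1 (a c).2 [0, (i : ℕ), (j : ℕ)] = (a c).1 i j
      show (if h : (i : ℕ) < m ∧ (j : ℕ) < n then (a c).1 ⟨i, h.1⟩ ⟨j, h.2⟩ else 0) = (a c).1 i j
      rw [dif_pos (show (i : ℕ) < m ∧ (j : ℕ) < n from ⟨i.2, j.2⟩)]
    · funext i
      show (Function.extend vx (value m n h a u v) 0) (vx (0 :: c :: [1, (i : ℕ)])) = (a c).2 i
      rw [hx]
      show start (a c).1 (a c).2 [1, (i : ℕ)] = (a c).2 i
      show (if h : (i : ℕ) < m then (a c).2 ⟨i, h⟩ else 0) = (a c).2 i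
      rw [dif_pos i.2]
  · intro c hc
    unfold consFm
    rw [holds_conj]
    intro φ hφ
    rw [List.mem_map] at hφ
    obtain ⟨q, hq, rfl⟩ := hφ
    rw [List.mem_range] at hq
    obtain ⟨hbase, hprog⟩ := hEQ m n h q (a c) hm
    have hreg := regT_eval hx c q hbase
    refine ⟨?_, ?_⟩
    · rw [holds_conj]
      intro ψ hψ
      rw [List.mem_map] at hψ
      obtain ⟨I, hI, rfl⟩ := hψ
      obtain ⟨e1, e2⟩ := hprog I hI
      exact instr_holds _ c q _ hreg I e1 e2
    · rw [← hc q hq]
      apply sign_holds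
      rw [hreg]
      rfl
  · intro c j
    rw [hx]
    rfl
  · intro c i
    rw [hx]
    rfl

end Pool.Agent.H622R3.SM
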