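import Pool.Agent.H622R3.SM.Stm

set_option autoImplicit false

/-!
# The variables attached to different names are different
-/

namespace Pool.Agent.H622R3.SM

open Pool.Agent.NPC Pool.Agent.NPC.ER Pool.Agent.NPC.H612 Pool.Agent.H558R2

namespace TVX

theorem valB_pos (l : List Bool) : 0 < valB (l ++ [true]) := by
  induction l with
  | nil => simp
  | cons b l ih => rw [List.cons_append, valB_cons]; omega

theorem valB_inj : ∀ l l' : List Bool, valB (l ++ [true]) = valB (l' ++ [true]) → l = l'
  | [], [], _ => rfl
  | [], b :: l', h => by
    have h1 := valB_pos l'
    rw [List.cons_append, valB_cons, List.nil_append, valB_cons, valB_nil] at h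
    simp only [if_true] at h
    split_ifs at h <;> omega
  | b :: l, [], h => by
    have h1 := valB_pos l
    rw [List.cons_append, valB_cons, List.nil_append, valB_cons, valB_nil] at h
    simp only [if_true] at h
    split_ifs at h <;> omega
  | b :: l, b' :: l', h => by
    rw [List.cons_append, valB_cons, List.cons_append, valB_cons] at h
    have h1 : valB (l ++ [true]) = valB (l' ++ [true]) := by
      split_ifs at h <;> omega
    have h2 : b = b' := by
      cases b <;> cases b' <;> simp only [if_true, if_false, Bool.false_eq_true] at h <;>
        first | rfl | omega
    rw [h2, valB_inj l l' h1]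

end TVX

theorem t_VX : S_VX := fun _ _ h => bits_injective (TVX.valB_inj _ _ h)

end Pool.Agent.H622R3.SM
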