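import Pool.Agent.H622R3.SM.Stm

set_option autoImplicit false

/-!
# Task WIN: the first player wins from the beginning
-/

namespace Pool.Agent.H622R3.SM

open Pool.Agent.NPC Pool.Agent.NPC.ER Pool.Agent.NPC.H612 Pool.Agent.H558R2

namespace TWIN

variable {m n : ℕ}

/-- Consistency with the first `q` minors. -/
def ConsTo (m n q : ℕ) (h : List Outcome) (a : Inp m n) : Prop :=
  ∀ q' < q, signOut (dd (wmat a.1 a.2) (beta m n h q')) = recd m n h q'

lemma win_bits (u : List Bool) : ∀ (k : ℕ) (g : List Outcome) (q t : ℕ),
    g.length = q * (ell m n + 1) + t → t + u.length ≤ ell m n →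
    Win m n k (g ++ u.map some) → Win m n (u.length + k) g := by
  induction u with
  | nil =>
    intro k g q t _ _ h
    simpa using h
  | cons b u ih =>
    intro k g q t hg ht h
    simp only [List.length_cons] at ht ⊢
    have e : u.length + 1 + k = (u.length + k) + 1 := by omega
    rw [e]
    unfold Win
    have hmod : g.length % (ell m n + 1) = t := by
      rw [hg, Nat.add_comm, Nat.add_mul_mod_self_right]
      exact Nat.mod_eq_of_lt (by omega)
    rw [hmod, if_pos (by omega)]
    refine ⟨b, ih k (g ++ [some b]) q (t + 1) ?_ (by omega) ?_⟩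
    · rw [List.length_append, hg]
      simp only [List.length_cons, List.length_nil]
      omega
    · simpa using h

lemma exists_sub (T : QT (Fin m → Option (Fin (m + (n + n))))) (r : ℕ) (hT : T.depth ≤ r + 1) :
    ∃ (β : Fin m → Option (Fin (m + (n + n))))
      (f : Outcome → QT (Fin m → Option (Fin (m + (n + n))))),
      (∀ s, (f s).depth ≤ r) ∧
      ∀ a : Inp m n, T.eval (pat a) = (f (signOut (dd (wmat a.1 a.2) β))).eval (pat a) := by
  cases T with
  | leaf b =>
    exact ⟨fun _ => none, fun _ => QT.leaf b, fun _ => by simp [QT.depth], fun _ => rfl⟩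
  | node β tn tz tp =>
    have h1 : tn.depth ≤ r ∧ tz.depth ≤ r ∧ tp.depth ≤ r := by
      unfold QT.depth at hT
      refine ⟨?_, ?_, ?_⟩
      · have := le_trans (le_max_left tn.depth tz.depth) (le_max_left _ tp.depth)
        omega
      · have := le_trans (le_max_right tn.depth tz.depth) (le_max_left _ tp.depth)
        omega
      · have := le_max_right (max tn.depth tz.depth) tp.depth
        omega
    refine ⟨β, fun s => match s with
      | some true => tp
      | none => tz
      | some false => tn, ?_, ?_⟩
    · intro s
      rcases s with _ | b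
      · exact h1.2.1
      · cases b
        · exact h1.1
        · exact h1.2.2
    · intro a
      have hp : pat a β = SignType.sign (dd (wmat a.1 a.2) β) := rfl
      rw [QT.eval, hp]
      unfold signOut
      rcases lt_trichotomy (dd (wmat a.1 a.2) β) 0 with h | h | h
      · rw [sign_neg h, if_neg (by linarith), if_pos h]
      · rw [h, sign_zero, if_neg (lt_irrefl _), if_neg (lt_irrefl _)]
      · rw [sign_pos h, if_pos h]

open Classical in
lemma main (hENC : S_ENC) (hSTAB : S_STAB) : ∀ (r q : ℕ), q + r = dep m n →
    ∀ (g : List Outcome) (T : QT (Fin m → Option (Fin (m + (n + n))))),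
      g.length = q * (ell m n + 1) → T.depth ≤ r →
      (∀ a, ConsTo m n q g a → T.eval (pat a) = decide (Feas a)) →
      Win m n (r * (ell m n + 1)) g := by
  intro r
  induction r with
  | zero =>
    intro q hq g T hg hT hcons
    rw [Nat.zero_mul]
    unfold Win
    rintro ⟨⟨a, ha, hfa⟩, ⟨b, hb, hfb⟩⟩
    have hq' : q = dep m n := by omega
    subst hq'
    have e1 := hcons a ha
    have e2 := hcons b hb
    cases T with
    | leaf c =>
      simp only [QT.eval] at e1 e2
      rw [e1] at e2
      simp [hfa, hfb] at e2
    | node β tn tz tp =>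
      unfold QT.depth at hT
      omega
  | succ r ih =>
    intro q hq g T hg hT hcons
    obtain ⟨β, f, hf1, hf2⟩ := exists_sub T r hT
    obtain ⟨u, hu, hu2⟩ := hENC m n β
    have e : (r + 1) * (ell m n + 1) = u.length + (r * (ell m n + 1) + 1) := by
      rw [hu]; ring
    rw [e]
    refine win_bits u _ g q 0 (by omega) (by omega) ?_
    unfold Win
    have hl : (g ++ u.map some).length = q * (ell m n + 1) + ell m n := by
      rw [List.length_append, List.length_map, hg, hu]
    have hmod : (g ++ u.map some).length % (ell m n + 1) = ell m n := by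
      rw [hl, Nat.add_comm, Nat.add_mul_mod_self_right]
      exact Nat.mod_eq_of_lt (by omega)
    rw [hmod, if_neg (lt_irrefl _)]
    intro s
    refine ih (q + 1) (by omega) _ (f s) ?_ (hf1 s) ?_
    · rw [List.length_append, hl]
      simp only [List.length_cons, List.length_nil]
      ring
    · intro a ha
      have hs : recd m n (g ++ u.map some ++ [s]) q = s := by
        unfold recd
        rw [← hl, List.getD_append_right _ _ _ _ (le_refl _)]
        simp
      have h1 := ha q (by omega)
      rw [hs, List.append_assoc, hu2 g [s] q hg] at h1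
      rw [← h1, ← hf2 a]
      apply hcons
      intro q' hq'
      have h2 := ha q' (by omega)
      have hle : (q' + 1) * (ell m n + 1) ≤ g.length := by
        rw [hg]
        exact Nat.mul_le_mul_right _ hq'
      have h3 := hSTAB m n g (u.map some ++ [s]) q'
      have hle' : q' * (ell m n + 1) + ell m n ≤ g.length := by
        have : (q' + 1) * (ell m n + 1) = q' * (ell m n + 1) + ell m n + 1 := by ring
        omega
      rw [List.append_assoc, (h3.1 hle').1, h3.2 hle] at h2
      exact h2

end TWIN

theorem t_WIN : S_ENC → S_STAB → S_WIN := by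
  intro hENC hSTAB m n _
  obtain ⟨T, hT, hT'⟩ := exists_queryTree m n
  have h := TWIN.main (m := m) (n := n) hENC hSTAB (dep m n) 0 (by omega) [] T (by simp) hT
    (fun a _ => hT' a)
  exact h

end Pool.Agent.H622R3.SM
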