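import Pool.Agent.H622R3.SM.T_MAIN
import Pool.Agent.H622R3.SM.T_BOTH
import Pool.Agent.H622R3.SM.T_COL
import Pool.Agent.H622R3.SM.T_COMP
import Pool.Agent.H622R3.SM.T_ELIM
import Pool.Agent.H622R3.SM.T_ENC
import Pool.Agent.H622R3.SM.T_EQ
import Pool.Agent.H622R3.SM.T_EXEC
import Pool.Agent.H622R3.SM.T_FARKAS
import Pool.Agent.H622R3.SM.T_FI
import Pool.Agent.H622R3.SM.T_LEN
import Pool.Agent.H622R3.SM.T_MF
import Pool.Agent.H622R3.SM.T_MINOR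
import Pool.Agent.H622R3.SM.T_NUMS
import Pool.Agent.H622R3.SM.T_ORA
import Pool.Agent.H622R3.SM.T_ORD
import Pool.Agent.H622R3.SM.T_PC
import Pool.Agent.H622R3.SM.T_PF
import Pool.Agent.H622R3.SM.T_PM
import Pool.Agent.H622R3.SM.T_POL
import Pool.Agent.H622R3.SM.T_PQ
import Pool.Agent.H622R3.SM.T_Q
import Pool.Agent.H622R3.SM.T_RUN
import Pool.Agent.H622R3.SM.T_SMALL
import Pool.Agent.H622R3.SM.T_STAB
import Pool.Agent.H622R3.SM.T_UNI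
import Pool.Agent.H622R3.SM.T_UP
import Pool.Agent.H622R3.SM.T_VAL
import Pool.Agent.H622R3.SM.T_VX
import Pool.Agent.H622R3.SM.T_WIN

set_option autoImplicit false

namespace Pool.Agent.H622R3.SM

theorem h_BOTH : S_BOTH := t_BOTH (t_MF t_UNI) (t_VAL t_VX t_EQ) t_FI t_FARKAS
theorem h_MINOR : S_MINOR := t_MINOR t_EQ t_ORD t_EXEC
theorem h_WIN : S_WIN := t_WIN t_ENC t_STAB
theorem h_ORA : S_ORA := t_ORA h_BOTH (t_Q h_BOTH)
theorem h_RUN : S_RUN := t_RUN h_ORA h_MINOR t_LEN t_STAB h_WIN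
theorem h_NUMS : S_NUMS := t_NUMS h_MINOR t_SMALL
theorem h_PM : S_PM := t_PM t_UP
theorem h_PF : S_PF := t_PF t_UP h_PM
theorem h_PQ : S_PQ := t_PQ t_UP h_PF
theorem h_PC : S_PC := t_PC t_UP h_PM
theorem h_MAIN : S_MAIN := t_MAIN h_RUN h_NUMS t_POL h_PQ h_PC t_COMP (t_ELIM t_COMP t_COMP2)
  (t_COL t_COMP2)

end Pool.Agent.H622R3.SM
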