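import Pool.Agent.H622R3.SM.Stm2
import Pool.Agent.ER.ToSysPoly

set_option autoImplicit false

/-!
# Decision procedure for formulas
-/

namespace Pool.Agent.H622R3.SM

open Pool.Agent.NPC Pool.Agent.NPC.ER Pool.Agent.NPC.H612 Pool.Agent.H558R2

theorem t_DECF (h : S_DECS) : S_DECF := by
  obtain ⟨decS, p, hp, hdec⟩ := h
  have hs : Poly (fun φ : Fm => sysOf φ) := poly_sysOf Poly.id
  obtain ⟨r, hr⟩ := hs.sz_le
  refine ⟨fun x => decS (sysOf x.1, x.2), p.comp r, ?_, ?_⟩
  · exact Poly.comp hp (Poly.pair (poly_sysOf (Poly.fst Poly.id)) (Poly.snd Poly.id))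
  · intro φ T hT
    rw [← sat_sysOf φ]
    apply hdec
    refine le_trans ?_ hT
    have h1 : (sysOf φ).length ≤ r.eval (bits φ).length :=
      (length_lt_sz _).le.trans (hr φ)
    have h2 : p.eval (sysOf φ).length ≤ (p.comp r).eval (bits φ).length := by
      rw [Polynomial.eval_comp]
      exact eval_mono p h1
    exact Nat.pow_le_pow_right (by norm_num) (Nat.pow_le_pow_right (by norm_num) h2)

end Pool.Agent.H622R3.SM
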