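import Pool.Agent.H622R3.SM.Stm2
import Pool.Agent.H671R2.PolyAuto

set_option autoImplicit false

/-!
# Decision procedure for systems in doubly exponential time (task DECS)
-/

namespace Pool.Agent.H622R3.SM

open Pool.Agent.NPC Pool.Agent.NPC.ER Pool.Agent.NPC.H612 Pool.Agent.H558R2

namespace TDECS

/-! ### Powers of two -/

theorem valB_pow (n : ℕ) : valB (List.replicate n false ++ [true]) = 2 ^ n := by
  induction n with
  | zero => simp
  | succ n ih =>
    rw [List.replicate_succ, List.cons_append, valB_cons, ih, pow_succ]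
    simp
    ring

theorem poly_two_pow {α : Type} [TEnc α] {n : α → ℕ} (hn : UPoly n) :
    Poly (fun a => 2 ^ (n a)) := by
  have h1 : Poly (fun a => (List.replicate (n a) ()).map (fun _ => false)) :=
    NPC.Poly.map (F := fun _ _ => false) hn (NPC.Poly.const false)
  have h2 := NPC.Poly.valBits (NPC.Poly.append h1 (NPC.Poly.const [true]))
  refine h2.congr fun a => ?_
  rw [List.map_replicate]
  exact valB_pow (n a)

/-! ### The procedure -/

/-- The inputs. -/
abbrev In : Type := List Con × List Unit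

/-- `2 ^ (K + 2)`, cut off. -/
def eG (x : In) : ℕ := min (2 ^ (gapK (bsys x.1).length + 2)) x.2.length

/-- `2 ^ K`, cut off. -/
def eB (x : In) : ℕ := min (2 ^ (gapK (bsys x.1).length)) x.2.length

/-- The values of the variables coded by `t`. -/
def Asg (x : In) (t : ℕ) : List (ℕ × ℕ) :=
  (svars (bsys x.1)).zipIdx.map (fun p => (p.1, min (2 * 2 ^ eG x)
    (t / 2 ^ ((eG x + 2) * min p.2 (svars (bsys x.1)).length) % 2 ^ (eG x + 2))))

/-- The value of a variable. -/
def look (A : List (ℕ × ℕ)) (v : ℕ) : ℕ :=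
  ((A.filter (fun q => decide (q.1 = v))).map Prod.snd).getD 0 0

/-- The test of a constraint. -/
def tst (G B : ℕ) (A : List (ℕ × ℕ)) (c : Con) : Bool :=
  if c.code.1 = 0 then
    decide ((8 * look A c.code.2.1 - 9 * G) * B ≤ G) &&
      decide ((9 * G - 8 * look A c.code.2.1) * B ≤ G)
  else if c.code.1 = 1 then
    decide ((look A c.code.2.1 + look A c.code.2.2.1 - (look A c.code.2.2.2 + G)) * B ≤ G) &&
      decide ((look A c.code.2.2.2 + G - (look A c.code.2.1 + look A c.code.2.2.1)) * B ≤ G)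
  else
    decide ((look A c.code.2.1 * look A c.code.2.2.1 + 2 * (G * G) -
        G * (look A c.code.2.1 + look A c.code.2.2.1 + look A c.code.2.2.2)) * B ≤ G * G) &&
      decide ((G * (look A c.code.2.1 + look A c.code.2.2.1 + look A c.code.2.2.2) -
        (look A c.code.2.1 * look A c.code.2.2.1 + 2 * (G * G))) * B ≤ G * G)

/-- The decision procedure. -/
def dec (x : In) : Bool :=
  decide (2 ^ (gapK (bsys x.1).length + 2) ≤ x.2.length) &&
    (List.range x.2.length).any (fun t =>
      (bsys x.1).all (fun c => tst (2 ^ eG x) (2 ^ eB x) (Asg x t) c))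

/-! ### It is computable in polynomial time -/

theorem upoly_K {α : Type} [TEnc α] {f : α → In} (hf : Poly f) :
    UPoly (fun a => gapK (bsys (f a).1).length) :=
  UPoly.add (UPoly.mul (UPoly.const 11) (UPoly.length (poly_bsys (Poly.fst hf)))) (UPoly.const 7)

theorem upoly_eG {α : Type} [TEnc α] {f : α → In} (hf : Poly f) :
    UPoly (fun a => eG (f a)) :=
  UPoly.of_le (Poly.min (poly_two_pow (UPoly.add (upoly_K hf) (UPoly.const 2)))
    (Poly.length (Poly.snd hf))) (UPoly.length (Poly.snd hf)) fun _ => min_le_right _ _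

theorem upoly_eB {α : Type} [TEnc α] {f : α → In} (hf : Poly f) :
    UPoly (fun a => eB (f a)) :=
  UPoly.of_le (Poly.min (poly_two_pow (upoly_K hf))
    (Poly.length (Poly.snd hf))) (UPoly.length (Poly.snd hf)) fun _ => min_le_right _ _

theorem poly_vars {α : Type} [TEnc α] {f : α → Con} (hf : Poly f) : Poly (fun a => (f a).vars) := by
  have h0 := poly_con_code hf
  have key := NPC.Poly.ite (NPC.Poly.decide_eq (NPC.Poly.fst h0) (NPC.Poly.const 0))
    (NPC.Poly.cons (NPC.Poly.fst (NPC.Poly.snd h0)) (NPC.Poly.const []))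
    (NPC.Poly.cons (NPC.Poly.fst (NPC.Poly.snd h0)) (NPC.Poly.cons
      (NPC.Poly.fst (NPC.Poly.snd (NPC.Poly.snd h0)))
      (NPC.Poly.cons (NPC.Poly.snd (NPC.Poly.snd (NPC.Poly.snd h0))) (NPC.Poly.const []))))
  refine key.congr fun a => ?_
  cases f a <;> simp [Con.code, Con.vars]

theorem poly_svars {α : Type} [TEnc α] {f : α → List Con} (hf : Poly f) :
    Poly (fun a => svars (f a)) :=
  Poly.flatMap (F := fun _ c => Con.vars c) hf (poly_vars (Poly.snd Poly.id))

theorem poly_Asg {α : Type} [TEnc α] {f : α → In} {t : α → ℕ} (hf : Poly f) (ht : Poly t) :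
    Poly (fun a => Asg (f a) (t a)) := by
  have hv : Poly (fun a => svars (bsys (f a).1)) := poly_svars (poly_bsys (Poly.fst hf))
  refine NPC.Poly.map (F := fun a (p : ℕ × ℕ) => (p.1, min (2 * 2 ^ eG (f a))
    (t a / 2 ^ ((eG (f a) + 2) * min p.2 (svars (bsys (f a).1)).length) %
      2 ^ (eG (f a) + 2)))) (Poly.zipIdx hv) ?_
  have hf' : Poly (fun p : α × ℕ × ℕ => f p.1) := hf.comp (Poly.fst Poly.id)
  have hv' : Poly (fun p : α × ℕ × ℕ => svars (bsys (f p.1).1)) := hv.comp (Poly.fst Poly.id)
  have hE := upoly_eG hf'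
  have hE2 := UPoly.add hE (UPoly.const 2)
  have hm : UPoly (fun p : α × ℕ × ℕ => min p.2.2 (svars (bsys (f p.1).1)).length) :=
    UPoly.of_le (Poly.min (Poly.snd (Poly.snd Poly.id)) (Poly.length hv')) (UPoly.length hv')
      fun _ => min_le_right _ _
  exact Poly.pair (Poly.fst (Poly.snd Poly.id)) (Poly.min
    (NPC.Poly.mul (NPC.Poly.const 2) (poly_two_pow hE))
    (Poly.mod (Poly.div (ht.comp (Poly.fst Poly.id)) (poly_two_pow (UPoly.mul hE2 hm)))
      (poly_two_pow hE2)))

theorem poly_look {α : Type} [TEnc α] {A : α → List (ℕ × ℕ)} {v : α → ℕ} (hA : Poly A)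
    (hv : Poly v) : Poly (fun a => look (A a) (v a)) := by
  unfold look
  fun_prop

theorem poly_tst {α : Type} [TEnc α] {G B : α → ℕ} {A : α → List (ℕ × ℕ)} {c : α → Con}
    (hG : Poly G) (hB : Poly B) (hA : Poly A) (hc : Poly c) :
    Poly (fun a => tst (G a) (B a) (A a) (c a)) := by
  have h0 := poly_con_code hc
  have h1 := Poly.fst h0
  have hi := poly_look hA (Poly.fst (Poly.snd h0))
  have hj := poly_look hA (Poly.fst (Poly.snd (Poly.snd h0)))
  have hk := poly_look hA (Poly.snd (Poly.snd (Poly.snd h0)))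
  unfold tst
  fun_prop

theorem poly_dec : Poly dec := by
  have hx : Poly (fun x : In => x) := Poly.id
  refine Poly.and (Poly.decide_le (poly_two_pow (UPoly.add (upoly_K hx) (UPoly.const 2)))
    (Poly.length (Poly.snd hx))) ?_
  refine Poly.any (p := fun x t => (bsys x.1).all (fun c =>
    tst (2 ^ eG x) (2 ^ eB x) (Asg x t) c)) (UPoly.length (Poly.snd hx)).range ?_
  have hx1 : Poly (fun p : In × ℕ => p.1) := Poly.fst Poly.id
  refine Poly.all (p := fun (p : In × ℕ) c =>
    tst (2 ^ eG p.1) (2 ^ eB p.1) (Asg p.1 p.2) c) (poly_bsys (Poly.fst hx1)) ?_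
  have hx2 : Poly (fun p : (In × ℕ) × Con => p.1.1) := Poly.fst (Poly.fst Poly.id)
  exact poly_tst (poly_two_pow (upoly_eG hx2)) (poly_two_pow (upoly_eB hx2))
    (poly_Asg hx2 (Poly.snd (Poly.fst Poly.id))) (Poly.snd Poly.id)

/-! ### Correctness -/

theorem nat_abs_test {a b B C : ℕ} :
    ((a - b) * B ≤ C ∧ (b - a) * B ≤ C) ↔ |(a : ℝ) - b| * B ≤ C := by
  rcases le_total a b with h | h
  · have h1 : a - b = 0 := Nat.sub_eq_zero_of_le h
    have h2 : |(a : ℝ) - b| = ((b - a : ℕ) : ℝ) := by
      rw [Nat.cast_sub h, abs_sub_comm, abs_of_nonneg]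
      have : (a : ℝ) ≤ b := by exact_mod_cast h
      linarith
    rw [h1, h2, zero_mul]
    constructor
    · rintro ⟨-, h3⟩
      exact_mod_cast h3
    · intro h3
      exact ⟨Nat.zero_le _, by exact_mod_cast h3⟩
  · have h1 : b - a = 0 := Nat.sub_eq_zero_of_le h
    have h2 : |(a : ℝ) - b| = ((a - b : ℕ) : ℝ) := by
      rw [Nat.cast_sub h, abs_of_nonneg]
      have : (b : ℝ) ≤ a := by exact_mod_cast h
      linarith
    rw [h1, h2, zero_mul]
    constructor
    · rintro ⟨h3, -⟩
      exact_mod_cast h3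
    · intro h3
      exact ⟨by exact_mod_cast h3, Nat.zero_le _⟩

theorem div_test {G x B : ℝ} (hG : 0 < G) : |x / G| * B ≤ 1 ↔ |x| * B ≤ G := by
  rw [abs_div, abs_of_pos hG, div_mul_eq_mul_div, div_le_one hG]

theorem tst_iff {G B : ℕ} (hG : 0 < G) (A : List (ℕ × ℕ)) (c : Con) :
    tst G B A c = true ↔ |c.err (fun i => (look A i : ℝ) / G - 1)| * B ≤ 1 := by
  have hG' : (0 : ℝ) < G := by exact_mod_cast hG
  have hGG : (0 : ℝ) < (G : ℝ) * G := mul_pos hG' hG'
  cases c with
  | one i =>
    have he : (NPC.ER.Con.one i).err (fun i => (look A i : ℝ) / G - 1) =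
        (((8 * look A i : ℕ) : ℝ) - ((9 * G : ℕ) : ℝ)) / G := by
      simp only [Con.err]
      push_cast
      field_simp
      ring
    rw [he, div_test hG', ← nat_abs_test]
    simp [tst, Con.code]
  | add i j k =>
    have he : (NPC.ER.Con.add i j k).err (fun i => (look A i : ℝ) / G - 1) =
        (((look A i + look A j : ℕ) : ℝ) - ((look A k + G : ℕ) : ℝ)) / G := by
      simp only [Con.err]
      push_cast
      field_simp
      ring
    rw [he, div_test hG', ← nat_abs_test]
    simp [tst, Con.code]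
  | mul i j k =>
    have he : (NPC.ER.Con.mul i j k).err (fun i => (look A i : ℝ) / G - 1) =
        (((look A i * look A j + 2 * (G * G) : ℕ) : ℝ) -
          ((G * (look A i + look A j + look A k) : ℕ) : ℝ)) / ((G : ℝ) * G) := by
      simp only [Con.err]
      push_cast
      field_simp
      ring
    have hc : ((G : ℝ) * G) = ((G * G : ℕ) : ℝ) := by push_cast; ring
    rw [he, div_test hGG, hc, ← nat_abs_test]
    simp [tst, Con.code]

theorem look_le {A : List (ℕ × ℕ)} {M : ℕ} (h : ∀ q ∈ A, q.2 ≤ M) (v : ℕ) : look A v ≤ M := by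
  unfold look
  rcases hl : (A.filter (fun q => decide (q.1 = v))).map Prod.snd with _ | ⟨y, l⟩
  · rw [hl]
    exact Nat.zero_le _
  · have hy : y ∈ (A.filter (fun q => decide (q.1 = v))).map Prod.snd := by
      rw [hl]
      simp
    obtain ⟨q, hq, hqy⟩ := List.mem_map.1 hy
    rw [hl, List.getD_cons_zero, ← hqy]
    exact h q (List.mem_filter.1 hq).1

theorem look_eq {A : List (ℕ × ℕ)} {v y : ℕ} (h1 : ∃ q ∈ A, q.1 = v)
    (h2 : ∀ q ∈ A, q.1 = v → q.2 = y) : look A v = y := by
  unfold look
  rcases hl : (A.filter (fun q => decide (q.1 = v))).map Prod.snd with _ | ⟨z, l⟩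
  · exfalso
    obtain ⟨q, hq, hv⟩ := h1
    have : q.2 ∈ (A.filter (fun q => decide (q.1 = v))).map Prod.snd :=
      List.mem_map.2 ⟨q, List.mem_filter.2 ⟨hq, by simpa using hv⟩, rfl⟩
    rw [hl] at this
    simp at this
  · have hz : z ∈ (A.filter (fun q => decide (q.1 = v))).map Prod.snd := by
      rw [hl]
      simp
    obtain ⟨q, hq, hqz⟩ := List.mem_map.1 hz
    have hq' := List.mem_filter.1 hq
    rw [hl, List.getD_cons_zero, ← hqz]
    exact h2 q hq'.1 (by simpa using hq'.2)

theorem Asg_le (x : In) (t : ℕ) : ∀ q ∈ Asg x t, q.2 ≤ 2 * 2 ^ eG x := by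
  intro q hq
  obtain ⟨p, -, rfl⟩ := List.mem_map.1 hq
  exact min_le_left _ _

/-- A number with given digits. -/
theorem exists_digits {b : ℕ} (hb : 0 < b) : ∀ (s : ℕ) (d : ℕ → ℕ), (∀ j, d j < b) →
    ∃ t < b ^ s, ∀ j < s, t / b ^ j % b = d j := by
  intro s
  induction s with
  | zero =>
    intro d _
    exact ⟨0, by simp, fun j hj => absurd hj (Nat.not_lt_zero _)⟩
  | succ s ih =>
    intro d hd
    obtain ⟨t, ht, h⟩ := ih (fun j => d (j + 1)) (fun j => hd _)
    refine ⟨d 0 + b * t, ?_, ?_⟩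
    · have h0 := hd 0
      calc d 0 + b * t < b + b * t := by omega
        _ = b * (t + 1) := by ring
        _ ≤ b * b ^ s := Nat.mul_le_mul_left _ ht
        _ = b ^ (s + 1) := by ring
    · intro j hj
      cases j with
      | zero =>
        rw [pow_zero, Nat.div_one, Nat.add_mul_mod_self_left, Nat.mod_eq_of_lt (hd 0)]
      | succ j =>
        rw [pow_succ', ← Nat.div_div_eq_div_mul, Nat.add_mul_div_left _ _ hb,
          Nat.div_eq_of_lt (hd 0), zero_add]
        exact h j (by omega)

theorem err_congr {v v' : ℕ → ℝ} {c : Con} (h : ∀ i ∈ c.vars, v i = v' i) :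
    c.err v = c.err v' := by
  cases c with
  | one i => simp only [Con.vars, List.mem_singleton, forall_eq] at h; simp [Con.err, h]
  | add i j k =>
    simp only [Con.vars, List.mem_cons, List.not_mem_nil, or_false, forall_eq_or_imp,
      forall_eq] at h
    simp [Con.err, h.1, h.2.1, h.2.2]
  | mul i j k =>
    simp only [Con.vars, List.mem_cons, List.not_mem_nil, or_false, forall_eq_or_imp,
      forall_eq] at h
    simp [Con.err, h.1, h.2.1, h.2.2]

theorem length_bsys (S : List Con) : (bsys S).length ≤ 18 * S.length + 9 := by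
  have h1 : ∀ (K : ℕ) (l : List (Con × ℕ)),
      (l.flatMap (fun p => bcon K p.1 p.2)).length ≤ 2 * l.length := by
    intro K l
    induction l with
    | nil => simp
    | cons p l ih =>
      have h2 : (bcon K p.1 p.2).length ≤ 2 := by
        rcases p with ⟨c, t⟩
        cases c <;> simp [bcon]
      simp only [List.flatMap_cons, List.length_append, List.length_cons]
      omega
  have h3 := h1 (bK S) S.zipIdx
  rw [List.length_zipIdx] at h3
  unfold bsys
  simp only [List.length_cons, List.length_append, List.length_map, List.length_range]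
  unfold bK at h3 ⊢
  omega

end TDECS

open TDECS in
theorem t_DECS (hG : S_GRID) : S_DECS := by
  refine ⟨dec, Polynomial.C 252 * Polynomial.X + Polynomial.C 136, poly_dec, ?_⟩
  intro S T hT
  have hev : (Polynomial.C 252 * Polynomial.X + Polynomial.C 136 : Polynomial ℕ).eval S.length =
      252 * S.length + 136 := by
    simp
  rw [hev] at hT
  have hb := length_bsys S
  have hs := length_svars (bsys S)
  have hK : gapK (bsys S).length ≤ 198 * S.length + 106 := by
    unfold gapK
    omega
  obtain ⟨K, hKdef⟩ : ∃ K, K = gapK (bsys S).length := ⟨_, rfl⟩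
  have hK2 : 2 ^ (K + 2) ≤ T.length := by
    refine le_trans ?_ hT
    refine Nat.pow_le_pow_right (by norm_num) ?_
    have h1 : 252 * S.length + 136 < 2 ^ (252 * S.length + 136) := Nat.lt_two_pow_self
    omega
  have hK0 : 2 ^ K ≤ T.length :=
    le_trans (Nat.pow_le_pow_right (by norm_num) (by omega)) hK2
  have heG : eG (S, T) = 2 ^ (K + 2) := by
    unfold eG
    rw [← hKdef]
    exact min_eq_left hK2
  have heB : eB (S, T) = 2 ^ K := by
    unfold eB
    rw [← hKdef]
    exact min_eq_left hK0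
  rw [hG S, ← hKdef]
  have hGpos : 0 < 2 ^ eG (S, T) := by positivity
  have hdec : dec (S, T) = true ↔ ∃ t < T.length, ∀ c ∈ bsys S,
      tst (2 ^ eG (S, T)) (2 ^ eB (S, T)) (Asg (S, T) t) c = true := by
    unfold dec
    rw [Bool.and_eq_true, decide_eq_true_eq, List.any_eq_true]
    simp only [List.mem_range, List.all_eq_true]
    rw [← hKdef]
    constructor
    · rintro ⟨-, t, ht, h⟩
      exact ⟨t, ht, h⟩
    · rintro ⟨t, ht, h⟩
      exact ⟨hK2, t, ht, h⟩
  rw [hdec]
  constructor
  · rintro ⟨t, -, h⟩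
    refine ⟨look (Asg (S, T) t), ?_, ?_⟩
    · intro i
      have h1 := look_le (Asg_le (S, T) t) i
      rwa [heG] at h1
    · intro c hc
      have h1 := (tst_iff hGpos _ c).1 (h c hc)
      rw [heG, heB] at h1
      push_cast at h1
      exact h1
  · rintro ⟨k, hk, h⟩
    obtain ⟨b, hbdef⟩ : ∃ b, b = 2 ^ (eG (S, T) + 2) := ⟨_, rfl⟩
    have hbpos : 0 < b := by
      rw [hbdef]
      positivity
    have hkb : ∀ i, k i < b := by
      intro i
      refine lt_of_le_of_lt (hk i) ?_
      rw [hbdef, heG, pow_add 2 (2 ^ (K + 2)) 2]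
      have : 0 < 2 ^ 2 ^ (K + 2) := by positivity
      omega
    obtain ⟨s, hsdef⟩ : ∃ s, s = (svars (bsys S)).length := ⟨_, rfl⟩
    obtain ⟨t, ht, hdig⟩ := exists_digits hbpos s (fun j => k ((svars (bsys S)).getD j 0))
      (fun j => hkb _)
    have htT : t < T.length := by
      refine lt_of_lt_of_le ht (le_trans ?_ hT)
      rw [hbdef, ← pow_mul]
      refine Nat.pow_le_pow_right (by norm_num) ?_
      rw [heG]
      have h1 : s ≤ 2 ^ s := Nat.lt_two_pow_self.le
      have h2 : 2 ^ (K + 2) + 2 ≤ 2 ^ (K + 3) := by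
        have h3 : 2 ≤ 2 ^ (K + 2) := by
          calc 2 = 2 ^ 1 := by norm_num
            _ ≤ 2 ^ (K + 2) := Nat.pow_le_pow_right (by norm_num) (by omega)
        have h4 : 2 ^ (K + 3) = 2 ^ (K + 2) + 2 ^ (K + 2) := by ring
        omega
      calc (2 ^ (K + 2) + 2) * s ≤ 2 ^ (K + 3) * 2 ^ s := Nat.mul_le_mul h2 h1
        _ = 2 ^ (K + 3 + s) := (pow_add _ _ _).symm
        _ ≤ 2 ^ (252 * S.length + 136) := Nat.pow_le_pow_right (by norm_num) (by omega)
    refine ⟨t, htT, fun c hc => (tst_iff hGpos _ c).2 ?_⟩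
    have hlook : ∀ v ∈ svars (bsys S), look (Asg (S, T) t) v = k v := by
      intro v hv
      refine look_eq ?_ ?_
      · obtain ⟨j, hj⟩ := List.mem_iff_getElem?.1 hv
        exact ⟨_, List.mem_map.2 ⟨(v, j), List.mem_zipIdx_iff_getElem?.2 hj, rfl⟩, rfl⟩
      · intro q hq hqv
        obtain ⟨p, hp, rfl⟩ := List.mem_map.1 hq
        obtain ⟨w, j⟩ := p
        have hj := List.mem_zipIdx_iff_getElem?.1 hp
        have hwv : w = v := hqv
        subst hwv
        have hjs : j < s := by
          rw [hsdef]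
          exact (List.getElem?_eq_some_iff.1 hj).1
        have hgd : (svars (bsys S)).getD j 0 = w := by
          rw [List.getD_eq_getElem?_getD]
          have hj' : (svars (bsys S))[j]? = some w := hj
          rw [hj']
          rfl
        have h1 := hdig j hjs
        rw [hgd] at h1
        show min (2 * 2 ^ eG (S, T)) (t / 2 ^ ((eG (S, T) + 2) *
          min j (svars (bsys S)).length) % 2 ^ (eG (S, T) + 2)) = k w
        rw [← hsdef, min_eq_left hjs.le, pow_mul, ← hbdef, h1]
        refine min_eq_right ?_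
        rw [heG]
        exact hk w
    have he : c.err (fun i => (look (Asg (S, T) t) i : ℝ) / ((2 ^ eG (S, T) : ℕ) : ℝ) - 1) =
        c.err (fun i => (k i : ℝ) / 2 ^ 2 ^ (K + 2) - 1) := by
      refine err_congr fun i hi => ?_
      rw [hlook i (mem_svars hc hi), heG]
      push_cast
      rfl
    rw [he, heB]
    push_cast
    exact h c hc

end Pool.Agent.H622R3.SM
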