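import Pool.Agent.H622R3.SM.Stm2
import Pool.Agent.H622R3.SM.T_ELIM

set_option autoImplicit false

/-!
# Task ELIM2: elimination of an oracle decidable in doubly exponential time
-/

namespace Pool.Agent.H622R3.SM

open Pool.Agent.NPC Pool.Agent.NPC.ER Pool.Agent.NPC.H612 Pool.Agent.H558R2

namespace TELIM2

open TELIM

/-! ### The simulation with two decision procedures -/

theorem iter_congr {d d' : List Bool → Bool} {β : List Outcome → List Instr × Test} (s₀ : TELIM.St)
    (N : ℕ) (hd : ∀ k < N, ∀ w, (β ((step d β)^[k] s₀).1).2 = Test.ask w → d w = d' w) :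
    ∀ k ≤ N, (step d' β)^[k] s₀ = (step d β)^[k] s₀ := by
  intro k
  induction k with
  | zero => intro _; rfl
  | succ k ih =>
    intro hk
    rw [Function.iterate_succ_apply', Function.iterate_succ_apply', ih (by omega)]
    set s := (step d β)^[k] s₀ with hs
    cases h : (β s.1).2 with
    | answer a => rw [step_answer h, step_answer h]
    | sign r => rw [step_sign h, step_sign h]
    | ask w => rw [step_ask h, step_ask h, hd k (by omega) w h]

theorem sim_congr {d d' : List Bool → Bool} {β : List Outcome → List Instr × Test}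
    (h : List Outcome) (N : ℕ)
    (hd : ∀ k < N, ∀ w, (β ((step d β)^[k] ([], [], h)).1).2 = Test.ask w → d w = d' w) :
    sim d' β N h = sim d β N h := by
  unfold sim
  rw [iter_congr ([], [], h) N hd N le_rfl]

theorem length_ask_lt {P : List Instr} {t : Test} {w : List Bool} (h : t = Test.ask w) :
    w.length < sz (P, t) := by
  subst h
  have h1 : sz (P, Test.ask w) = sz P + (sz w + 2 + 4) + 1 := by
    have h2 : sz (Test.ask w) = sz (Sum.inr (Sum.inl w) : Reg ⊕ (List Bool ⊕ Bool)) := rfl
    rw [sz_pair, h2, sz_inr, sz_inl]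
  have h3 := length_lt_sz w
  omega

/-! ### Polynomial time -/

theorem poly_sim2 {α : Alg} (hα : Poly (fun p : HistIn => α p.1.1.length p.1.2.length p.2))
    {d : List Bool → List Bool → Bool} (hd : Poly (fun p : List Bool × List Bool => d p.1 p.2))
    (q : Polynomial ℕ) :
    Poly (fun p : HistIn × List Bool => sim (d p.2) (α p.1.1.1.length p.1.1.2.length)
      (q.eval (p.1.1.1.length + p.1.1.2.length)) p.1.2) := by
  -- the block of the given algorithm in a state
  have hblock : Poly (fun p : (HistIn × List Bool) × TELIM.St =>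
      α p.1.1.1.1.length p.1.1.1.2.length p.2.1) :=
    Poly.comp (g := fun p : HistIn => α p.1.1.length p.1.2.length p.2)
      (f := fun p : (HistIn × List Bool) × TELIM.St => ((p.1.1.1, p.2.1) : HistIn)) hα
      (Poly.pair (Poly.fst (Poly.fst (Poly.fst Poly.id))) (Poly.fst (Poly.snd Poly.id)))
  have hpad : Poly (fun p : (HistIn × List Bool) × TELIM.St => p.1.2) := Poly.snd (Poly.fst Poly.id)
  have hs1 : Poly (fun p : (HistIn × List Bool) × TELIM.St => p.2.1) := Poly.fst (Poly.snd Poly.id)
  have hs2 : Poly (fun p : (HistIn × List Bool) × TELIM.St => p.2.2.1) :=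
    Poly.fst (Poly.snd (Poly.snd Poly.id))
  have hs3 : Poly (fun p : (HistIn × List Bool) × TELIM.St => p.2.2.2) :=
    Poly.snd (Poly.snd (Poly.snd Poly.id))
  have hstep : Poly (fun p : (HistIn × List Bool) × TELIM.St =>
      step (d p.1.2) (α p.1.1.1.1.length p.1.1.1.2.length) p.2) := by
    refine Poly.congr (Poly.sumCases
      (g := fun (p : (HistIn × List Bool) × TELIM.St) (_ : Reg) => (match p.2.2.2.head? with
        | none => p.2
        | some o => (p.2.1 ++ [o], [], p.2.2.2.tail) : TELIM.St))
      (h := fun (p : (HistIn × List Bool) × TELIM.St) (c : List Bool ⊕ Bool) => (match c with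
        | Sum.inl w => (p.2.1 ++ [some (d p.1.2 w)],
            p.2.2.1 ++ (α p.1.1.1.1.length p.1.1.1.2.length p.2.1).1, p.2.2.2)
        | Sum.inr _ => p.2 : TELIM.St))
      (poly_code (Poly.snd hblock)) ?_ ?_) fun p => ?_
    · refine Poly.congr (Poly.optCases (g := fun (p : ((HistIn × List Bool) × TELIM.St) × Reg) => p.1.2)
        (h := fun (p : ((HistIn × List Bool) × TELIM.St) × Reg) (o : Outcome) =>
          ((p.1.2.1 ++ [o], [], p.1.2.2.2.tail) : TELIM.St)) (Poly.head? (hs3.comp (Poly.fst Poly.id)))
          (Poly.snd (Poly.fst Poly.id)) ?_)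
          (fun p => by cases p.1.2.2.2.head? <;> rfl)
      exact Poly.pair (Poly.append (hs1.comp (Poly.fst (Poly.fst Poly.id)))
        (Poly.cons (Poly.snd Poly.id) (NPC.Poly.const [])))
        (Poly.pair (NPC.Poly.const []) (Poly.tail (hs3.comp (Poly.fst (Poly.fst Poly.id)))))
    · refine Poly.congr (Poly.sumCases
        (o := fun p : ((HistIn × List Bool) × TELIM.St) × (List Bool ⊕ Bool) => p.2)
        (g := fun (p : ((HistIn × List Bool) × TELIM.St) × (List Bool ⊕ Bool)) (w : List Bool) =>
          ((p.1.2.1 ++ [some (d p.1.1.2 w)], p.1.2.2.1 ++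
            (α p.1.1.1.1.1.length p.1.1.1.1.2.length p.1.2.1).1, p.1.2.2.2) : TELIM.St))
        (h := fun (p : ((HistIn × List Bool) × TELIM.St) × (List Bool ⊕ Bool)) (_ : Bool) => p.1.2)
        (Poly.snd Poly.id) ?_ ?_) (fun p => by cases p.2 <;> rfl)
      · exact Poly.pair (Poly.append (hs1.comp (Poly.fst (Poly.fst Poly.id)))
          (Poly.cons (Poly.some (Poly.comp (g := fun p : List Bool × List Bool => d p.1 p.2)
            (f := fun p : (((HistIn × List Bool) × TELIM.St) × (List Bool ⊕ Bool)) × List Bool =>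
              (p.1.1.1.2, p.2)) hd (Poly.pair (hpad.comp (Poly.fst (Poly.fst Poly.id)))
                (Poly.snd Poly.id)))) (NPC.Poly.const [])))
          (Poly.pair (Poly.append (hs2.comp (Poly.fst (Poly.fst Poly.id)))
            (Poly.fst (hblock.comp (Poly.fst (Poly.fst Poly.id)))))
            (hs3.comp (Poly.fst (Poly.fst Poly.id))))
      · exact Poly.snd (Poly.fst (Poly.fst Poly.id))
    · unfold step
      cases (α p.1.1.1.1.length p.1.1.1.2.length p.2.1).2.code with
      | inl r => rfl
      | inr c => cases c <;> rfl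
  have hu : UPoly (fun p : HistIn × List Bool => q.eval (p.1.1.1.length + p.1.1.2.length)) :=
    UPoly.eval (UPoly.add (UPoly.length (Poly.fst (Poly.fst (Poly.fst Poly.id))))
      (UPoly.length (Poly.snd (Poly.fst (Poly.fst Poly.id))))) q
  obtain ⟨b, hb⟩ := hα.sz_le
  obtain ⟨c, hc⟩ := Poly.sz_le hu
  have hiter : Poly (fun p : HistIn × List Bool =>
      (step (d p.2) (α p.1.1.1.length p.1.1.2.length))^[
      q.eval (p.1.1.1.length + p.1.1.2.length)] (([], [], p.1.2) : TELIM.St)) := by
    refine (Poly.iterLen (l := fun p : HistIn × List Bool => List.replicate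
      (q.eval (p.1.1.1.length + p.1.1.2.length)) ())
      (s := fun p : HistIn × List Bool => (([], [], p.1.2) : TELIM.St))
      (F := fun p s => step (d p.2) (α p.1.1.1.length p.1.1.2.length) s) hu
      (Poly.pair (NPC.Poly.const []) (Poly.pair (NPC.Poly.const [])
        (Poly.snd (Poly.fst Poly.id)))) hstep
      (6 * c + 1 + (c * b.comp (6 * c + 2 + Polynomial.X) + 1) + Polynomial.X + 2)
      ?_).congr fun p => ?_
    · intro p k hk
      rw [List.length_replicate] at hk
      have h1 := sz_step (d := d p.2) (β := α p.1.1.1.length p.1.1.2.length)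
        (B := fun x => b.eval (sz p.1.1 + x + 1)) (fun h => by
          have h2 := hb (p.1.1, h)
          simp only [sz_pair p.1.1 h] at h2
          exact (sz_fst_le _ _).trans h2) (fun x y hxy => eval_mono b (by omega)) p.1.2 k
      obtain ⟨h2, h3, h4⟩ := h1
      have h5 := hc p
      beta_reduce at h5
      have h6 := length_lt_sz (List.replicate (q.eval (p.1.1.1.length + p.1.1.2.length)) ())
      rw [List.length_replicate] at h6
      have hkc : k ≤ c.eval (sz p) := by omega
      have hszp : sz p = sz p.1.1 + sz p.1.2 + 1 + sz p.2 + 1 := by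
        rw [← sz_pair, ← sz_pair]
      set s := (step (d p.2) (α p.1.1.1.length p.1.1.2.length))^[k] ([], [], p.1.2) with hs
      have h7 : sz s = sz s.1 + (sz s.2.1 + sz s.2.2 + 1) + 1 := by
        rw [← sz_pair, ← sz_pair]
      have h8 : b.eval (sz p.1.1 + (6 * k + 1) + 1) ≤ b.eval (6 * c.eval (sz p) + 2 + sz p) :=
        eval_mono b (by omega)
      have h9 : k * b.eval (sz p.1.1 + (6 * k + 1) + 1) ≤
          c.eval (sz p) * b.eval (6 * c.eval (sz p) + 2 + sz p) := Nat.mul_le_mul hkc h8
      simp only [Polynomial.eval_add, Polynomial.eval_mul, Polynomial.eval_comp, Polynomial.eval_X,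
        Polynomial.eval_ofNat, Polynomial.eval_one]
      rw [h7]
      omega
    · rw [List.length_replicate]
  have hst : Poly (fun p : HistIn × List Bool =>
      (p, (step (d p.2) (α p.1.1.1.length p.1.1.2.length))^[
      q.eval (p.1.1.1.length + p.1.1.2.length)] (([], [], p.1.2) : TELIM.St))) := Poly.pair Poly.id hiter
  have hfin : Poly (fun p : (HistIn × List Bool) × TELIM.St =>
      fin (α p.1.1.1.1.length p.1.1.1.2.length) p.2) := by
    refine Poly.congr (Poly.sumCases
      (g := fun (p : (HistIn × List Bool) × TELIM.St) (r : Reg) =>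
        ((p.2.2.1 ++ (α p.1.1.1.1.length p.1.1.1.2.length p.2.1).1, Test.sign r) :
          List Instr × Test))
      (h := fun (p : (HistIn × List Bool) × TELIM.St) (c : List Bool ⊕ Bool) => (match c with
        | Sum.inl _ => ([], Test.answer false)
        | Sum.inr a => (p.2.2.1 ++ (α p.1.1.1.1.length p.1.1.1.2.length p.2.1).1,
            Test.answer a) : List Instr × Test))
      (poly_code (Poly.snd hblock)) ?_ ?_) fun p => ?_
    · exact Poly.pair (Poly.append (hs2.comp (Poly.fst Poly.id))
        (Poly.fst (hblock.comp (Poly.fst Poly.id)))) (poly_sign (Poly.snd Poly.id))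
    · refine Poly.congr (Poly.sumCases
        (o := fun p : ((HistIn × List Bool) × TELIM.St) × (List Bool ⊕ Bool) => p.2)
        (g := fun (_ : ((HistIn × List Bool) × TELIM.St) × (List Bool ⊕ Bool)) (_ : List Bool) =>
          (([], Test.answer false) : List Instr × Test))
        (h := fun (p : ((HistIn × List Bool) × TELIM.St) × (List Bool ⊕ Bool)) (a : Bool) =>
          ((p.1.2.2.1 ++ (α p.1.1.1.1.1.length p.1.1.1.1.2.length p.1.2.1).1, Test.answer a) :
            List Instr × Test))
        (Poly.snd Poly.id) (NPC.Poly.const _) ?_) (fun p => by cases p.2 <;> rfl)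
      exact Poly.pair (Poly.append (hs2.comp (Poly.fst (Poly.fst Poly.id)))
        (Poly.fst (hblock.comp (Poly.fst (Poly.fst Poly.id))))) (poly_answer (Poly.snd Poly.id))
    · unfold fin
      cases (α p.1.1.1.1.length p.1.1.1.2.length p.2.1).2.code with
      | inl r => rfl
      | inr c => cases c <;> rfl
  exact hfin.comp hst

end TELIM2

open TELIM TELIM2 Classical in
theorem t_ELIM2 (_h1 : S_COMP) (h2 : S_COMP') : S_ELIM2 := by
  intro α O hα hO hS
  obtain ⟨V, p, hV, hOV⟩ := hO
  obtain ⟨q, hq⟩ := hS
  have hVp : Poly V := H622R2.poly_of_polyTime hV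
  set dT : List Bool → List Bool → Bool := fun T w => decide (V (pairBits T w) = [true]) with hdT
  have hdp : Poly (fun p : List Bool × List Bool => dT p.1 p.2) :=
    Poly.decide_eq (hVp.comp (H622R2.poly_pairBits (Poly.fst Poly.id) (Poly.snd Poly.id)))
      (NPC.Poly.const _)
  set d : List Bool → Bool := fun w => decide (w ∈ O) with hd
  have hαp : Poly (fun p : HistIn => α p.1.1.length p.1.2.length p.2) := h2 _ _ _ hα
  have hsim := poly_sim2 hαp hdp q
  obtain ⟨b, hb⟩ := hαp.sz_le
  refine ⟨fun m n => sim d (α m n) (q.eval (m + n)), ?_,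
    fun m n h w => sim_ne_ask _ _ _ _ _, q, fun m n hm hn => ?_⟩
  · have hF : Poly (fun z : List Bool => (unbits HistIn (unpair z).2).map (fun a =>
        sim (dT (unpair z).1) (α a.1.1.length a.1.2.length)
          (q.eval (a.1.1.length + a.1.2.length)) a.2)) :=
      Poly.optMap (f := fun (z : List Bool) (a : HistIn) =>
        sim (dT (unpair z).1) (α a.1.1.length a.1.2.length)
          (q.eval (a.1.1.length + a.1.2.length)) a.2)
        (poly_unbits.comp (Poly.snd poly_unpair))
        (Poly.comp (g := fun p : HistIn × List Bool =>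
            sim (dT p.2) (α p.1.1.1.length p.1.1.2.length)
              (q.eval (p.1.1.1.length + p.1.1.2.length)) p.1.2)
          (f := fun x : List Bool × HistIn => (x.2, (unpair x.1).1)) hsim
          (Poly.pair (Poly.snd Poly.id) (Poly.fst (poly_unpair.comp (Poly.fst Poly.id)))))
    refine ⟨_, p.comp (b.comp (Polynomial.X + 6 * q + 2)), polyTime_opt hF, fun a T hT => ?_⟩
    simp only [unpair_pairBits, unbits_bits, Option.map_some]
    congr 1
    refine sim_congr a.2 _ fun k hk w hw => ?_
    have h3 := sz_step (d := d) (β := α a.1.1.length a.1.2.length)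
        (B := fun x => b.eval (sz a.1 + x + 1)) (fun h => by
          have h2 := hb (a.1, h)
          simp only [sz_pair a.1 h] at h2
          exact (sz_fst_le _ _).trans h2) (fun x y hxy => eval_mono b (by omega)) a.2 k
    obtain ⟨h3, -, -⟩ := h3
    set s := (step d (α a.1.1.length a.1.2.length))^[k] ([], [], a.2) with hs
    have h4 : w.length < sz (α a.1.1.length a.1.2.length s.1) := length_ask_lt hw
    have h5 : sz (α a.1.1.length a.1.2.length s.1) ≤ b.eval (sz a.1 + sz s.1 + 1) := by
      have := hb (a.1, s.1)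
      simp only [sz_pair a.1 s.1] at this
      exact this
    have h6 : sz a = sz a.1 + sz a.2 + 1 := by rw [← sz_pair]
    have h7 : a.1.1.length + a.1.2.length ≤ sz a := by
      have e1 := length_lt_sz a.1.1
      have e2 := length_lt_sz a.1.2
      have e3 : sz a.1 = sz a.1.1 + sz a.1.2 + 1 := by rw [← sz_pair]
      omega
    have h8 : q.eval (a.1.1.length + a.1.2.length) ≤ q.eval (sz a) := eval_mono q h7
    have h9 : b.eval (sz a.1 + sz s.1 + 1) ≤ b.eval (sz a + 6 * q.eval (sz a) + 2) :=
      eval_mono b (by omega)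
    have h10 : p.eval w.length ≤ p.eval (b.eval (sz a + 6 * q.eval (sz a) + 2)) :=
      eval_mono p (by omega)
    rw [bits_length] at hT
    simp only [Polynomial.eval_add, Polynomial.eval_mul, Polynomial.eval_comp, Polynomial.eval_X,
        Polynomial.eval_ofNat] at hT
    have h11 : 2 ^ 2 ^ (p.eval w.length) ≤ T :=
      (Nat.pow_le_pow_right (by norm_num) (Nat.pow_le_pow_right (by norm_num) h10)).trans hT
    exact decide_eq_decide.2 (hOV w T h11)
  obtain ⟨hA, hB⟩ := hq m n hm hn
  have key : ∀ (A : Matrix (Fin m) (Fin n) ℝ) (b : Fin m → ℝ), ∃ ans nums steps steps',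
      run O (α m n) (q.eval (m + n)) [] (start A b) = some (ans, nums, steps) ∧
      run ∅ (sim d (α m n) (q.eval (m + n))) (q.eval (m + n)) [] (start A b) =
        some (ans, nums, steps') ∧ (ans = true ↔ ∃ x : Fin n → ℝ, b ≤ A.mulVec x) ∧
      steps' ≤ q.eval (m + n) := by
    intro A b
    obtain ⟨ans, nums, steps, h3, h4, h5⟩ := hA A b
    obtain ⟨steps', h6, h7⟩ := run_sim (d := d) (N := q.eval (m + n)) (fun _ => rfl)
      (q.eval (m + n)) 0 [] [] [] (start A b) (start A b) []
      ans nums steps (by omega) rfl h3 (fun t => rfl) (q.eval (m + n)) le_rfl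
    refine ⟨ans, nums, steps, steps', h3, ?_, h4, ?_⟩
    · simpa using h6
    · simp only [List.length_nil] at h7
      omega
  refine ⟨fun A b => ?_, fun A b k ans nums steps hrun => ?_⟩
  · obtain ⟨ans, nums, steps, steps', -, h4, h5, h6⟩ := key A b
    exact ⟨ans, nums, steps', h4, h5, h6⟩
  · obtain ⟨ans', nums', steps', steps'', h3, h4, -, -⟩ :=
      key (fun i j => ((A i j : ℚ) : ℝ)) (fun i => ((b i : ℚ) : ℝ))
    have h5 := run_mono _ _ _ _ _ _ hrun (max k (q.eval (m + n))) (le_max_left _ _)
    have h6 := run_mono _ _ _ _ _ _ h4 (max k (q.eval (m + n))) (le_max_right _ _)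
    rw [h5] at h6
    simp only [Option.some.injEq, Prod.mk.injEq] at h6
    rw [h6.2.1]
    exact hB A b _ _ _ _ h3

end Pool.Agent.H622R3.SM
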