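import Pool.Agent.H622R3.SM.Stm2

set_option autoImplicit false

namespace Pool.Agent.H622R3.SM

open Pool.Agent.NPC Pool.Agent.NPC.ER

namespace GRIDaux

theorem err_near {v w : ℕ → ℝ} {δ : ℝ} (hδ0 : 0 ≤ δ) (hδ1 : δ ≤ 1)
    (hvw : ∀ i, |v i - w i| ≤ δ) (hw : ∀ i, |w i| ≤ 1 / 8) (c : Con)
    (hc : c.HoldsC (1 / 8) w) : |c.err v| ≤ 8 * δ := by
  cases c with
  | one i =>
    simp only [Con.HoldsC] at hc
    simp only [Con.err]
    have h1 : 8 * v i - 1 = 8 * (v i - w i) := by rw [hc]; ring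
    rw [h1, abs_mul]
    have := hvw i
    norm_num
    linarith
  | add i j k =>
    simp only [Con.HoldsC] at hc
    simp only [Con.err]
    have h1 := abs_le.1 (hvw i)
    have h2 := abs_le.1 (hvw j)
    have h3 := abs_le.1 (hvw k)
    rw [abs_le]
    constructor <;> linarith [h1.1, h1.2, h2.1, h2.2, h3.1, h3.2]
  | mul i j k =>
    simp only [Con.HoldsC] at hc
    simp only [Con.err]
    have h1 : v i * v j - v k = (v i - w i) * (v j - w j) + (v i - w i) * w j +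
        w i * (v j - w j) - (v k - w k) := by rw [← hc]; ring
    rw [h1]
    have a1 : |(v i - w i) * (v j - w j)| ≤ δ * 1 := by
      rw [abs_mul]
      exact mul_le_mul (hvw i) ((hvw j).trans hδ1) (abs_nonneg _) hδ0
    have a2 : |(v i - w i) * w j| ≤ δ * (1 / 8) := by
      rw [abs_mul]
      exact mul_le_mul (hvw i) (hw j) (abs_nonneg _) hδ0
    have a3 : |w i * (v j - w j)| ≤ (1 / 8) * δ := by
      rw [abs_mul]
      exact mul_le_mul (hw i) (hvw j) (abs_nonneg _) (by norm_num)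
    have a4 := abs_le.1 (hvw k)
    have b1 := abs_le.1 a1
    have b2 := abs_le.1 a2
    have b3 := abs_le.1 a3
    rw [abs_le]
    constructor <;> linarith [a4.1, a4.2, b1.1, b1.2, b2.1, b2.2, b3.1, b3.2]

theorem G_ge (K : ℕ) : (8 : ℝ) * 2 ^ 2 ^ K ≤ 2 ^ 2 ^ (K + 2) := by
  have h1 : 3 + 2 ^ K ≤ 2 ^ (K + 2) := by
    rw [pow_add]
    have := Nat.one_le_two_pow (n := K)
    omega
  calc (8 : ℝ) * 2 ^ 2 ^ K = 2 ^ (3 + 2 ^ K) := by rw [pow_add]; norm_num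
    _ ≤ 2 ^ 2 ^ (K + 2) := pow_le_pow_right₀ (by norm_num) h1

theorem fwd (S : List Con) (K : ℕ) (G : ℝ) (hG8 : (8 : ℝ) * 2 ^ 2 ^ K ≤ G) (h : Sat S) :
    ∃ k : ℕ → ℕ, (∀ i, (k i : ℝ) ≤ 2 * G) ∧
      ∀ c ∈ bsys S, |c.err (fun i => (k i : ℝ) / G - 1)| * 2 ^ 2 ^ K ≤ 1 := by
  have hB : (1 : ℝ) ≤ 2 ^ 2 ^ K := one_le_pow₀ (by norm_num)
  have hG0 : 0 < G := by linarith
  obtain ⟨w, hw, hb⟩ := bsys_of_sat h
  refine ⟨fun i => ⌊(w i + 1) * G⌋₊, ?_, ?_⟩
  · intro i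
    have h1 := abs_le.1 (hw i)
    have h0 : 0 ≤ (w i + 1) * G := by
      apply mul_nonneg _ hG0.le
      linarith [h1.1]
    refine (Nat.floor_le h0).trans ?_
    apply mul_le_mul_of_nonneg_right _ hG0.le
    linarith [h1.2]
  · intro c hc
    have hnear : ∀ i, |((⌊(w i + 1) * G⌋₊ : ℕ) : ℝ) / G - 1 - w i| ≤ 1 / G := by
      intro i
      have h1 := abs_le.1 (hw i)
      have h0 : 0 ≤ (w i + 1) * G := by
        apply mul_nonneg _ hG0.le
        linarith [h1.1]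
      have h2 := Nat.floor_le h0
      have h3 := Nat.lt_floor_add_one ((w i + 1) * G)
      have h4 : ((⌊(w i + 1) * G⌋₊ : ℕ) : ℝ) / G - 1 - w i =
          (((⌊(w i + 1) * G⌋₊ : ℕ) : ℝ) - (w i + 1) * G) / G := by
        field_simp
        ring
      rw [h4, abs_div, abs_of_pos hG0]
      apply div_le_div_of_nonneg_right _ hG0.le
      rw [abs_le]
      constructor <;> linarith
    have h5 := err_near (v := fun i => ((⌊(w i + 1) * G⌋₊ : ℕ) : ℝ) / G - 1) (w := w)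
      (δ := 1 / G) (by positivity) (by rw [div_le_one hG0]; linarith) hnear hw c (hb c hc)
    have h6 : 8 * (1 / G) * 2 ^ 2 ^ K ≤ 1 := by
      have : 8 * (1 / G) * 2 ^ 2 ^ K = (8 * 2 ^ 2 ^ K) / G := by ring
      rw [this, div_le_one hG0]
      exact hG8
    exact (mul_le_mul_of_nonneg_right h5 (by linarith)).trans h6

theorem bwd (S : List Con) (G : ℝ) (hG0 : 0 < G) (k : ℕ → ℕ) (hk : ∀ i, (k i : ℝ) ≤ 2 * G)
    (hc : ∀ c ∈ bsys S, |c.err (fun i => (k i : ℝ) / G - 1)| *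
      2 ^ 2 ^ gapK (bsys S).length ≤ 1) : Sat S := by
  have hw : ∀ i ∈ svars (bsys S), |(k i : ℝ) / G - 1| ≤ 1 := by
    intro i _
    have h2 : (k i : ℝ) / G ≤ 2 := by rw [div_le_iff₀ hG0]; exact hk i
    have h3 : 0 ≤ (k i : ℝ) / G := by positivity
    rw [abs_le]
    constructor <;> linarith
  obtain ⟨w', hw'⟩ := holds_of_approx hw hc
  exact sat_of_bsys hw'

end GRIDaux

open GRIDaux in
theorem t_GRID : S_GRID := by
  intro S
  have hG8 := G_ge (gapK (bsys S).length)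
  have hGn : ((2 * 2 ^ 2 ^ (gapK (bsys S).length + 2) : ℕ) : ℝ) =
      2 * (2 : ℝ) ^ 2 ^ (gapK (bsys S).length + 2) := by
    rw [Nat.cast_mul, Nat.cast_pow, Nat.cast_ofNat]
  constructor
  · intro h
    obtain ⟨k, hk, hc⟩ := fwd S _ _ hG8 h
    refine ⟨k, fun i => ?_, hc⟩
    have := hk i
    rw [← hGn] at this
    exact Nat.cast_le.1 this
  · rintro ⟨k, hk, hc⟩
    refine bwd S _ (pow_pos (by norm_num) _) k (fun i => ?_) hc
    rw [← hGn]
    exact Nat.cast_le.2 (hk i)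

end Pool.Agent.H622R3.SM
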