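import Pool.Agent.H622R3.SM.Stm2
import Pool.Agent.NPC.Dec

set_option autoImplicit false

/-!
# Task Q2: the quantified class is contained in doubly exponential time
-/

namespace Pool.Agent.H622R3.SM

open Pool.Agent.NPC Pool.Agent.NPC.ER Pool.Agent.NPC.H612 Pool.Agent.H558R2

namespace TQ2

/-! ### Evaluation of quantifiers on a list of truth values -/

/-- the connective attached to a quantifier -/
def op (q a b : Bool) : Bool := bif q then a && b else a || b

/-- one step of the combination of neighbours -/
def hstep (q x : Bool) (s : List Bool × Option Bool) : List Bool × Option Bool :=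
  match s.2 with
  | none => (s.1, some x)
  | some y => (op q x y :: s.1, none)

/-- combination of neighbours -/
def H (q : Bool) (l : List Bool) : List Bool := (l.foldr (hstep q) ([], none)).1

/-- all quantifiers, the last one first -/
def E (qs l : List Bool) : List Bool := qs.foldr (fun q l => H q l) l

theorem foldr_even (q : Bool) : ∀ (m : ℕ) (l : List Bool), l.length = 2 * m →
    ∃ r : List Bool, r.length = m ∧ ∀ acc, l.foldr (hstep q) (acc, none) = (r ++ acc, none) := by
  intro m
  induction m with
  | zero =>
    intro l hl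
    have : l = [] := List.length_eq_zero_iff.1 (by omega)
    subst this
    exact ⟨[], rfl, fun _ => rfl⟩
  | succ m ih =>
    intro l hl
    match l, hl with
    | a :: b :: l, hl =>
      have hl' : l.length = 2 * m := by
        simp only [List.length_cons] at hl
        omega
      obtain ⟨r, hr, h⟩ := ih l hl'
      refine ⟨op q a b :: r, by simp [hr], fun acc => ?_⟩
      rw [List.foldr_cons, List.foldr_cons, h acc]
      rfl
    | [a], hl => simp only [List.length_cons, List.length_nil] at hl; omega
    | [], hl => simp at hl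

theorem H_append {q : Bool} {m : ℕ} {l l' : List Bool} {m' : ℕ} (h : l.length = 2 * m)
    (h' : l'.length = 2 * m') : H q (l ++ l') = H q l ++ H q l' := by
  obtain ⟨r, _, hr⟩ := foldr_even q m l h
  obtain ⟨r', _, hr'⟩ := foldr_even q m' l' h'
  unfold H
  rw [List.foldr_append, hr', hr, hr]
  simp

theorem H_length {q : Bool} {m : ℕ} {l : List Bool} (h : l.length = 2 * m) :
    (H q l).length = m := by
  obtain ⟨r, h1, hr⟩ := foldr_even q m l h
  unfold H
  rw [hr]
  simpa using h1

theorem E_append : ∀ (qs : List Bool) (m m' : ℕ) (l l' : List Bool),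
    l.length = 2 ^ qs.length * m → l'.length = 2 ^ qs.length * m' →
    E qs (l ++ l') = E qs l ++ E qs l' ∧ (E qs l).length = m ∧ (E qs l').length = m' := by
  intro qs
  induction qs with
  | nil =>
    intro m m' l l' h h'
    simp only [List.length_nil, pow_zero, one_mul] at h h'
    exact ⟨rfl, h, h'⟩
  | cons q qs ih =>
    intro m m' l l' h h'
    rw [List.length_cons, pow_succ, mul_assoc] at h h'
    obtain ⟨h1, h2, h3⟩ := ih (2 * m) (2 * m') l l' h h'
    refine ⟨?_, ?_, ?_⟩
    · change H q (E qs (l ++ l')) = H q (E qs l) ++ H q (E qs l')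
      rw [h1]
      exact H_append h2 h3
    · exact H_length h2
    · exact H_length h3

/-- all words of a given length, in lexicographic order -/
def lv : ℕ → List (List Bool)
  | 0 => [[]]
  | k + 1 => (lv k).map (List.cons false) ++ (lv k).map (List.cons true)

theorem lv_length : ∀ k, (lv k).length = 2 ^ k
  | 0 => rfl
  | k + 1 => by simp [lv, lv_length k, pow_succ]; ring

theorem mem_lv : ∀ (k : ℕ) (v : List Bool), v ∈ lv k → v.length = k
  | 0, v, h => by simp [lv] at h; simp [h]
  | k + 1, v, h => by
    simp only [lv, List.mem_append, List.mem_map] at h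
    rcases h with ⟨u, hu, rfl⟩ | ⟨u, hu, rfl⟩ <;> simp [mem_lv k u hu]

theorem E_lv : ∀ (qs : List Bool) (f : List Bool → Bool),
    ∃ b, E qs ((lv qs.length).map f) = [b] ∧ (b = true ↔ QTrue qs (fun v => f v = true)) := by
  intro qs
  induction qs with
  | nil => intro f; exact ⟨f [], rfl, Iff.rfl⟩
  | cons q qs ih =>
    intro f
    obtain ⟨b0, h0, h0'⟩ := ih (fun v => f (false :: v))
    obtain ⟨b1, h1, h1'⟩ := ih (fun v => f (true :: v))
    refine ⟨op q b0 b1, ?_, ?_⟩
    · have e : (lv (q :: qs).length).map f = (lv qs.length).map (fun v => f (false :: v)) ++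
          (lv qs.length).map (fun v => f (true :: v)) := by
        rw [List.length_cons, lv, List.map_append, List.map_map, List.map_map]
        rfl
      change H q (E qs ((lv (q :: qs).length).map f)) = _
      rw [e, (E_append qs 1 1 _ _ (by simp [lv_length]) (by simp [lv_length])).1, h0, h1]
      rfl
    · cases q
      · simp only [op, cond_false, Bool.or_eq_true, h0', h1', QTrue, Bool.exists_bool]
      · simp only [op, cond_true, Bool.and_eq_true, h0', h1', QTrue, Bool.forall_bool]

theorem QTrue_congr : ∀ (qs : List Bool) (φ ψ : List Bool → Prop),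
    (∀ v, v.length = qs.length → (φ v ↔ ψ v)) → (QTrue qs φ ↔ QTrue qs ψ) := by
  intro qs
  induction qs with
  | nil => intro φ ψ h; exact h [] rfl
  | cons q qs ih =>
    intro φ ψ h
    have h1 : ∀ b, QTrue qs (fun v => φ (b :: v)) ↔ QTrue qs (fun v => ψ (b :: v)) :=
      fun b => ih _ _ (fun v hv => h (b :: v) (by simp [hv]))
    cases q
    · exact exists_congr h1
    · exact forall_congr' h1

/-! ### Polynomial time -/

theorem hstep_length (q : Bool) : ∀ l : List Bool,
    (l.foldr (hstep q) ([], none)).1.length ≤ l.length := by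
  intro l
  induction l with
  | nil => simp
  | cons a l ih =>
    rw [List.foldr_cons]
    have h : ∀ s : List Bool × Option Bool, (hstep q a s).1.length ≤ s.1.length + 1 := by
      rintro ⟨l, o⟩
      cases o <;> simp [hstep]
    have := h (l.foldr (hstep q) ([], none))
    simp only [List.length_cons]
    omega

theorem H_length_le (q : Bool) (l : List Bool) : (H q l).length ≤ l.length := hstep_length q l

theorem E_length_le : ∀ (qs l : List Bool), (E qs l).length ≤ l.length
  | [], _ => le_rfl
  | q :: qs, l => (H_length_le q (E qs l)).trans (E_length_le qs l)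

theorem poly_op : Poly (fun p : Bool × Bool × Bool => op p.1 p.2.1 p.2.2) :=
  Poly.cond (Poly.fst Poly.id)
    (Poly.and (Poly.fst (Poly.snd Poly.id)) (Poly.snd (Poly.snd Poly.id)))
    (Poly.or (Poly.fst (Poly.snd Poly.id)) (Poly.snd (Poly.snd Poly.id)))

theorem poly_hstep : Poly (fun p : Bool × Bool × (List Bool × Option Bool) =>
    hstep p.1 p.2.1 p.2.2) := by
  refine (Poly.optCases (o := fun p : Bool × Bool × (List Bool × Option Bool) => p.2.2.2)
    (g := fun p => ((p.2.2.1, some p.2.1) : List Bool × Option Bool))
    (h := fun p y => ((op p.1 p.2.1 y :: p.2.2.1, none) : List Bool × Option Bool))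
    (Poly.snd (Poly.snd (Poly.snd Poly.id)))
    (Poly.pair (Poly.fst (Poly.snd (Poly.snd Poly.id))) (Poly.some (Poly.fst (Poly.snd Poly.id))))
    (Poly.pair (Poly.cons ?_ ?_) (NPC.Poly.const _))).congr fun p => ?_
  · exact poly_op.comp (f := fun p : (Bool × Bool × (List Bool × Option Bool)) × Bool =>
      (p.1.1, p.1.2.1, p.2)) (Poly.pair (Poly.fst (Poly.fst Poly.id))
      (Poly.pair (Poly.fst (Poly.snd (Poly.fst Poly.id))) (Poly.snd Poly.id)))
  · exact Poly.fst (Poly.snd (Poly.snd (Poly.fst Poly.id)))
  · obtain ⟨q, x, l, o⟩ := p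
    cases o <;> rfl

theorem sz_opt_bool (o : Option Bool) : sz o ≤ 5 := by
  cases o with
  | none => simp
  | some b => have := sz_bool_le b; simp; omega

theorem poly_H : Poly (fun p : Bool × List Bool => H p.1 p.2) := by
  refine Poly.fst (Poly.foldr (l := fun p : Bool × List Bool => p.2)
    (s := fun _ => (([], none) : List Bool × Option Bool))
    (F := fun p x s => hstep p.1 x s) (Poly.snd Poly.id) (NPC.Poly.const _) ?_
    (Polynomial.C 4 * Polynomial.X + Polynomial.C 7) ?_)
  · exact poly_hstep.comp (f := fun p : (Bool × List Bool) × Bool × (List Bool × Option Bool) =>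
      (p.1.1, p.2.1, p.2.2)) (Poly.pair (Poly.fst (Poly.fst Poly.id)) (Poly.snd Poly.id))
  · rintro ⟨q, l⟩ k hk
    simp only at hk ⊢
    have h1 := hstep_length q (l.drop k)
    have h2 : (l.drop k).length ≤ l.length := by simp
    have h3 := length_lt_sz l
    have h4 := sz_opt_bool ((l.drop k).foldr (hstep q) ([], none)).2
    have h5 := sz_listBool_le ((l.drop k).foldr (hstep q) ([], none)).1
    have h6 : sz ((l.drop k).foldr (hstep q) ([], none)) =
        sz ((l.drop k).foldr (hstep q) ([], none)).1 +
        sz ((l.drop k).foldr (hstep q) ([], none)).2 + 1 := sz_pair _ _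
    rw [h6]
    simp only [sz_pair, Polynomial.eval_add, Polynomial.eval_mul, Polynomial.eval_C,
      Polynomial.eval_X]
    omega

theorem poly_E : Poly (fun p : List Bool × List Bool => E p.1 p.2) := by
  refine Poly.foldr (l := fun p : List Bool × List Bool => p.1)
    (s := fun p => p.2)
    (F := fun _ q l => H q l) (Poly.fst Poly.id) (Poly.snd Poly.id) ?_
    (Polynomial.C 4 * Polynomial.X + Polynomial.C 1) ?_
  · exact poly_H.comp (f := fun p : (List Bool × List Bool) × Bool × List Bool => p.2)
      (Poly.snd Poly.id)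
  · rintro ⟨qs, l⟩ k hk
    simp only at hk ⊢
    have h1 : (List.foldr (fun q l => H q l) l (qs.drop k)).length ≤ l.length :=
      E_length_le (qs.drop k) l
    have h3 := length_lt_sz l
    have h5 := sz_listBool_le (List.foldr (fun q l => H q l) l (qs.drop k))
    simp only [sz_pair, Polynomial.eval_add, Polynomial.eval_mul, Polynomial.eval_C,
      Polynomial.eval_X]
    omega

/-- one step of the enumeration of all words, with a bound -/
def lstep (N : ℕ) (s : List (List Bool)) : List (List Bool) :=
  if s.length ≤ N then s.map (List.cons false) ++ s.map (List.cons true) else s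

theorem lstep_iterate (N : ℕ) : ∀ k, 2 ^ k ≤ N → (lstep N)^[k] [[]] = lv k := by
  intro k
  induction k with
  | zero => intro _; rfl
  | succ k ih =>
    intro h
    have h1 : 2 ^ k ≤ N := (Nat.pow_le_pow_right (by norm_num) (Nat.le_succ k)).trans h
    rw [Function.iterate_succ_apply', ih h1, lstep, if_pos (by rw [lv_length]; exact h1)]
    rfl

theorem lstep_bound (N : ℕ) : ∀ k, ((lstep N)^[k] [[]]).length ≤ 2 * N + 1 ∧
    ∀ v ∈ (lstep N)^[k] [[]], v.length ≤ k := by
  intro k
  induction k with
  | zero =>
    refine ⟨by simp, fun v hv => ?_⟩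
    simp at hv
    simp [hv]
  | succ k ih =>
    rw [Function.iterate_succ_apply']
    unfold lstep
    split_ifs with h
    · refine ⟨?_, fun v hv => ?_⟩
      · simp only [List.length_append, List.length_map]
        omega
      · simp only [List.mem_append, List.mem_map] at hv
        rcases hv with ⟨u, hu, rfl⟩ | ⟨u, hu, rfl⟩ <;>
        · have := ih.2 u hu
          simp only [List.length_cons]
          omega
    · exact ⟨ih.1, fun v hv => (ih.2 v hv).trans (Nat.le_succ k)⟩

theorem poly_lv {α : Type} [TEnc α] {l : α → List Bool} {T : α → List Unit} (hl : Poly l)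
    (hT : Poly T) : Poly (fun a => (lstep (T a).length)^[(l a).length] [[]]) := by
  obtain ⟨r, hr⟩ := hl.sz_le
  obtain ⟨r', hr'⟩ := hT.sz_le
  refine Poly.iterLen (s := fun _ => [[]]) (F := fun a s => lstep (T a).length s) hl
    (NPC.Poly.const _) ?_
    ((Polynomial.C 2 * r' + Polynomial.C 1) * (Polynomial.C 4 * r + Polynomial.C 2) +
      Polynomial.C 1) ?_
  · unfold lstep
    refine Poly.ite (Poly.decide_le (Poly.length (Poly.snd Poly.id))
      (Poly.length (hT.comp (Poly.fst Poly.id)))) ?_ (Poly.snd Poly.id)
    refine Poly.append ?_ ?_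
    · exact NPC.Poly.map (F := fun _ v => List.cons false v) (Poly.snd Poly.id)
        (Poly.cons (NPC.Poly.const _) (Poly.snd Poly.id))
    · exact NPC.Poly.map (F := fun _ v => List.cons true v) (Poly.snd Poly.id)
        (Poly.cons (NPC.Poly.const _) (Poly.snd Poly.id))
  · intro a k hk
    obtain ⟨h1, h2⟩ := lstep_bound (T a).length k
    have h3 := sz_le_length_mul ((lstep (T a).length)^[k] [[]]) (4 * r.eval (sz a) + 1) (by
      intro v hv
      have h4 := sz_listBool_le v
      have h5 := h2 v hv
      have h6 := length_lt_sz (l a)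
      have h7 := hr a
      omega)
    have h8 := length_lt_sz (T a)
    have h9 := hr' a
    refine h3.trans ?_
    simp only [Polynomial.eval_add, Polynomial.eval_mul, Polynomial.eval_C]
    refine Nat.add_le_add_right (Nat.mul_le_mul ?_ le_rfl) 1
    omega

end TQ2

open TQ2

theorem t_Q2 : S_COMP' → S_DECF → S_Q2 := by
  rintro hC ⟨dec, p0, hdec, hdec'⟩ L ⟨qs, F, hqs, hF, hL⟩
  have hqs' : Poly qs := hC _ _ qs hqs
  have hF' : Poly F := hC _ _ F hF
  obtain ⟨pq, hpq⟩ := hqs'.sz_le
  obtain ⟨pF, hpF⟩ := hF'.sz_le
  -- the decision procedure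
  have hD : Poly (fun a : List Bool × List Unit => (E (qs a.1)
      (((lstep a.2.length)^[(qs a.1).length] [[]]).map fun v => dec (F (a.1, v), a.2))).head?.getD
        false) := by
    refine Poly.head?_getD ?_ false
    refine poly_E.comp (f := fun a : List Bool × List Unit => (qs a.1,
      ((lstep a.2.length)^[(qs a.1).length] [[]]).map fun v => dec (F (a.1, v), a.2)))
      (Poly.pair (hqs'.comp (Poly.fst Poly.id)) ?_)
    refine NPC.Poly.map (F := fun (a : List Bool × List Unit) v => dec (F (a.1, v), a.2))
      (poly_lv (hqs'.comp (Poly.fst Poly.id)) (Poly.snd Poly.id)) ?_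
    exact hdec.comp (Poly.pair (hF'.comp (Poly.pair (Poly.fst (Poly.fst Poly.id))
      (Poly.snd Poly.id))) (Poly.snd (Poly.fst Poly.id)))
  obtain ⟨D, hDd⟩ : ∃ D : List Bool × List Unit → Bool, D = fun a => (E (qs a.1)
      (((lstep a.2.length)^[(qs a.1).length] [[]]).map fun v => dec (F (a.1, v), a.2))).head?.getD
        false := ⟨_, rfl⟩
  rw [← hDd] at hD
  refine ⟨fun y => [D ((unpair y).2, (unpair y).1.map (fun _ => ()))],
    p0.comp (pF.comp (Polynomial.C 4 * Polynomial.X + Polynomial.C 3 +
      Polynomial.C 4 * pq.comp (Polynomial.C 4 * Polynomial.X + Polynomial.C 1))) +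
      pq.comp (Polynomial.C 4 * Polynomial.X + Polynomial.C 1),
    polyTime_of_poly (hD.comp (Poly.pair (Poly.snd poly_unpair)
      (NPC.Poly.map (F := fun _ _ => ()) (Poly.fst poly_unpair) (NPC.Poly.const _)))), ?_⟩
  intro w T hT
  simp only [Polynomial.eval_add, Polynomial.eval_mul, Polynomial.eval_C, Polynomial.eval_X,
    Polynomial.eval_comp] at hT
  have hw := sz_listBool_le w
  have hk : (qs w).length ≤ pq.eval (4 * w.length + 1) := by
    have h1 := length_lt_sz (qs w)
    have h2 := hpq w
    have h3 := eval_mono pq hw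
    omega
  have hkT : 2 ^ (qs w).length ≤ T := by
    refine le_trans (Nat.pow_le_pow_right (by norm_num) ?_) hT
    refine le_trans ?_ (Nat.pow_le_pow_right (by norm_num) (Nat.le_add_left _ _))
    exact hk.trans (Nat.lt_two_pow_self).le
  rw [hL]
  simp only [unpair_pairBits, List.map_replicate, List.cons.injEq, and_true]
  rw [hDd]
  simp only [List.length_replicate]
  rw [lstep_iterate T _ hkT]
  obtain ⟨b, hb, hb'⟩ := E_lv (qs w) (fun v => dec (F (w, v), List.replicate T ()))
  rw [hb]
  simp only [List.head?_cons, Option.getD_some]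
  rw [hb']
  refine QTrue_congr _ _ _ fun v hv => ?_
  refine (hdec' (F (w, v)) (List.replicate T ()) ?_).symm
  rw [List.length_replicate]
  refine le_trans (Nat.pow_le_pow_right (by norm_num) (Nat.pow_le_pow_right (by norm_num) ?_)) hT
  refine le_trans (eval_mono p0 ?_) (Nat.le_add_right _ _)
  rw [bits_length]
  refine (hpF (w, v)).trans (eval_mono pF ?_)
  have hv' := sz_listBool_le v
  rw [sz_pair]
  omega

end Pool.Agent.H622R3.SM
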