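import Pool.Agent.H622R3.SM.All
import Pool.Agent.H622R3.SM.T_GRID
import Pool.Agent.H622R3.SM.T_DECS
import Pool.Agent.H622R3.SM.T_DECF
import Pool.Agent.H622R3.SM.T_Q2
import Pool.Agent.H622R3.SM.T_ELIM2

set_option autoImplicit false

namespace Pool.Agent.H622R3.SM

theorem h_DECF : S_DECF := t_DECF (t_DECS t_GRID)
theorem h_Q2 : S_Q2 := t_Q2 t_COMP2 h_DECF
theorem h_ELIM2 : S_ELIM2 := t_ELIM2 t_COMP t_COMP2
theorem h_MAIN2 : S_MAIN2 := h_ELIM2 smale oracle (t_CONTROL h_PC t_COMP)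
  (h_Q2 oracle (t_QER h_PQ t_COMP)) (t_STRONG h_RUN h_NUMS t_POL)

end Pool.Agent.H622R3.SM
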