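import Pool.Agent.H558R2.Act
import Pool.Agent.NPC.Classes
import Pool.Agent.NPC.Num
import Pool.Agent.ER.Defs

set_option autoImplicit false

/-!
# Real algorithms with a polynomial-time controller

An algorithm works on named real registers. It proceeds in blocks: a block is a straight-line
program of arithmetic operations followed by a test (the sign of a register, or a question to a
discrete oracle) or by the final answer. The next block is computed in polynomial time by a Turing
machine from `m`, `n` (in unary) and the outcomes of the tests made so far.
-/

namespace Pool.Agent.H622R3.SM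

open Pool.Agent.NPC Pool.Agent.NPC.ER Pool.Agent.H558R2

/-- Names of real registers. -/
abbrev Reg : Type := List ℕ

/-- One arithmetic operation on registers: `dst := fst op snd`. -/
structure Instr : Type where
  /-- the operation -/
  op : Op
  /-- the target register -/
  dst : Reg
  /-- the first operand -/
  fst : Reg
  /-- the second operand -/
  snd : Reg

/-- The end of a block: the sign of a register, a question to the oracle, or the final answer. -/
inductive Test : Type
  | sign (r : Reg) : Test
  | ask (w : List Bool) : Test
  | answer (a : Bool) : Test

/-- An outcome of a test: for the sign of a register, `some true`, `none`, `some false` mean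
positive, zero, negative; for a question to the oracle, `some true` and `some false` mean yes
and no. -/
abbrev Outcome : Type := Option Bool

/-- The outcome of a sign test. -/
noncomputable def signOut (v : ℝ) : Outcome :=
  if 0 < v then some true else if v < 0 then some false else none

/-- An algorithm: for the dimensions `m`, `n` and the list of the outcomes so far, the next
block. -/
abbrev Alg : Type := ℕ → ℕ → List Outcome → List Instr × Test

/-- Execution of a straight-line program on a store of real registers: the new store and the list
of all numbers computed. It fails at a division by zero. -/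
noncomputable def exec : List Instr → (Reg → ℝ) → Option ((Reg → ℝ) × List ℝ)
  | [], ρ => some (ρ, [])
  | I :: P, ρ =>
    if I.op = Op.div ∧ ρ I.snd = 0 then none
    else (exec P (Function.update ρ I.dst (I.op.eval (ρ I.fst) (ρ I.snd)))).map fun r =>
      (r.1, I.op.eval (ρ I.fst) (ρ I.snd) :: r.2)

open Classical in
/-- Running an algorithm with the oracle `O`, for at most `k` blocks, from the outcomes `h` and
the store `ρ`: the answer, all numbers computed, and the number of elementary steps (arithmetic
operations, sign tests, questions to the oracle). -/
noncomputable def run (O : Set (List Bool)) (α : List Outcome → List Instr × Test) :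
    ℕ → List Outcome → (Reg → ℝ) → Option (Bool × List ℝ × ℕ)
  | 0, _, _ => none
  | k + 1, h, ρ =>
    (exec (α h).1 ρ).bind fun r =>
      match (α h).2 with
      | Test.answer a => some (a, r.2, r.2.length)
      | Test.sign x => (run O α k (h ++ [signOut (r.1 x)]) r.1).map fun q =>
          (q.1, r.2 ++ q.2.1, r.2.length + 1 + q.2.2)
      | Test.ask w => (run O α k (h ++ [some (decide (w ∈ O))]) r.1).map fun q =>
          (q.1, r.2 ++ q.2.1, r.2.length + 1 + q.2.2)

/-- The initial store: `A i j` in register `[0, i, j]`, `b i` in register `[1, i]`, the constant
`1` in register `[2]`, and `0` everywhere else. -/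
def start {m n : ℕ} (A : Fin m → Fin n → ℝ) (b : Fin m → ℝ) : Reg → ℝ
  | [0, i, j] => if h : i < m ∧ j < n then A ⟨i, h.1⟩ ⟨j, h.2⟩ else 0
  | [1, i] => if h : i < m then b ⟨i, h⟩ else 0
  | [2] => 1
  | _ => 0

/-! ### Encodings, and polynomial-time controllers -/

/-- Code of an operation. -/
def opCode : Op → ℕ
  | Op.add => 0
  | Op.sub => 1
  | Op.mul => 2
  | Op.div => 3

theorem opCode_injective : Function.Injective opCode := by
  intro a b h
  cases a <;> cases b <;> simp [opCode] at h ⊢

/-- Code of an instruction. -/
def Instr.code (I : Instr) : ℕ × Reg × Reg × Reg := (opCode I.op, I.dst, I.fst, I.snd)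

theorem Instr.code_injective : Function.Injective Instr.code := by
  rintro ⟨o, d, f, s⟩ ⟨o', d', f', s'⟩ h
  simp only [Instr.code, Prod.mk.injEq] at h
  obtain ⟨h1, rfl, rfl, rfl⟩ := h
  rw [opCode_injective h1]

instance : TEnc Instr := ⟨fun I => toT I.code, fun _ _ h => Instr.code_injective (TEnc.inj h)⟩

/-- Code of a test. -/
def Test.code : Test → Reg ⊕ (List Bool ⊕ Bool)
  | Test.sign r => Sum.inl r
  | Test.ask w => Sum.inr (Sum.inl w)
  | Test.answer a => Sum.inr (Sum.inr a)

theorem Test.code_injective : Function.Injective Test.code := by
  intro a b h
  cases a <;> cases b <;> simp [Test.code] at h ⊢ <;> exact h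

instance : TEnc Test := ⟨fun t => toT t.code, fun _ _ h => Test.code_injective (TEnc.inj h)⟩

/-- Dimensions in unary, and a list of outcomes. -/
abbrev HistIn : Type := (List Unit × List Unit) × List Outcome

/-- A function between encodable types is computed in polynomial time by a Turing machine (of
Mathlib), on the standard encodings. -/
def Computed {β γ : Type} [TEnc β] [TEnc γ] (f : β → γ) : Prop :=
  ∃ g : List Bool → List Bool, PolyTime g ∧ ∀ a, g (bits a) = bits (f a)

/-- The algorithm is controlled in polynomial time: a Turing machine computes the next block from
`m` and `n` in unary and the outcomes so far. -/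
def PolyControl (α : Alg) : Prop :=
  Computed (fun p : HistIn => α p.1.1.length p.1.2.length p.2)

/-- Truth of a sequence of Boolean quantifiers (`true` for universal, `false` for existential). -/
def QTrue : List Bool → (List Bool → Prop) → Prop
  | [], φ => φ []
  | true :: qs, φ => ∀ b, QTrue qs (fun v => φ (b :: v))
  | false :: qs, φ => ∃ b, QTrue qs (fun v => φ (b :: v))

/-- The class of languages defined by polynomially many Boolean quantifiers followed by an
existential sentence over the reals (everything being computable in polynomial time). -/
def InQER (L : Set (List Bool)) : Prop :=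
  ∃ (qs : List Bool → List Bool) (F : List Bool × List Bool → Fm), Computed qs ∧ Computed F ∧
    ∀ w, w ∈ L ↔ QTrue (qs w) (fun v => ETR (F (w, v)))

/-- `α` never asks the oracle. -/
def OracleFree (α : Alg) : Prop := ∀ m n h w, (α m n h).2 ≠ Test.ask w

/-- With the oracle `O`, the algorithm `α` decides linear feasibility in strongly polynomial time:
on every real instance it answers correctly after at most `p (m + n)` elementary steps, never
dividing by zero, and on rational instances of encoding length `L` all numbers computed have
encoding length at most `30 L ^ 2`. -/
def StronglyPolynomial (O : Set (List Bool)) (α : Alg) : Prop :=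
  ∃ p : Polynomial ℕ, ∀ m n : ℕ, 1 ≤ m → 1 ≤ n →
    (∀ (A : Matrix (Fin m) (Fin n) ℝ) (b : Fin m → ℝ), ∃ ans nums steps,
      run O (α m n) (p.eval (m + n)) [] (start A b) = some (ans, nums, steps) ∧
      (ans = true ↔ ∃ x : Fin n → ℝ, b ≤ A.mulVec x) ∧ steps ≤ p.eval (m + n)) ∧
    (∀ (A : Matrix (Fin m) (Fin n) ℚ) (b : Fin m → ℚ) (k : ℕ) (ans : Bool) (nums : List ℝ)
      (steps : ℕ),
      run O (α m n) k [] (start (fun i j => ((A i j : ℚ) : ℝ)) (fun i => ((b i : ℚ) : ℝ))) =
        some (ans, nums, steps) →
      ∀ v ∈ nums, ∃ q : ℚ, (q : ℝ) = v ∧ bitLength q ≤ 30 * inputLength A b ^ 2)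

end Pool.Agent.H622R3.SM
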