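import Pool.Agent.H622R3.SM.Model
import Pool.Agent.H558R2.Final
import Pool.Agent.H612.TmPoly
import Pool.Agent.H671R2.PolyAuto

set_option autoImplicit false

/-!
# The algorithm and its oracle

Sizes, the program computing a minor, the algorithm `smale`, the game, the oracle.
-/

namespace Pool.Agent.H622R3.SM

open Pool.Agent.NPC Pool.Agent.NPC.ER Pool.Agent.NPC.H612 Pool.Agent.H558R2

/-! ### Sizes -/

/-- The number of bits describing a list of `m` columns. -/
def ell (m n : ℕ) : ℕ := m * (m + (n + n))

/-- The number of minors whose signs are determined. -/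
def dep (m n : ℕ) : ℕ := (2 * m + 2 * n + 3) * ((2 * m + 2 * n + 3) * (pexp m n + 1))

/-- The length of a complete history. -/
def tot (m n : ℕ) : ℕ := dep m n * (ell m n + 1)

/-! ### The program for one minor -/

/-- The column number `j` of the minor number `q` described by the history `h`; the value
`m + (n + n)` stands for the right-hand side. -/
def colOf (m n : ℕ) (h : List Outcome) (q j : ℕ) : ℕ :=
  (((List.range (m + (n + n))).filter fun k =>
    decide (h.getD (q * (ell m n + 1) + j * (m + (n + n)) + k) none = some true)).head?).getD
      (m + (n + n))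

/-- The columns of the minor number `q` described by the history `h`. -/
def beta (m n : ℕ) (h : List Outcome) (q : ℕ) : Fin m → Option (Fin (m + (n + n))) := fun j =>
  if hk : colOf m n h q j < m + (n + n) then some ⟨colOf m n h q j, hk⟩ else none

/-- The instruction computing the entry `(i, j)` of the matrix `E = - B` (where `B` has the columns
`beta`): register `[4, i, j]`. -/
def entryInstr (m n : ℕ) (h : List Outcome) (q i j : ℕ) : Instr :=
  if colOf m n h q j < m then
    (if i = colOf m n h q j then ⟨Op.sub, [4, i, j], [3], [2]⟩ else ⟨Op.add, [4, i, j], [3], [3]⟩)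
  else if colOf m n h q j < m + n then ⟨Op.add, [4, i, j], [0, i, colOf m n h q j - m], [3]⟩
  else if colOf m n h q j < m + (n + n) then
    ⟨Op.sub, [4, i, j], [3], [0, i, colOf m n h q j - m - n]⟩
  else ⟨Op.add, [4, i, j], [1, i], [3]⟩

/-- All entries. -/
def entryProg (m n : ℕ) (h : List Outcome) (q : ℕ) : List Instr :=
  (List.range m).flatMap fun i => (List.range m).map fun j => entryInstr m n h q i j

/-- The identity matrix in the registers `[6, 0, i, j]`, and the constant `0` in `[5, 0]`. -/
def initProg (m : ℕ) : List Instr :=
  ⟨Op.add, [5, 0], [3], [3]⟩ ::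
    (List.range m).flatMap fun i => (List.range m).map fun j =>
      (⟨Op.add, [6, 0, i, j], if i = j then [2] else [3], [3]⟩ : Instr)

/-- The product `E N_k`: products in `[7, k, i, j, l]`, partial sums in `[8, k, i, j, l]`. -/
def prodProg (m k : ℕ) : List Instr :=
  (List.range m).flatMap fun i => (List.range m).flatMap fun j =>
    (⟨Op.add, [8, k, i, j, 0], [3], [3]⟩ : Instr) ::
      (List.range m).flatMap fun l =>
        [(⟨Op.mul, [7, k, i, j, l], [4, i, l], [6, k, l, j]⟩ : Instr),
          ⟨Op.add, [8, k, i, j, l + 1], [8, k, i, j, l], [7, k, i, j, l]⟩]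

/-- The trace of `E N_k` in `[9, k, m]`, the number `k + 1` in `[5, k + 1]`, the quotient in
`[10, k]`. -/
def traceProg (m k : ℕ) : List Instr :=
  (⟨Op.add, [9, k, 0], [3], [3]⟩ : Instr) ::
    ((List.range m).map fun i => (⟨Op.add, [9, k, i + 1], [9, k, i], [8, k, i, i, m]⟩ : Instr)) ++
      [(⟨Op.add, [5, k + 1], [5, k], [2]⟩ : Instr), ⟨Op.div, [10, k], [9, k, m], [5, k + 1]⟩]

/-- The next matrix `N_(k+1)` in the registers `[6, k + 1, i, j]`. -/
def nextProg (m k : ℕ) : List Instr :=
  (List.range m).flatMap fun i => (List.range m).map fun j =>
    (⟨Op.sub, [6, k + 1, i, j], [8, k, i, j, m], if i = j then [10, k] else [3]⟩ : Instr)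

/-- The straight-line program computing the minor number `q` described by the history `h`, in
register `[11]` (Faddeev-LeVerrier). -/
def minorProg (m n : ℕ) (h : List Outcome) (q : ℕ) : List Instr :=
  entryProg m n h q ++ (initProg m ++
    ((List.range m).flatMap (fun k => prodProg m k ++ (traceProg m k ++ nextProg m k)) ++
      [(⟨Op.sub, [11], [3], [10, m - 1]⟩ : Instr)]))

/-! ### The algorithm -/

/-- The question asked after the history `h`. -/
def question (m n : ℕ) (h : List Outcome) : List Bool :=
  bits (((List.replicate m (), List.replicate n ()), h) : HistIn)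

/-- The algorithm: `dep m n` rounds; in every round the oracle tells the `ell m n` bits which
describe a minor, and the sign of this minor is determined; finally the oracle is asked for the
answer. -/
def smale : Alg := fun m n h =>
  if h.length < tot m n then
    (if h.length % (ell m n + 1) < ell m n then ([], Test.ask (question m n h))
      else (minorProg m n h (h.length / (ell m n + 1)), Test.sign [11]))
  else if h.length = tot m n then ([], Test.ask (question m n h))
  else ([], Test.answer (decide ((h.reverse.head?).getD none = some true)))

/-! ### Formulas -/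

/-- The variable attached to a name. -/
def vx (r : List ℕ) : ℕ := valB (bits r ++ [true])

/-- The term for the register `r` in the computation number `q` on the instance number `c`. -/
def regT (c q : ℕ) (r : Reg) : Tm :=
  if r = [2] then Tm.one
  else if r = [3] then Tm.zero
  else if r.headD 0 < 2 then Tm.var (vx (0 :: c :: r))
  else Tm.var (vx (1 :: c :: q :: r))

/-- The equation of an instruction. -/
def instrFm (c q : ℕ) (I : Instr) : Fm :=
  if opCode I.op = 0 then Fm.eq (regT c q I.dst) (Tm.add (regT c q I.fst) (regT c q I.snd))
  else if opCode I.op = 1 then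
    Fm.eq (regT c q I.dst) (Tm.add (regT c q I.fst) (Tm.neg (regT c q I.snd)))
  else if opCode I.op = 2 then Fm.eq (regT c q I.dst) (Tm.mul (regT c q I.fst) (regT c q I.snd))
  else Fm.eq (Tm.mul (regT c q I.dst) (regT c q I.snd)) (regT c q I.fst)

/-- The sign of a term. -/
def signFm (t : Tm) (s : Outcome) : Fm :=
  if s = some true then Fm.lt Tm.zero t
  else if s = some false then Fm.lt t Tm.zero
  else Fm.eq t Tm.zero

/-- The outcome recorded in the history `h` for the minor number `q`. -/
def recd (m n : ℕ) (h : List Outcome) (q : ℕ) : Outcome :=
  h.getD (q * (ell m n + 1) + ell m n) none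

/-- The minor number `q` of the instance number `c` has the recorded sign. -/
def minorFm (m n c : ℕ) (h : List Outcome) (q : ℕ) : Fm :=
  Fm.and (conj ((minorProg m n h q).map (instrFm c q))) (signFm (regT c q [11]) (recd m n h q))

/-- The instance number `c` is consistent with the complete history `h`. -/
def consFm (m n c : ℕ) (h : List Outcome) : Fm :=
  conj ((List.range (dep m n)).map (minorFm m n c h))

/-- The instance number `c` is feasible. -/
def feasFm (m n c : ℕ) : Fm :=
  conj ((List.range m).map fun i => Fm.le (Tm.var (vx (0 :: c :: [1, i])))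
    (sumT ((List.range n).map fun j =>
      Tm.mul (Tm.var (vx (0 :: c :: [0, i, j]))) (Tm.var (vx (2 :: c :: [j]))))))

/-- The instance number `c` is infeasible, by Farkas' lemma. -/
def infFm (m n c : ℕ) : Fm :=
  Fm.and (conj ((List.range m).map fun i => Fm.le Tm.zero (Tm.var (vx (3 :: c :: [i])))))
    (Fm.and (conj ((List.range n).map fun j => Fm.eq (sumT ((List.range m).map fun i =>
        Tm.mul (Tm.var (vx (3 :: c :: [i]))) (Tm.var (vx (0 :: c :: [0, i, j]))))) Tm.zero))
      (Fm.lt Tm.zero (sumT ((List.range m).map fun i =>
        Tm.mul (Tm.var (vx (3 :: c :: [i]))) (Tm.var (vx (0 :: c :: [1, i])))))))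

/-- There are a feasible and an infeasible instance consistent with `h`. -/
def bothFm (m n : ℕ) (h : List Outcome) : Fm :=
  Fm.and (Fm.and (consFm m n 0 h) (feasFm m n 0)) (Fm.and (consFm m n 1 h) (infFm m n 1))

/-- There is a feasible instance consistent with `h`. -/
def oneFm (m n : ℕ) (h : List Outcome) : Fm := Fm.and (consFm m n 0 h) (feasFm m n 0)

/-! ### The game and the oracle -/

/-- The input `a` is consistent with the complete history `h`. -/
def Cons (m n : ℕ) (h : List Outcome) (a : Inp m n) : Prop :=
  ∀ q < dep m n, signOut (dd (wmat a.1 a.2) (beta m n h q)) = recd m n h q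

/-- There are a feasible and an infeasible input consistent with `h`. -/
def Both (m n : ℕ) (h : List Outcome) : Prop :=
  (∃ a : Inp m n, Cons m n h a ∧ Feas a) ∧ ∃ a : Inp m n, Cons m n h a ∧ ¬ Feas a

/-- The first player (who chooses the minors) wins from the history `h` with `k` outcomes to come:
at the end all consistent inputs have the same answer. -/
def Win (m n : ℕ) : ℕ → List Outcome → Prop
  | 0, h => ¬ Both m n h
  | k + 1, h =>
    if h.length % (ell m n + 1) < ell m n then ∃ b : Bool, Win m n k (h ++ [some b])
    else ∀ s : Outcome, Win m n k (h ++ [s])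

/-- Two quantified bits describe an outcome. -/
def outc (isbit b b' : Bool) : Outcome :=
  if isbit then some b' else if b then some b' else none

/-- The complete history given by a history `h` (of length less than `tot m n`), followed by the
bit `0` and by outcomes described by `v`. -/
def full (m n : ℕ) (h : List Outcome) (v : List Bool) : List Outcome :=
  (h ++ [some false]) ++ (List.range (tot m n - (h.length + 1))).map fun i =>
    outc (decide ((h.length + 1 + i) % (ell m n + 1) < ell m n)) (v.getD (2 * i) false)
      (v.getD (2 * i + 1) false)

/-- The quantifiers of the oracle. -/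
def quants (m n : ℕ) (h : List Outcome) : List Bool :=
  (List.range (tot m n - (h.length + 1))).flatMap fun i =>
    [decide ((h.length + 1 + i) % (ell m n + 1) < ell m n),
      decide ((h.length + 1 + i) % (ell m n + 1) < ell m n)]

/-- The matrix of the oracle. -/
def matrixFm (m n : ℕ) (h : List Outcome) (v : List Bool) : Fm :=
  if h.length < tot m n then bothFm m n (full m n h v) else oneFm m n h

/-- The quantifiers, as a function of the question. -/
def qsO (w : List Bool) : List Bool :=
  match unbits HistIn w with
  | none => []
  | some p => quants p.1.1.length p.1.2.length p.2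

/-- The matrix, as a function of the question. -/
def fO (p : List Bool × List Bool) : Fm :=
  match unbits HistIn p.1 with
  | none => Fm.lt Tm.zero Tm.zero
  | some q => matrixFm q.1.1.length q.1.2.length q.2 p.2

/-- The oracle. -/
def oracle : Set (List Bool) := {w | QTrue (qsO w) (fun v => ETR (fO (w, v)))}

end Pool.Agent.H622R3.SM
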