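import Pool.Agent.H622R3.SM.Prog
import Pool.Agent.H623R2.PS.Defs

set_option autoImplicit false

/-!
# The statements of the tasks
-/

namespace Pool.Agent.H622R3.SM

open Pool.Agent.NPC Pool.Agent.NPC.ER Pool.Agent.NPC.H612 Pool.Agent.H558R2

/-- Entry of a matrix, for natural number indices. -/
noncomputable def ent {m : ℕ} (M : Matrix (Fin m) (Fin m) ℝ) (i j : ℕ) : ℝ :=
  if h : i < m ∧ j < m then M ⟨i, h.1⟩ ⟨j, h.2⟩ else 0

/-- The matrix `E` of the minor number `q`. -/
noncomputable def EM (m n : ℕ) (h : List Outcome) (q : ℕ) (a : Inp m n) :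
    Matrix (Fin m) (Fin m) ℝ := Bm (beta m n h q) (val a)

/-- The intended values of the registers of `minorProg m n h q` on the input `a`. -/
noncomputable def vreg (m n : ℕ) (h : List Outcome) (q : ℕ) (a : Inp m n) : Reg → ℝ
  | [4, i, j] => ent (EM m n h q a) i j
  | [5, k] => (k : ℝ)
  | [6, k, i, j] => ent (flN (EM m n h q a) k) i j
  | [7, k, i, j, l] => ent (EM m n h q a) i l * ent (flN (EM m n h q a) k) l j
  | [8, k, i, j, l] => ∑ l' ∈ Finset.range l,
      ent (EM m n h q a) i l' * ent (flN (EM m n h q a) k) l' j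
  | [9, k, i] => ∑ i' ∈ Finset.range i, ∑ l ∈ Finset.range m,
      ent (EM m n h q a) i' l * ent (flN (EM m n h q a) k) l i'
  | [10, k] => (∑ i ∈ Finset.range m, ∑ l ∈ Finset.range m,
      ent (EM m n h q a) i l * ent (flN (EM m n h q a) k) l i) / ((k : ℝ) + 1)
  | [11] => dd (wmat a.1 a.2) (beta m n h q)
  | r => start a.1 a.2 r

/-- The registers which are never written. -/
def baseReg : Set Reg := {r | r.headD 0 < 4}

/-- A program only reads registers in `S` or written before, and writes every register outside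
`S` at most once, and no register in `S`. -/
def Ord : Set Reg → List Instr → Prop
  | _, [] => True
  | S, I :: P => I.fst ∈ S ∧ I.snd ∈ S ∧ I.dst ∉ S ∧ Ord (insert I.dst S) P

/-- the values satisfy all equations of the program -/
def S_EQ : Prop := ∀ (m n : ℕ) (h : List Outcome) (q : ℕ) (a : Inp m n), 1 ≤ m →
  (∀ r ∈ baseReg, vreg m n h q a r = start a.1 a.2 r) ∧
  ∀ I ∈ minorProg m n h q,
    vreg m n h q a I.dst = I.op.eval (vreg m n h q a I.fst) (vreg m n h q a I.snd) ∧
    (I.op = Op.div → vreg m n h q a I.snd ≠ 0)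

/-- the program is well ordered -/
def S_ORD : Prop := ∀ (m n : ℕ) (h : List Outcome) (q : ℕ), 1 ≤ m →
  Ord baseReg (minorProg m n h q)

/-- execution of a well ordered program whose equations are satisfied by `V` -/
def S_EXEC : Prop := ∀ (S : Set Reg) (P : List Instr) (V ρ : Reg → ℝ), Ord S P →
  (∀ r ∈ S, ρ r = V r) →
  (∀ I ∈ P, V I.dst = I.op.eval (V I.fst) (V I.snd) ∧ (I.op = Op.div → V I.snd ≠ 0)) →
  ∃ ρ' : Reg → ℝ, exec P ρ = some (ρ', P.map fun I => V I.dst) ∧
    (∀ r ∈ S, ρ' r = V r) ∧ (∀ I ∈ P, ρ' I.dst = V I.dst)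

/-- the values are small rational numbers on rational inputs -/
def S_SMALL : Prop := ∀ (m n : ℕ) (h : List Outcome) (q : ℕ) (A : Matrix (Fin m) (Fin n) ℚ)
  (b : Fin m → ℚ), 1 ≤ m → ∀ I ∈ minorProg m n h q,
    ∃ r : ℚ, (r : ℝ) = vreg m n h q (fun i j => ((A i j : ℚ) : ℝ), fun i => ((b i : ℚ) : ℝ)) I.dst ∧
      bitLength r ≤ 30 * inputLength A b ^ 2

/-- the equation of an instruction, with division as multiplication -/
def InstrEq (g : Reg → ℝ) (I : Instr) : Prop :=
  match I.op with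
  | Op.add => g I.dst = g I.fst + g I.snd
  | Op.sub => g I.dst = g I.fst - g I.snd
  | Op.mul => g I.dst = g I.fst * g I.snd
  | Op.div => g I.dst * g I.snd = g I.fst

/-- the equations of the program determine the value of the minor -/
def S_UNI : Prop := ∀ (m n : ℕ) (h : List Outcome) (q : ℕ) (a : Inp m n) (g : Reg → ℝ), 1 ≤ m →
  (∀ i j (hi : i < m) (hj : j < n), g [0, i, j] = a.1 ⟨i, hi⟩ ⟨j, hj⟩) →
  (∀ i (hi : i < m), g [1, i] = a.2 ⟨i, hi⟩) → g [2] = 1 → g [3] = 0 →
  (∀ I ∈ minorProg m n h q, InstrEq g I) →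
  g [11] = dd (wmat a.1 a.2) (beta m n h q)

/-- Farkas' lemma -/
def S_FARKAS : Prop := ∀ (m n : ℕ) (a : Inp m n), ¬ Feas a ↔
  ∃ y : Fin m → ℝ, (∀ i, 0 ≤ y i) ∧ (∀ j, ∑ i, y i * a.1 i j = 0) ∧ 0 < ∑ i, y i * a.2 i

/-- the variables attached to different names are different -/
def S_VX : Prop := Function.Injective vx

/-- The instance number `c` described by a valuation. -/
def inst (m n c : ℕ) (x : ℕ → ℝ) : Inp m n :=
  (fun i j => x (vx (0 :: c :: [0, (i : ℕ), (j : ℕ)])), fun i => x (vx (0 :: c :: [1, (i : ℕ)])))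

/-- meaning of `minorFm` (soundness) -/
def S_MF : Prop := ∀ (m n c : ℕ) (h : List Outcome) (x : ℕ → ℝ), 1 ≤ m →
  (consFm m n c h).Holds x → Cons m n h (inst m n c x)

/-- existence of a valuation with prescribed instances and auxiliary vectors satisfying all
consistency formulas -/
def S_VAL : Prop := ∀ (m n : ℕ) (h : List Outcome) (a : ℕ → Inp m n) (u v : ℕ → ℕ → ℝ), 1 ≤ m →
  ∃ x : ℕ → ℝ, (∀ c, inst m n c x = a c) ∧ (∀ c, Cons m n h (a c) → (consFm m n c h).Holds x) ∧
    (∀ c j, x (vx (2 :: c :: [j])) = u c j) ∧ (∀ c i, x (vx (3 :: c :: [i])) = v c i)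

/-- meaning of `feasFm` and `infFm` -/
def S_FI : Prop := ∀ (m n c : ℕ) (x : ℕ → ℝ),
  ((feasFm m n c).Holds x ↔ ∀ i, (inst m n c x).2 i ≤
    ∑ j : Fin n, (inst m n c x).1 i j * x (vx (2 :: c :: [(j : ℕ)]))) ∧
  ((infFm m n c).Holds x ↔ (∀ i : Fin m, 0 ≤ x (vx (3 :: c :: [(i : ℕ)]))) ∧
    (∀ j, ∑ i : Fin m, x (vx (3 :: c :: [(i : ℕ)])) * (inst m n c x).1 i j = 0) ∧
    0 < ∑ i : Fin m, x (vx (3 :: c :: [(i : ℕ)])) * (inst m n c x).2 i)

/-- meaning of the formulas of the oracle -/
def S_BOTH : Prop := ∀ (m n : ℕ) (h : List Outcome), 1 ≤ m →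
  (ETR (bothFm m n h) ↔ Both m n h) ∧ (ETR (oneFm m n h) ↔ ∃ a : Inp m n, Cons m n h a ∧ Feas a)

/-- every list of columns is described by some bits -/
def S_ENC : Prop := ∀ (m n : ℕ) (β : Fin m → Option (Fin (m + (n + n)))), ∃ u : List Bool,
  u.length = ell m n ∧ ∀ (h t : List Outcome) (q : ℕ), h.length = q * (ell m n + 1) →
    beta m n (h ++ (u.map some ++ t)) q = β

/-- the description of the minor number `q` and its recorded sign only depend on the first part of
the history -/
def S_STAB : Prop := ∀ (m n : ℕ) (h t : List Outcome) (q : ℕ),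
  (q * (ell m n + 1) + ell m n ≤ h.length → beta m n (h ++ t) q = beta m n h q ∧
    minorProg m n (h ++ t) q = minorProg m n h q) ∧
  ((q + 1) * (ell m n + 1) ≤ h.length → recd m n (h ++ t) q = recd m n h q)

/-- the first player wins from the beginning -/
def S_WIN : Prop := ∀ m n : ℕ, 1 ≤ m → Win m n (tot m n) []

/-- the quantifiers of the oracle describe the game -/
def S_Q : Prop := ∀ (m n : ℕ) (h : List Outcome), 1 ≤ m → h.length < tot m n →
  (QTrue (quants m n h) (fun v => ETR (bothFm m n (full m n h v))) ↔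
    ¬ Win m n (tot m n - (h.length + 1)) (h ++ [some false]))

/-- the answers of the oracle -/
def S_ORA : Prop := ∀ (m n : ℕ) (h : List Outcome), 1 ≤ m →
  (h.length < tot m n → (question m n h ∈ oracle ↔
    ¬ Win m n (tot m n - (h.length + 1)) (h ++ [some false]))) ∧
  (h.length = tot m n → (question m n h ∈ oracle ↔ ∃ a : Inp m n, Cons m n h a ∧ Feas a))

/-- execution of the program of a minor -/
def S_MINOR : Prop := ∀ (m n : ℕ) (h : List Outcome) (q : ℕ) (a : Inp m n) (ρ : Reg → ℝ), 1 ≤ m →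
  (∀ r ∈ baseReg, ρ r = start a.1 a.2 r) →
  ∃ ρ' : Reg → ℝ, exec (minorProg m n h q) ρ =
      some (ρ', (minorProg m n h q).map fun I => vreg m n h q a I.dst) ∧
    (∀ r ∈ baseReg, ρ' r = start a.1 a.2 r) ∧ ρ' [11] = dd (wmat a.1 a.2) (beta m n h q)

/-- the length of the program of a minor -/
def S_LEN : Prop := ∀ (m n : ℕ) (h : List Outcome) (q : ℕ), 1 ≤ m →
  (minorProg m n h q).length ≤ 12 * m ^ 4

/-- the run of the algorithm -/
def S_RUN : Prop := ∀ (m n : ℕ) (a : Inp m n) (k : ℕ), 1 ≤ m → tot m n + 2 ≤ k →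
  ∃ ans nums steps, run oracle (smale m n) k [] (start a.1 a.2) = some (ans, nums, steps) ∧
    (ans = true ↔ Feas a) ∧ steps ≤ tot m n * (12 * m ^ 4 + 1) + 2

/-- all numbers computed are small on rational inputs -/
def S_NUMS : Prop := ∀ (O : Set (List Bool)) (m n : ℕ) (A : Matrix (Fin m) (Fin n) ℚ)
  (b : Fin m → ℚ) (k : ℕ) (ans : Bool) (nums : List ℝ) (steps : ℕ), 1 ≤ m →
  run O (smale m n) k [] (start (fun i j => ((A i j : ℚ) : ℝ)) (fun i => ((b i : ℚ) : ℝ))) =
    some (ans, nums, steps) →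
  ∀ v ∈ nums, ∃ q : ℚ, (q : ℝ) = v ∧ bitLength q ≤ 30 * inputLength A b ^ 2

/-- polynomial bound -/
def S_POL : Prop := ∃ p : Polynomial ℕ, ∀ m n : ℕ, 1 ≤ m → 1 ≤ n →
  tot m n + 2 ≤ p.eval (m + n) ∧ tot m n * (12 * m ^ 4 + 1) + 2 ≤ p.eval (m + n)

/-- the sizes are polynomial, in unary -/
def S_UP : Prop := UPoly (fun p : HistIn => ell p.1.1.length p.1.2.length) ∧
  UPoly (fun p : HistIn => dep p.1.1.length p.1.2.length) ∧
  UPoly (fun p : HistIn => tot p.1.1.length p.1.2.length)

/-- the program of a minor is computed in polynomial time -/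
def S_PM : Prop := Poly (fun p : HistIn × ℕ => minorProg p.1.1.1.length p.1.1.2.length p.1.2 p.2)

/-- the algorithm is computed in polynomial time -/
def S_PC : Prop := Poly (fun p : HistIn => smale p.1.1.length p.1.2.length p.2)

/-- the formulas of the oracle are computed in polynomial time -/
def S_PF : Prop := Poly (fun p : HistIn => bothFm p.1.1.length p.1.2.length p.2) ∧
  Poly (fun p : HistIn => oneFm p.1.1.length p.1.2.length p.2)

/-- quantifiers and matrix of the oracle are computed in polynomial time -/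
def S_PQ : Prop := Poly qsO ∧ Poly fO

/-- from `Poly` to Turing machines -/
def S_COMP : Prop := ∀ (β γ : Type) [TEnc β] [TDec β] [TEnc γ] (f : β → γ), Poly f → Computed f

/-- from Turing machines to `Poly` -/
def S_COMP' : Prop := ∀ (β γ : Type) [TEnc β] [TEnc γ] (f : β → γ), Computed f → Poly f

/-- elimination of an oracle in P -/
def S_ELIM : Prop := ∀ (α : Alg) (O : Set (List Bool)), PolyControl α → InP O →
  StronglyPolynomial O α → ∃ α' : Alg, PolyControl α' ∧ OracleFree α' ∧ StronglyPolynomial ∅ α'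

/-- the class of quantified existential sentences collapses to P if PSPACE and the existential
theory of the reals do -/
def S_COL : Prop := (∀ L, Pool.Agent.H623R2.PS.InPSPACE L → InP L) → (∀ L, InER L → InP L) →
  ∀ L, InQER L → InP L

/-- the main theorem -/
def S_MAIN : Prop :=
  (∃ (α : Alg) (O : Set (List Bool)), PolyControl α ∧ InQER O ∧ StronglyPolynomial O α) ∧
  ((∀ L, Pool.Agent.H623R2.PS.InPSPACE L → InP L) → (∀ L, InER L → InP L) →
    ∃ α : Alg, PolyControl α ∧ OracleFree α ∧ StronglyPolynomial ∅ α)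

end Pool.Agent.H622R3.SM
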