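import Pool.Agent.H622R3.SM.Stm
import Pool.Agent.ER.GapSys

set_option autoImplicit false

/-!
# Doubly exponential time: statements
-/

namespace Pool.Agent.H622R3.SM

open Pool.Agent.NPC Pool.Agent.NPC.ER Pool.Agent.NPC.H612 Pool.Agent.H558R2

/-- `L` is decided in doubly exponential time: a polynomial-time machine decides `w ∈ L` when the
input `w` is padded by any number `T ≥ 2 ^ 2 ^ p(|w|)` of ones. -/
def In2EXP (L : Set (List Bool)) : Prop :=
  ∃ (V : List Bool → List Bool) (p : Polynomial ℕ), PolyTime V ∧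
    ∀ (w : List Bool) (T : ℕ), 2 ^ 2 ^ (p.eval w.length) ≤ T →
      (w ∈ L ↔ V (pairBits (List.replicate T true) w) = [true])

/-- The function `f` is computed in doubly exponential time: a polynomial-time machine computes it
when the input is padded by any number `T ≥ 2 ^ 2 ^ p(n)` of ones, `n` its length. -/
def Computed2EXP {β γ : Type} [TEnc β] [TEnc γ] (f : β → γ) : Prop :=
  ∃ (g : List Bool → List Bool) (p : Polynomial ℕ), PolyTime g ∧
    ∀ (a : β) (T : ℕ), 2 ^ 2 ^ (p.eval (bits a).length) ≤ T →
      g (pairBits (List.replicate T true) (bits a)) = bits (f a)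

/-- satisfiability of systems by a finite search -/
def S_GRID : Prop := ∀ S : List Con, Sat S ↔
  ∃ k : ℕ → ℕ, (∀ i, k i ≤ 2 * 2 ^ 2 ^ (gapK (bsys S).length + 2)) ∧
    ∀ c ∈ bsys S, |c.err (fun i => (k i : ℝ) / 2 ^ 2 ^ (gapK (bsys S).length + 2) - 1)| *
      2 ^ 2 ^ gapK (bsys S).length ≤ 1

/-- decision procedure for systems -/
def S_DECS : Prop := ∃ (dec : List Con × List Unit → Bool) (p : Polynomial ℕ), Poly dec ∧
  ∀ (S : List Con) (T : List Unit), 2 ^ 2 ^ (p.eval S.length) ≤ T.length →
    (dec (S, T) = true ↔ Sat S)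

/-- decision procedure for formulas -/
def S_DECF : Prop := ∃ (dec : Fm × List Unit → Bool) (p : Polynomial ℕ), Poly dec ∧
  ∀ (φ : Fm) (T : List Unit), 2 ^ 2 ^ (p.eval (bits φ).length) ≤ T.length →
    (dec (φ, T) = true ↔ ETR φ)

/-- the quantified class is contained in doubly exponential time -/
def S_Q2 : Prop := ∀ L, InQER L → In2EXP L

/-- elimination of an oracle decidable in doubly exponential time -/
def S_ELIM2 : Prop := ∀ (α : Alg) (O : Set (List Bool)), PolyControl α → In2EXP O →
  StronglyPolynomial O α → ∃ α' : Alg,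
    Computed2EXP (fun p : HistIn => α' p.1.1.length p.1.2.length p.2) ∧ OracleFree α' ∧
      StronglyPolynomial ∅ α'

/-- the main theorem, second form -/
def S_MAIN2 : Prop := ∃ α : Alg,
  Computed2EXP (fun p : HistIn => α p.1.1.length p.1.2.length p.2) ∧ OracleFree α ∧
    StronglyPolynomial ∅ α

end Pool.Agent.H622R3.SM
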