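import Pool.Agent.H622R3.SM.Stm

set_option autoImplicit false

namespace Pool.Agent.H622R3.SM

open Pool.Agent.NPC Pool.Agent.NPC.ER Pool.Agent.NPC.H612 Pool.Agent.H558R2

theorem feas_iff {m n : ℕ} (A : Matrix (Fin m) (Fin n) ℝ) (b : Fin m → ℝ) :
    Feas ((A, b) : Inp m n) ↔ ∃ x : Fin n → ℝ, b ≤ A.mulVec x := by
  unfold Feas
  constructor
  · rintro ⟨x, hx⟩
    exact ⟨x, fun i => by simpa [Matrix.mulVec, dotProduct] using hx i⟩
  · rintro ⟨x, hx⟩
    exact ⟨x, fun i => by simpa [Matrix.mulVec, dotProduct] using hx i⟩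

theorem t_STRONG (hR : S_RUN) (hN : S_NUMS) (hP : S_POL) : StronglyPolynomial oracle smale := by
  obtain ⟨p, hp⟩ := hP
  refine ⟨p, fun m n hm hn => ⟨fun A b => ?_, fun A b k ans nums steps h => ?_⟩⟩
  · obtain ⟨h1, h2⟩ := hp m n hm hn
    obtain ⟨ans, nums, steps, h3, h4, h5⟩ := hR m n (A, b) (p.eval (m + n)) hm h1
    exact ⟨ans, nums, steps, h3, h4.trans (feas_iff A b), h5.trans h2⟩
  · exact hN oracle m n A b k ans nums steps hm h

theorem t_QER (hQ : S_PQ) (hC : S_COMP) : InQER oracle :=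
  ⟨qsO, fO, hC _ _ _ hQ.1, hC _ _ _ hQ.2, fun _ => Iff.rfl⟩

theorem t_CONTROL (hS : S_PC) (hC : S_COMP) : PolyControl smale := hC _ _ _ hS

theorem t_MAIN (hR : S_RUN) (hN : S_NUMS) (hP : S_POL) (hQ : S_PQ) (hS : S_PC) (hC : S_COMP)
    (hE : S_ELIM) (hL : S_COL) : S_MAIN := by
  have h1 := t_STRONG hR hN hP
  have h2 := t_QER hQ hC
  have h3 := t_CONTROL hS hC
  refine ⟨⟨smale, oracle, h3, h2, h1⟩, fun hps her => ?_⟩
  exact hE smale oracle h3 (hL hps her oracle h2) h1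

end Pool.Agent.H622R3.SM
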