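import Pool.Agent.H622R3.SM.Stm

set_option autoImplicit false

/-!
# Execution of the program of a minor
-/

namespace Pool.Agent.H622R3.SM

open Pool.Agent.NPC Pool.Agent.NPC.ER Pool.Agent.NPC.H612 Pool.Agent.H558R2

theorem t_MINOR : S_EQ → S_ORD → S_EXEC → S_MINOR := by
  intro hEQ hORD hEXEC m n h q a ρ hm hρ
  obtain ⟨h1, h2⟩ := hEQ m n h q a hm
  obtain ⟨ρ', e1, e2, e3⟩ := hEXEC baseReg (minorProg m n h q) (vreg m n h q a) ρ
    (hORD m n h q hm) (fun r hr => by rw [hρ r hr, h1 r hr]) h2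
  refine ⟨ρ', e1, fun r hr => by rw [e2 r hr, h1 r hr], ?_⟩
  have h4 := e3 (⟨Op.sub, [11], [3], [10, m - 1]⟩ : Instr) (by simp [minorProg])
  have h5 : vreg m n h q a [11] = dd (wmat a.1 a.2) (beta m n h q) := rfl
  rw [← h5]
  exact h4

end Pool.Agent.H622R3.SM
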