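import Pool.Agent.H622R3.SM.Stm

set_option autoImplicit false

/-!
# Task UNI: the equations determine the minor
-/

namespace Pool.Agent.H622R3.SM

open Pool.Agent.NPC Pool.Agent.NPC.ER Pool.Agent.NPC.H612 Pool.Agent.H558R2

namespace TUNI

theorem col_inl {m n : ℕ} (k : ℕ) (hk : k < m) (hk' : k < m + (n + n)) :
    (colEquiv m n).symm ⟨k, hk'⟩ = Sum.inl ⟨k, hk⟩ := by
  rw [Equiv.symm_apply_eq]
  apply Fin.ext
  simp [colEquiv]

theorem col_mid {m n : ℕ} (k : ℕ) (hk : k < n) (hk' : m + k < m + (n + n)) :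
    (colEquiv m n).symm ⟨m + k, hk'⟩ = Sum.inr (Sum.inl ⟨k, hk⟩) := by
  rw [Equiv.symm_apply_eq]
  apply Fin.ext
  simp [colEquiv]

theorem col_last {m n : ℕ} (k : ℕ) (hk : k < n) (hk' : m + (n + k) < m + (n + n)) :
    (colEquiv m n).symm ⟨m + (n + k), hk'⟩ = Sum.inr (Sum.inr ⟨k, hk⟩) := by
  rw [Equiv.symm_apply_eq]
  apply Fin.ext
  simp [colEquiv]
  omega

theorem EM_apply (m n : ℕ) (h : List Outcome) (q : ℕ) (a : Inp m n) (i j : Fin m) :
    EM m n h q a i j = - wmat a.1 a.2 i (beta m n h q j) := rfl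

theorem ent_of {m : ℕ} (M : Matrix (Fin m) (Fin m) ℝ) (i j : ℕ) (hi : i < m) (hj : j < m) :
    ent M i j = M ⟨i, hi⟩ ⟨j, hj⟩ := by
  simp [ent, hi, hj]

theorem mem_entry (m n : ℕ) (h : List Outcome) (q i j : ℕ) (hi : i < m) (hj : j < m) :
    entryInstr m n h q i j ∈ minorProg m n h q := by
  rw [minorProg, List.mem_append]
  left
  rw [entryProg, List.mem_flatMap]
  exact ⟨i, List.mem_range.2 hi, List.mem_map.2 ⟨j, List.mem_range.2 hj, rfl⟩⟩

theorem mem_init (m n : ℕ) (h : List Outcome) (q : ℕ) (I : Instr) (hI : I ∈ initProg m) :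
    I ∈ minorProg m n h q := by
  rw [minorProg, List.mem_append, List.mem_append]
  exact Or.inr (Or.inl hI)

theorem mem_round (m n : ℕ) (h : List Outcome) (q k : ℕ) (hk : k < m) (I : Instr)
    (hI : I ∈ prodProg m k ++ (traceProg m k ++ nextProg m k)) :
    I ∈ minorProg m n h q := by
  rw [minorProg, List.mem_append, List.mem_append, List.mem_append]
  exact Or.inr (Or.inr (Or.inl (List.mem_flatMap.2 ⟨k, List.mem_range.2 hk, hI⟩)))

theorem mem_last (m n : ℕ) (h : List Outcome) (q : ℕ) :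
    (⟨Op.sub, [11], [3], [10, m - 1]⟩ : Instr) ∈ minorProg m n h q := by
  rw [minorProg, List.mem_append, List.mem_append, List.mem_append]
  exact Or.inr (Or.inr (Or.inr (List.mem_singleton.2 rfl)))

theorem entry_eq (m n : ℕ) (h : List Outcome) (q : ℕ) (a : Inp m n) (g : Reg → ℝ)
    (hA : ∀ i j (hi : i < m) (hj : j < n), g [0, i, j] = a.1 ⟨i, hi⟩ ⟨j, hj⟩)
    (hb : ∀ i (hi : i < m), g [1, i] = a.2 ⟨i, hi⟩) (h2 : g [2] = 1) (h3 : g [3] = 0)
    (hP : ∀ I ∈ minorProg m n h q, InstrEq g I) (i j : ℕ) (hi : i < m) (hj : j < m) :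
    g [4, i, j] = ent (EM m n h q a) i j := by
  have hI := hP _ (mem_entry m n h q i j hi hj)
  rw [ent_of _ i j hi hj, EM_apply]
  have hbeta : beta m n h q ⟨j, hj⟩ = if hk : colOf m n h q j < m + (n + n) then
    some ⟨colOf m n h q j, hk⟩ else none := rfl
  rw [hbeta]
  unfold entryInstr at hI
  generalize colOf m n h q j = c at hI
  split_ifs at hI with c1 c2 c3 c4
  · -- slack column, on the diagonal
    have hc' : c < m + (n + n) := by omega
    rw [dif_pos hc']
    change g [4, i, j] = g [3] - g [2] at hI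
    rw [hI, h2, h3]
    change 0 - 1 = - colEntry a.1 ⟨i, hi⟩ ((colEquiv m n).symm ⟨c, hc'⟩)
    rw [col_inl c c1 hc']
    simp [colEntry, c2]
  · have hc' : c < m + (n + n) := by omega
    rw [dif_pos hc']
    change g [4, i, j] = g [3] + g [3] at hI
    rw [hI, h3]
    change 0 + 0 = - colEntry a.1 ⟨i, hi⟩ ((colEquiv m n).symm ⟨c, hc'⟩)
    rw [col_inl c c1 hc']
    simp [colEntry, c2]
  · have hc' : c < m + (n + n) := by omega
    rw [dif_pos hc']
    change g [4, i, j] = g [0, i, c - m] + g [3] at hI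
    have hcm : c - m < n := by omega
    rw [hI, h3, hA i (c - m) hi hcm]
    have : (colEquiv m n).symm ⟨c, hc'⟩ = Sum.inr (Sum.inl ⟨c - m, hcm⟩) := by
      have e : (⟨c, hc'⟩ : Fin (m + (n + n))) = ⟨m + (c - m), by omega⟩ := by
        apply Fin.ext; simp only; omega
      rw [e, col_mid (c - m) hcm]
    change _ = - colEntry a.1 ⟨i, hi⟩ ((colEquiv m n).symm ⟨c, hc'⟩)
    rw [this]
    simp [colEntry]
  · have hc' : c < m + (n + n) := by omega
    rw [dif_pos hc']
    change g [4, i, j] = g [3] - g [0, i, c - m - n] at hI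
    have hcm : c - m - n < n := by omega
    rw [hI, h3, hA i (c - m - n) hi hcm]
    have : (colEquiv m n).symm ⟨c, hc'⟩ = Sum.inr (Sum.inr ⟨c - m - n, hcm⟩) := by
      have e : (⟨c, hc'⟩ : Fin (m + (n + n))) = ⟨m + (n + (c - m - n)), by omega⟩ := by
        apply Fin.ext; simp only; omega
      rw [e, col_last (c - m - n) hcm]
    change _ = - colEntry a.1 ⟨i, hi⟩ ((colEquiv m n).symm ⟨c, hc'⟩)
    rw [this]
    simp [colEntry]
  · rw [dif_neg c4]
    change g [4, i, j] = g [1, i] + g [3] at hI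
    rw [hI, h3, hb i hi]
    change _ = - (- a.2 ⟨i, hi⟩)
    ring

theorem five (m n : ℕ) (h : List Outcome) (q : ℕ) (g : Reg → ℝ)
    (h2 : g [2] = 1) (h3 : g [3] = 0)
    (hP : ∀ I ∈ minorProg m n h q, InstrEq g I) : ∀ k ≤ m, g [5, k] = (k : ℝ) := by
  intro k
  induction k with
  | zero =>
    intro _
    have hI := hP ⟨Op.add, [5, 0], [3], [3]⟩ (mem_init m n h q _ (by simp [initProg]))
    change g [5, 0] = g [3] + g [3] at hI
    rw [hI, h3]; norm_num
  | succ k ih =>
    intro hk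
    have hI := hP ⟨Op.add, [5, k + 1], [5, k], [2]⟩ (mem_round m n h q k hk _ (by
      simp [traceProg]))
    change g [5, k + 1] = g [5, k] + g [2] at hI
    rw [hI, h2, ih (by omega)]
    push_cast; ring

theorem six0 (m n : ℕ) (h : List Outcome) (q : ℕ) (g : Reg → ℝ)
    (h2 : g [2] = 1) (h3 : g [3] = 0)
    (hP : ∀ I ∈ minorProg m n h q, InstrEq g I) (i j : ℕ) (hi : i < m) (hj : j < m) :
    g [6, 0, i, j] = if i = j then 1 else 0 := by
  have hI := hP ⟨Op.add, [6, 0, i, j], if i = j then [2] else [3], [3]⟩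
    (mem_init m n h q _ (by
      rw [initProg, List.mem_cons]
      right
      rw [List.mem_flatMap]
      exact ⟨i, List.mem_range.2 hi, List.mem_map.2 ⟨j, List.mem_range.2 hj, rfl⟩⟩))
  change g [6, 0, i, j] = g (if i = j then [2] else [3]) + g [3] at hI
  rw [hI]
  split_ifs with c
  · rw [h2, h3]; norm_num
  · rw [h3]; norm_num

theorem mem_prod0 (m k i j : ℕ) (hi : i < m) (hj : j < m) :
    (⟨Op.add, [8, k, i, j, 0], [3], [3]⟩ : Instr) ∈ prodProg m k := by
  rw [prodProg, List.mem_flatMap]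
  refine ⟨i, List.mem_range.2 hi, ?_⟩
  rw [List.mem_flatMap]
  exact ⟨j, List.mem_range.2 hj, List.mem_cons_self⟩

theorem mem_prod1 (m k i j l : ℕ) (hi : i < m) (hj : j < m) (hl : l < m) :
    (⟨Op.mul, [7, k, i, j, l], [4, i, l], [6, k, l, j]⟩ : Instr) ∈ prodProg m k ∧
    (⟨Op.add, [8, k, i, j, l + 1], [8, k, i, j, l], [7, k, i, j, l]⟩ : Instr) ∈ prodProg m k := by
  constructor
  · rw [prodProg, List.mem_flatMap]
    refine ⟨i, List.mem_range.2 hi, ?_⟩
    rw [List.mem_flatMap]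
    refine ⟨j, List.mem_range.2 hj, List.mem_cons_of_mem _ ?_⟩
    rw [List.mem_flatMap]
    exact ⟨l, List.mem_range.2 hl, by simp⟩
  · rw [prodProg, List.mem_flatMap]
    refine ⟨i, List.mem_range.2 hi, ?_⟩
    rw [List.mem_flatMap]
    refine ⟨j, List.mem_range.2 hj, List.mem_cons_of_mem _ ?_⟩
    rw [List.mem_flatMap]
    exact ⟨l, List.mem_range.2 hl, by simp⟩

section

variable (m n : ℕ) (h : List Outcome) (q : ℕ) (g : Reg → ℝ) (e N : ℕ → ℕ → ℝ) (k : ℕ)

theorem eight (h3 : g [3] = 0) (hk : k < m)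
    (hP : ∀ I ∈ minorProg m n h q, InstrEq g I)
    (he : ∀ i j, i < m → j < m → g [4, i, j] = e i j)
    (hN : ∀ i j, i < m → j < m → g [6, k, i, j] = N i j) (i j : ℕ) (hi : i < m) (hj : j < m) :
    ∀ l ≤ m, g [8, k, i, j, l] = ∑ l' ∈ Finset.range l, e i l' * N l' j := by
  intro l
  induction l with
  | zero =>
    intro _
    have hI := hP _ (mem_round m n h q k hk _ (List.mem_append_left _ (mem_prod0 m k i j hi hj)))
    change g [8, k, i, j, 0] = g [3] + g [3] at hI
    rw [hI, h3]; norm_num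
  | succ l ih =>
    intro hl
    have hl' : l < m := hl
    obtain ⟨m1, m2⟩ := mem_prod1 m k i j l hi hj hl'
    have hI1 := hP _ (mem_round m n h q k hk _ (List.mem_append_left _ m1))
    have hI2 := hP _ (mem_round m n h q k hk _ (List.mem_append_left _ m2))
    change g [7, k, i, j, l] = g [4, i, l] * g [6, k, l, j] at hI1
    change g [8, k, i, j, l + 1] = g [8, k, i, j, l] + g [7, k, i, j, l] at hI2
    rw [hI2, hI1, ih hl'.le, Finset.sum_range_succ, he i l hi hl', hN l j hl' hj]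

theorem nine (h3 : g [3] = 0) (hk : k < m)
    (hP : ∀ I ∈ minorProg m n h q, InstrEq g I)
    (he : ∀ i j, i < m → j < m → g [4, i, j] = e i j)
    (hN : ∀ i j, i < m → j < m → g [6, k, i, j] = N i j) :
    ∀ i ≤ m, g [9, k, i] = ∑ i' ∈ Finset.range i, ∑ l ∈ Finset.range m, e i' l * N l i' := by
  intro i
  induction i with
  | zero =>
    intro _
    have hI := hP ⟨Op.add, [9, k, 0], [3], [3]⟩ (mem_round m n h q k hk _ (by simp [traceProg]))
    change g [9, k, 0] = g [3] + g [3] at hI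
    rw [hI, h3]; norm_num
  | succ i ih =>
    intro hi
    have hi' : i < m := hi
    have hI := hP ⟨Op.add, [9, k, i + 1], [9, k, i], [8, k, i, i, m]⟩
      (mem_round m n h q k hk _ (by
        simp only [traceProg, List.mem_append, List.mem_cons, List.mem_map, List.mem_range]
        exact Or.inr (Or.inl (Or.inl (Or.inr ⟨i, hi', rfl⟩)))))
    change g [9, k, i + 1] = g [9, k, i] + g [8, k, i, i, m] at hI
    rw [hI, ih hi'.le, Finset.sum_range_succ,
      eight m n h q g e N k h3 hk hP he hN i i hi' hi' m le_rfl]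

theorem ten (h2 : g [2] = 1) (h3 : g [3] = 0) (hk : k < m)
    (hP : ∀ I ∈ minorProg m n h q, InstrEq g I)
    (he : ∀ i j, i < m → j < m → g [4, i, j] = e i j)
    (hN : ∀ i j, i < m → j < m → g [6, k, i, j] = N i j) :
    g [10, k] = (∑ i' ∈ Finset.range m, ∑ l ∈ Finset.range m, e i' l * N l i') / ((k : ℝ) + 1) := by
  have hI := hP ⟨Op.div, [10, k], [9, k, m], [5, k + 1]⟩
    (mem_round m n h q k hk _ (by simp [traceProg]))
  change g [10, k] * g [5, k + 1] = g [9, k, m] at hI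
  rw [five m n h q g h2 h3 hP (k + 1) hk, nine m n h q g e N k h3 hk hP he hN m le_rfl] at hI
  push_cast at hI
  have hk0 : (k : ℝ) + 1 ≠ 0 := by positivity
  rw [eq_div_iff hk0]
  exact hI

theorem six (h2 : g [2] = 1) (h3 : g [3] = 0) (hk : k < m)
    (hP : ∀ I ∈ minorProg m n h q, InstrEq g I)
    (he : ∀ i j, i < m → j < m → g [4, i, j] = e i j)
    (hN : ∀ i j, i < m → j < m → g [6, k, i, j] = N i j) (i j : ℕ) (hi : i < m) (hj : j < m) :
    g [6, k + 1, i, j] = (∑ l ∈ Finset.range m, e i l * N l j) -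
      if i = j then (∑ i' ∈ Finset.range m, ∑ l ∈ Finset.range m, e i' l * N l i') / ((k : ℝ) + 1)
      else 0 := by
  have hI := hP ⟨Op.sub, [6, k + 1, i, j], [8, k, i, j, m], if i = j then [10, k] else [3]⟩
    (mem_round m n h q k hk _ (by
      rw [List.mem_append, List.mem_append]
      right; right
      rw [nextProg, List.mem_flatMap]
      exact ⟨i, List.mem_range.2 hi, List.mem_map.2 ⟨j, List.mem_range.2 hj, rfl⟩⟩))
  change g [6, k + 1, i, j] = g [8, k, i, j, m] - g (if i = j then [10, k] else [3]) at hI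
  rw [hI, eight m n h q g e N k h3 hk hP he hN i j hi hj m le_rfl]
  split_ifs with c
  · rw [ten m n h q g e N k h2 h3 hk hP he hN]
  · rw [h3]

end

theorem mul_ent {m : ℕ} (A B : Matrix (Fin m) (Fin m) ℝ) (i j : ℕ) (hi : i < m) (hj : j < m) :
    (A * B) ⟨i, hi⟩ ⟨j, hj⟩ = ∑ l ∈ Finset.range m, ent A i l * ent B l j := by
  rw [Matrix.mul_apply, Finset.sum_range]
  refine Finset.sum_congr rfl fun l _ => ?_
  rw [ent_of A i l hi l.2, ent_of B l j l.2 hj]

theorem trace_ent {m : ℕ} (A B : Matrix (Fin m) (Fin m) ℝ) :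
    Matrix.trace (A * B) =
      ∑ i ∈ Finset.range m, ∑ l ∈ Finset.range m, ent A i l * ent B l i := by
  rw [Matrix.trace, Finset.sum_range]
  refine Finset.sum_congr rfl fun i _ => ?_
  rw [Matrix.diag_apply]
  exact mul_ent A B i i i.2 i.2

theorem sixall (m n : ℕ) (h : List Outcome) (q : ℕ) (a : Inp m n) (g : Reg → ℝ)
    (h2 : g [2] = 1) (h3 : g [3] = 0)
    (hP : ∀ I ∈ minorProg m n h q, InstrEq g I)
    (he : ∀ i j, i < m → j < m → g [4, i, j] = ent (EM m n h q a) i j) :
    ∀ k ≤ m, ∀ i j, i < m → j < m → g [6, k, i, j] = ent (flN (EM m n h q a) k) i j := by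
  intro k
  induction k with
  | zero =>
    intro _ i j hi hj
    rw [six0 m n h q g h2 h3 hP i j hi hj, ent_of _ i j hi hj, flN, Matrix.one_apply]
    simp only [Fin.mk.injEq]
  | succ k ih =>
    intro hk i j hi hj
    have hk' : k < m := hk
    rw [six m n h q g _ _ k h2 h3 hk' hP he (ih hk'.le) i j hi hj, ent_of _ i j hi hj, flN,
      Matrix.sub_apply, mul_ent, Matrix.smul_apply, Matrix.one_apply, trace_ent]
    simp only [Fin.mk.injEq, smul_eq_mul, mul_ite, mul_one, mul_zero]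

end TUNI

open TUNI in
theorem t_UNI : S_UNI := by
  intro m n h q a g hm hA hb h2 h3 hP
  have he : ∀ i j, i < m → j < m → g [4, i, j] = ent (EM m n h q a) i j :=
    fun i j hi hj => entry_eq m n h q a g hA hb h2 h3 hP i j hi hj
  have h6 := sixall m n h q a g h2 h3 hP he
  have h10 := ten m n h q g _ _ (m - 1) h2 h3 (by omega) hP he (h6 (m - 1) (by omega))
  have hI := hP _ (mem_last m n h q)
  change g [11] = g [3] - g [10, m - 1] at hI
  rw [hI, h3, h10, ← trace_ent]
  have hd := det_eq_flN (Matrix.of fun i j => wmat a.1 a.2 i (beta m n h q j)) hm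
  have hE : EM m n h q a = -(Matrix.of fun i j => wmat a.1 a.2 i (beta m n h q j)) := rfl
  unfold dd
  rw [← hd, hE]
  have hmc : ((m - 1 : ℕ) : ℝ) + 1 = (m : ℝ) := by
    have : (m - 1) + 1 = m := by omega
    exact_mod_cast this
  rw [hmc, zero_sub]

end Pool.Agent.H622R3.SM
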